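import Pool.Agent.Helper15.VG.One
import Pool.Agent.Helper15.VW.Exc

/-!
# FW, LEMMA N in the language of the path: families of vectors (rows [N], [P'])
-/

set_option autoImplicit false

namespace Pool.Agent.Helper15.VG

open Finset Matrix Pool.Agent.Helper69.RK Pool.Agent.Helper15.VW Pool.Agent.Helper26.VW
open Pool.Agent.Helper78.FW
open Pool.Agent.Helper61.GL hiding fl
open Pool.Agent.Helper92.W (fl)

variable {Ω Ω' α β γ δ ξ κ ζ χ ρ : Type} [Fintype Ω] [Fintype Ω'] {N : ℕ}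

/-- `x` is in `C` times the box of every family which contains the vectors `2 ^ (-mD) w`, `w` in `V`, in its box -/
def Cz (φ : ℝ) (V : (Fin N → ℝ) → Prop) (mD : ℕ) (C : ℝ) (x : Fin N → ℝ) : Prop :=
  ∀ Z : Multiset (Fin N → ℝ), fam (flr φ) ≤ Z → (∀ w, V w → InB Z (((1 : ℝ) / 2) ^ mD • w)) →
    ∀ i, |((frm Z)⁻¹ *ᵥ (((1 : ℝ) / 2) ^ mD • x)) i| ≤ C

theorem Cz_mem {φ : ℝ} (hφ : 0 < φ) {V : (Fin N → ℝ) → Prop} (mD : ℕ) {x : Fin N → ℝ} (h : V x) :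
    Cz φ V mD N x := fun _ hZ hV i => frm_inB hφ hZ (hV x h) i

theorem Cz_flr {φ : ℝ} (hφ : 0 < φ) (V : (Fin N → ℝ) → Prop) (mD : ℕ) (k : Fin N) :
    Cz φ V mD 1 (flr φ k) := by
  intro Z hZ _ i
  have h1 := frm_mem hφ hZ (Multiset.mem_of_le hZ (mem_fam (flr φ) k)) i
  rw [Matrix.mulVec_smul, Pi.smul_apply, smul_eq_mul, abs_mul, abs_of_pos (by positivity)]
  calc ((1 : ℝ) / 2) ^ mD * |((frm Z)⁻¹ *ᵥ flr φ k) i| ≤ 1 * 1 :=
        mul_le_mul (pow_le_one₀ (by norm_num) (by norm_num)) h1 (abs_nonneg _) zero_le_one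
    _ = 1 := one_mul 1

theorem Cz_mono {φ : ℝ} {V : (Fin N → ℝ) → Prop} {mD : ℕ} {C C' : ℝ} {x : Fin N → ℝ} (h : Cz φ V mD C x)
    (hC : C ≤ C') : Cz φ V mD C' x := fun Z hZ hV i => (h Z hZ hV i).trans hC

theorem Cz_weak {φ : ℝ} {V V' : (Fin N → ℝ) → Prop} {mD : ℕ} {C : ℝ} {x : Fin N → ℝ} (h : Cz φ V mD C x)
    (hV : ∀ w, V w → V' w) : Cz φ V' mD C x := fun Z hZ hV' i => h Z hZ (fun w hw => hV' w (hV w hw)) i

theorem Cz_add {φ : ℝ} {V : (Fin N → ℝ) → Prop} {mD : ℕ} {C C' : ℝ} {x x' : Fin N → ℝ} (h : Cz φ V mD C x)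
    (h' : Cz φ V mD C' x') : Cz φ V mD (C + C') (x + x') := by
  intro Z hZ hV i
  rw [smul_add, Matrix.mulVec_add, Pi.add_apply]
  exact (abs_add_le _ _).trans (add_le_add (h Z hZ hV i) (h' Z hZ hV i))

theorem Cz_smul {φ : ℝ} {V : (Fin N → ℝ) → Prop} {mD : ℕ} {C : ℝ} {x : Fin N → ℝ} (h : Cz φ V mD C x)
    (t : ℝ) : Cz φ V mD (|t| * C) (t • x) := by
  intro Z hZ hV i
  rw [smul_comm, Matrix.mulVec_smul, Pi.smul_apply, smul_eq_mul, abs_mul]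
  exact mul_le_mul_of_nonneg_left (h Z hZ hV i) (abs_nonneg _)

theorem Cz_sum {φ : ℝ} {V : (Fin N → ℝ) → Prop} {mD : ℕ} {C K : ℝ} (hC : 0 ≤ C) {ι : Type} [Fintype ι]
    (w : ι → Fin N → ℝ) (c : ι → ℝ) (hc : ∀ k, |c k| ≤ C) (h : ∀ k, Cz φ V mD K (w k)) :
    Cz φ V mD (Fintype.card ι * (C * K)) (∑ k, c k • w k) := by
  intro Z hZ hV i
  rw [Finset.smul_sum, Matrix.mulVec_sum, Finset.sum_apply]
  refine (Finset.abs_sum_le_sum_abs _ _).trans ?_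
  have : ∑ k : ι, |((frm Z)⁻¹ *ᵥ (((1 : ℝ) / 2) ^ mD • c k • w k)) i| ≤ ∑ k : ι, C * K := by
    apply Finset.sum_le_sum
    intro k _
    rw [smul_comm, Matrix.mulVec_smul, Pi.smul_apply, smul_eq_mul, abs_mul]
    exact mul_le_mul (hc k) (h k Z hZ hV i) (abs_nonneg _) hC
  rw [Finset.sum_const, Finset.card_univ, nsmul_eq_mul] at this
  exact this

/-- vectors in the box of members of `V` and floor vectors -/
theorem Cz_inB {φ : ℝ} (hφ : 0 < φ) {V : (Fin N → ℝ) → Prop} (mD : ℕ) {Z' : Multiset (Fin N → ℝ)}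
    (hZ' : ∀ w ∈ Z', V w ∨ ∃ k, flr φ k = w) {x : Fin N → ℝ} (h : InB Z' x) : Cz φ V mD (N * (1 * N)) x := by
  obtain ⟨w, hw, c, hc, rfl⟩ := h
  have h1 : ∀ k, Cz φ V mD N (w k) := by
    intro k
    rcases hZ' _ (hw k) with h | ⟨j, hj⟩
    · exact Cz_mem hφ mD h
    · rw [← hj]
      have : (1 : ℝ) ≤ N := by exact_mod_cast (show 1 ≤ N from Nat.one_le_iff_ne_zero.mpr (by
        intro h0; subst h0; exact k.elim0))
      exact Cz_mono (Cz_flr hφ V mD j) this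
  have h2 := Cz_sum (C := 1) zero_le_one w c hc h1
  rw [Fintype.card_fin] at h2
  exact h2

/-- bodies given by a matrix: `|A x| ≤ C`, the columns of the inverse are controlled -/
theorem Cz_body {φ : ℝ} {V : (Fin N → ℝ) → Prop} {mD : ℕ} {C K : ℝ} (hC : 0 ≤ C) (A : Mt N) (hA : A.det ≠ 0)
    {x : Fin N → ℝ} (hx : ∀ i, |(A *ᵥ x) i| ≤ C) (h : ∀ k, Cz φ V mD K (fun i => A⁻¹ i k)) :
    Cz φ V mD (N * (C * K)) x := by
  have h1 := Cz_sum hC (fun k => fun i => A⁻¹ i k) (fun k => (A *ᵥ x) k) hx h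
  have h2 : ∑ k, (A *ᵥ x) k • (fun i => A⁻¹ i k) = x := by
    have h3 : A⁻¹ *ᵥ (A *ᵥ x) = x := by
      rw [Matrix.mulVec_mulVec, Matrix.nonsing_inv_mul _ (isUnit_iff_ne_zero.2 hA), Matrix.one_mulVec]
    funext i
    have h4 : (A⁻¹ *ᵥ (A *ᵥ x)) i = ∑ k, A⁻¹ i k * (A *ᵥ x) k := rfl
    rw [h3] at h4
    rw [h4, Finset.sum_apply]
    apply Finset.sum_congr rfl
    intro k _
    rw [Pi.smul_apply, smul_eq_mul, mul_comm]
  rw [h2, Fintype.card_fin] at h1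
  exact h1

/-- small vectors are in the box of the floor -/
theorem frm_floor {φ : ℝ} (hφ : 0 < φ) {Z : Multiset (Fin N → ℝ)} (hZ : fam (flr (N := N) φ) ≤ Z) {K : ℝ}
    (hK : 0 ≤ K) {x : Fin N → ℝ} (hx : ∀ i, |x i| ≤ K * φ) (i : Fin N) : |((frm Z)⁻¹ *ᵥ x) i| ≤ N * K := by
  rcases eq_or_lt_of_le hK with h0 | h0
  · have : x = 0 := by
      funext j
      have := hx j
      rw [← h0, zero_mul] at this
      exact abs_eq_zero.mp (le_antisymm this (abs_nonneg _))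
    rw [this, Matrix.mulVec_zero, ← h0, mul_zero]
    simp
  · have h1 : InB Z (K⁻¹ • x) := by
      apply InB.flr hφ hZ
      intro j
      rw [Pi.smul_apply, smul_eq_mul, abs_mul, abs_of_pos (inv_pos.mpr h0), inv_mul_le_iff₀ h0]
      exact hx j
    have h2 := frm_inB hφ hZ h1 i
    rw [Matrix.mulVec_smul, Pi.smul_apply, smul_eq_mul, abs_mul, abs_of_pos (inv_pos.mpr h0),
      inv_mul_le_iff₀ h0] at h2
    linarith

/-- the factor `η` of the units -/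
theorem Cz_eta {φ : ℝ} {V : (Fin N → ℝ) → Prop} {mD : ℕ} {C K : ℝ} {x : Fin N → ℝ}
    (h : Cz φ V mD K x) {Z : Multiset (Fin N → ℝ)} (hZ : fam (flr (N := N) φ) ≤ Z)
    (hV : ∀ w, V w → InB Z (((1 : ℝ) / 2) ^ mD • w)) {e : ℝ} (he : |e| ≤ C * (1 / 2) ^ mD) (i : Fin N) :
    |e| * |((frm Z)⁻¹ *ᵥ x) i| ≤ C * K := by
  have h1 := h Z hZ hV i
  have hp : (0 : ℝ) < (1 / 2) ^ mD := by positivity
  rw [Matrix.mulVec_smul, Pi.smul_apply, smul_eq_mul, abs_mul, abs_of_pos hp] at h1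
  have hC : 0 ≤ C := by
    have h2 := (abs_nonneg e).trans he
    by_contra h3
    push Not at h3
    have := mul_neg_of_neg_of_pos h3 hp
    linarith
  calc |e| * |((frm Z)⁻¹ *ᵥ x) i| ≤ (C * (1 / 2) ^ mD) * |((frm Z)⁻¹ *ᵥ x) i| :=
        mul_le_mul_of_nonneg_right he (abs_nonneg _)
    _ = C * ((1 / 2) ^ mD * |((frm Z)⁻¹ *ᵥ x) i|) := by ring
    _ ≤ C * K := mul_le_mul_of_nonneg_left h1 hC

/-- **LEMMA N FOR FAMILIES**, all levels: `V J` are the vectors of the bodies of the partner level `J` -/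
theorem lemZ {u : ℕ} (μ : Ω → ℝ) (μ' : Ω' → ℝ) (π : Ω' → Ω) (hμ' : ∀ ω, 0 ≤ μ' ω)
    (hm : mass μ' = 1) (hπ : push π μ' = μ) (z : Ω → Fin N → ℝ) (Y : Ω → δ) (G : Ω' → γ) (rec : Ω' → ρ)
    (Z : ℕ → Multiset (Fin N → ℝ)) (φ : ℝ) (hφ : 0 < φ) (V : ℕ → (Fin N → ℝ) → Prop)
    (g R0 D l0 L n mD : ℕ) (v : Fin N → ℝ)
    (T : Fin (u + 1) → Ω' → ℝ) (Cc : Fin (u + 1) → Ω' → Fin N → ℝ) (η : Fin (u + 1) → Ω' → ℝ)
    (s : Fin (u + 1) → Ω' → Fin N → ℝ) (a : Fin (u + 1) → Ω' → ℝ) (X : Ω' → ℕ) (ze : Ω' → Fin N → ℝ)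
    (b o : ℕ → Fin (u + 1) → Ω' → Fin N → ℝ) (E : ℕ → Ω' → Prop) (C d0 e : ℝ)
    (hC : 1 ≤ C) (hg : R0 ≤ g) (hD : D ≤ R0)
    (hGY : ∀ ω ω', μ' ω ≠ 0 → μ' ω' ≠ 0 → G ω = G ω' → Y (π ω) = Y (π ω'))
    (hG : ∀ ω ω', μ' ω ≠ 0 → μ' ω' ≠ 0 → G ω = G ω' →
      (∀ k, η k ω = η k ω' ∧ s k ω = s k ω' ∧ a k ω = a k ω') ∧ X ω = X ω' ∧ ze ω = ze ω')
    (hbo : ∀ t < L, ∀ ω ω', μ' ω ≠ 0 → μ' ω' ≠ 0 → G ω = G ω' → rec ω = rec ω' →
      (∀ k, fl (l0 + t * D + X ω) (T k ω) = fl (l0 + t * D + X ω) (T k ω')) →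
      ∀ k, b t k ω = b t k ω' ∧ o t k ω = o t k ω')
    (hT : ∀ k ω, μ' ω ≠ 0 → 0 ≤ T k ω ∧ T k ω ≤ 1)
    (ha : ∀ ω, μ' ω ≠ 0 → 2 ^ X ω ≤ C * |(a 0 ω)⁻¹| ∧ |(a 0 ω)⁻¹| ≤ C * 2 ^ X ω)
    (hak : ∀ ω, μ' ω ≠ 0 → ∀ k : Fin u, |a k.succ ω / a 0 ω| ≤ C)
    (hη : ∀ k ω, μ' ω ≠ 0 → |η k ω| ≤ C * (1 / 2) ^ mD)
    (hn : ∀ ω, μ' ω ≠ 0 → l0 + L * D + X ω ≤ n)
    (hcount : (u + 1) * n - d0 ≤ CH μ' (fun ω => fun k => fl n (T k ω)) G)
    (hrec : CH μ' rec G ≤ e)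
    (hZ : ∀ t < L, fam (flr φ) ≤ Z t)
    (hZV : ∀ t < L, ∀ J, l0 + t * D ≤ J → ∀ w, V J w → InB (Z t) (((1 : ℝ) / 2) ^ mD • w))
    (hZv : ∀ t < L, InB (Z t) (((1 : ℝ) / 2) ^ (l0 + t * D + D) • v))
    (hE : ∀ t < L, ∀ ω, μ' ω ≠ 0 → E t ω → v = ∑ k, a k ω • s k ω ∧ ∑ k, a k ω * η k ω = 0 ∧
      (∀ i, |(z (π ω) - ze ω - ∑ k, (T k ω • s k ω - η k ω • Cc k ω)) i| ≤ C * φ) ∧
      (∀ (k : Fin u) i, |s k.succ ω i| ≤ C * 2 ^ n * φ) ∧ (∀ i, |b t 0 ω i| ≤ C * 2 ^ n * φ) ∧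
      (∀ k : Fin u, Cz φ (V (l0 + t * D + X ω)) mD (C * 2 ^ (l0 + t * D + X ω)) (b t k.succ ω - b t 0 ω)) ∧
      (∀ k, Cz φ (V (l0 + t * D + X ω)) mD C (Cc k ω - T k ω • b t k ω - o t k ω))) :
    ∑ t ∈ range L, IZ μ z Y g R0 (Z t) (((1 : ℝ) / 2) ^ (l0 + t * D) • v) ≤
      (d0 + e + cF1 u ((N + 1) * (C * C))) + L * cF2 N u ((N + 1) * (C * C)) +
        (D + cF3 N u ((N + 1) * (C * C))) * ∑ t ∈ range L, mass (res μ' (fun ω => ¬ E t ω)) := by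
  have hC0 : 0 ≤ C := by linarith
  have hN : (0 : ℝ) ≤ N := Nat.cast_nonneg N
  have hCC : C ≤ C * C := by nlinarith
  have k1 : C ≤ (N + 1) * (C * C) := by nlinarith
  have k2 : C * C ≤ (N + 1) * (C * C) := by nlinarith
  have k3 : N * C ≤ (N + 1) * (C * C) := by nlinarith
  have k4 : N * (C * C) ≤ (N + 1) * (C * C) := by nlinarith
  have main := lemF μ μ' π hμ' hm hπ z Y G rec (fun t _ => frm (Z t)) g R0 D l0 L n (fun _ => v) T Cc η s a X ze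
    b o E ((N + 1) * (C * C)) d0 e (hC.trans k1) hg hD (fun _ _ _ _ _ _ => rfl) (fun _ _ _ _ _ => rfl) hGY hG hbo
    hT (fun ω x => ⟨(ha ω x).1.trans (mul_le_mul_of_nonneg_right k1 (abs_nonneg _)),
      (ha ω x).2.trans (mul_le_mul_of_nonneg_right k1 (by positivity))⟩)
    (fun ω x k => (hak ω x k).trans k1) hn (fun t ht _ _ => frm_det hφ (hZ t ht))
    (fun t ht _ _ i => by
      have h1 := frm_inB hφ (hZ t ht) (hZv t ht) i
      have hp : ((1 : ℝ) / 2) ^ (l0 + t * D + D) * 2 ^ (l0 + t * D + D) = 1 := by rw [← mul_pow]; norm_num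
      rw [Matrix.mulVec_smul, Pi.smul_apply, smul_eq_mul, abs_mul, abs_of_pos (by positivity)] at h1
      have h2 := mul_le_mul_of_nonneg_right h1 (show (0 : ℝ) ≤ 2 ^ (l0 + t * D + D) by positivity)
      have h3 : ((1 : ℝ) / 2) ^ (l0 + t * D + D) * |((frm (Z t))⁻¹ *ᵥ v) i| * 2 ^ (l0 + t * D + D) =
          |((frm (Z t))⁻¹ *ᵥ v) i| := by
        calc _ = (((1 : ℝ) / 2) ^ (l0 + t * D + D) * 2 ^ (l0 + t * D + D)) * |((frm (Z t))⁻¹ *ᵥ v) i| := by ring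
          _ = _ := by rw [hp, one_mul]
      rw [h3] at h2
      refine h2.trans (mul_le_mul_of_nonneg_right ?_ (by positivity))
      nlinarith)
    hcount hrec
    (fun t ht ω x hEt => by
      obtain ⟨q1, q2, q3, q4, q5, q6, q7⟩ := hE t ht ω x hEt
      have hJ : l0 + t * D ≤ l0 + t * D + X ω := Nat.le_add_right _ _
      have hp1 : ((1 : ℝ) / 2) ^ mD ≤ 1 := pow_le_one₀ (by norm_num) (by norm_num)
      refine ⟨q1, q2, ?_, ?_, ?_, ?_, ?_⟩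
      · intro i
        exact (frm_floor hφ (hZ t ht) hC0 q3 i).trans k3
      · intro k i
        refine (frm_floor hφ (hZ t ht) (by positivity) (q4 k) i).trans ?_
        rw [← mul_assoc]
        exact mul_le_mul_of_nonneg_right k3 (by positivity)
      · intro k i
        have h1 := frm_floor hφ (hZ t ht) (by positivity) q5 i
        have h2 : |η k.succ ω| ≤ C := (hη k.succ ω x).trans (by nlinarith)
        calc |η k.succ ω| * |((frm (Z t))⁻¹ *ᵥ b t 0 ω) i| ≤ C * (N * (C * 2 ^ n)) :=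
              mul_le_mul h2 h1 (abs_nonneg _) hC0
          _ = N * (C * C) * 2 ^ n := by ring
          _ ≤ _ := mul_le_mul_of_nonneg_right k4 (by positivity)
      · intro k i
        refine (Cz_eta (q6 k) (hZ t ht) (hZV t ht _ hJ) (hη k.succ ω x) i).trans ?_
        rw [← mul_assoc]
        exact mul_le_mul_of_nonneg_right k2 (by positivity)
      · intro k i
        exact (Cz_eta (q7 k) (hZ t ht) (hZV t ht _ hJ) (hη k ω x) i).trans k2)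
  refine le_trans (le_of_eq ?_) main
  apply Finset.sum_congr rfl
  intro t _
  exact (NsV_const μ z Y (frm (Z t)) g R0 _).symm

end Pool.Agent.Helper15.VG
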