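import Pool.Agent.Helper15.VG.Adm
import Pool.Agent.Helper99.FW.Rec
import Pool.Agent.Helper78.FW.PathG

/-!
# FW: adapter between the families of the path (`Okb`), the bad events (`BadP`) and row [K]
-/

set_option autoImplicit false

namespace Pool.Agent.Helper15.VG

open Finset Matrix Pool.Agent.Helper69.RK Pool.Agent.Helper15.VW Pool.Agent.Helper26.VW
open Pool.Agent.Helper78.FW Pool.Agent.Helper99.FW Pool.Agent.Helper99.VW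

variable {N : ℕ}

/-- the norm in the frame of a family, in units `2 ^ (-mD)`, divided by `N` -/
noncomputable def PZ (Z : Multiset (Fin N → ℝ)) (mD : ℕ) : Seminorm ℝ (Fin N → ℝ) :=
  (normSeminorm ℝ (Fin N → ℝ)).comp (Matrix.toLin' (((N : ℝ)⁻¹ * (1 / 2) ^ mD) • (frm Z)⁻¹))

theorem PZ_apply (Z : Multiset (Fin N → ℝ)) (mD : ℕ) (x : Fin N → ℝ) :
    PZ Z mD x = ((N : ℝ)⁻¹ * (1 / 2) ^ mD) * ‖(frm Z)⁻¹ *ᵥ x‖ := by
  unfold PZ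
  rw [Seminorm.comp_apply, coe_normSeminorm, Matrix.toLin'_apply, Matrix.smul_mulVec, norm_smul,
    Real.norm_eq_abs, abs_of_nonneg (by positivity)]

theorem PZ_coord (Z : Multiset (Fin N → ℝ)) (mD : ℕ) (x : Fin N → ℝ) (i : Fin N) :
    (1 / 2) ^ mD * |((frm Z)⁻¹ *ᵥ x) i| ≤ N * PZ Z mD x := by
  have hN : (0 : ℝ) < N := by exact_mod_cast Fin.pos i
  rw [PZ_apply]
  have h1 : |((frm Z)⁻¹ *ᵥ x) i| ≤ ‖(frm Z)⁻¹ *ᵥ x‖ := norm_le_pi_norm ((frm Z)⁻¹ *ᵥ x) i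
  calc (1 / 2) ^ mD * |((frm Z)⁻¹ *ᵥ x) i| ≤ (1 / 2) ^ mD * ‖(frm Z)⁻¹ *ᵥ x‖ :=
        mul_le_mul_of_nonneg_left h1 (by positivity)
    _ = (N * (N : ℝ)⁻¹) * ((1 / 2) ^ mD * ‖(frm Z)⁻¹ *ᵥ x‖) := by
        rw [mul_inv_cancel₀ hN.ne', one_mul]
    _ = N * (((N : ℝ)⁻¹ * (1 / 2) ^ mD) * ‖(frm Z)⁻¹ *ᵥ x‖) := by ring

theorem PZ_le_one {φ : ℝ} (hφ : 0 < φ) {Z : Multiset (Fin N → ℝ)} (hZ : fam (flr (N := N) φ) ≤ Z) (mD : ℕ)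
    {w : Fin N → ℝ} (h : InB Z (((1 : ℝ) / 2) ^ mD • w)) : PZ Z mD w ≤ 1 := by
  have hp : (0 : ℝ) < (1 / 2) ^ mD := by positivity
  rcases Nat.eq_zero_or_pos N with h0 | h0
  · subst h0
    rw [PZ_apply]
    simp
  have hN : (0 : ℝ) < N := by exact_mod_cast h0
  have h1 : ‖(frm Z)⁻¹ *ᵥ (((1 : ℝ) / 2) ^ mD • w)‖ ≤ N := by
    rw [pi_norm_le_iff_of_nonneg hN.le]
    intro i
    exact frm_inB hφ hZ h i
  rw [Matrix.mulVec_smul, norm_smul, Real.norm_eq_abs, abs_of_pos hp] at h1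
  rw [PZ_apply, mul_assoc, inv_mul_le_iff₀ hN, mul_one]
  exact h1

theorem PZ_flr {φ : ℝ} (hφ : 0 < φ) {Z : Multiset (Fin N → ℝ)} (hZ : fam (flr (N := N) φ) ≤ Z) (mD : ℕ)
    (k : Fin N) : PZ Z mD (flr φ k) ≤ 1 := by
  apply PZ_le_one hφ hZ
  have h1 : InB Z (flr φ k) := InB.mem k (Multiset.mem_of_le hZ (mem_fam (flr φ) k))
  exact h1.smul (by rw [abs_of_pos (by positivity)]; exact pow_le_one₀ (by norm_num) (by norm_num))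

/-- **off the bad event the tubes and the slopes are controlled in the frame of the family** -/
theorem adp_good {B' : ℕ} {β : Type} {φ : ℝ} (hφ : 0 < φ) {V : β → Fin N → Fin N → ℝ}
    {p : β → Seminorm ℝ (Fin N → ℝ)} {r c₁ c₂ : ℝ} {S : Finset (Fin B')} {c c' : Fin B'} {nd' : Fin B' → β}
    {dv : Fin B' → Fin N → ℝ} {sl : β → Fin N → ℝ} (hnb : ¬ BadP φ V p r c₁ c₂ S c c' nd' dv sl)
    (hFr : ∀ n, FrOf (p n) (V n)) (Z : Multiset (Fin N → ℝ)) (hZ : fam (flr (N := N) φ) ≤ Z) (mD : ℕ)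
    (hW : ∀ a ∈ S, ∀ i, InB Z (((1 : ℝ) / 2) ^ mD • V (nd' a) i)) {A e : ℝ} (hA : 0 ≤ A)
    (he : |e| ≤ A * (1 / 2) ^ mD) :
    (∀ i, |e| * |((frm Z)⁻¹ *ᵥ dv c) i| ≤ A * (N ^ 3 * r)) ∧
    (∀ i, |e| * |((frm Z)⁻¹ *ᵥ dv c') i| ≤ A * (N ^ 3 * r)) ∧
    (∀ i, |e| * |((frm Z)⁻¹ *ᵥ (sl (nd' c) - sl (nd' c'))) i| ≤ A * (N ^ 3 * (c₁ + c₂))) := by
  have hP : ∀ u ∈ famS φ V nd' S, PZ Z mD u ≤ 1 := by
    intro u hu
    rcases mem_famS.mp hu with h | ⟨a, ha, h⟩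
    · obtain ⟨k, rfl⟩ := (mem_fam_iff _ _).mp h
      exact PZ_flr hφ hZ mD k
    · obtain ⟨k, rfl⟩ := (mem_fam_iff _ _).mp h
      exact PZ_le_one hφ hZ mD (hW a ha k)
  obtain ⟨t1, t2⟩ := BadP.tube hnb hFr (PZ Z mD) hP
  have t3 := BadP.close hnb hFr (PZ Z mD) hP
  have key : ∀ (x : Fin N → ℝ) (K : ℝ), PZ Z mD x ≤ N ^ 2 * K → ∀ i, |e| * |((frm Z)⁻¹ *ᵥ x) i| ≤
      A * (N ^ 3 * K) := by
    intro x K hx i
    have hN : (0 : ℝ) ≤ N := Nat.cast_nonneg N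
    have h1 := PZ_coord Z mD x i
    have h2 := mul_le_mul_of_nonneg_left hx hN
    calc |e| * |((frm Z)⁻¹ *ᵥ x) i| ≤ (A * (1 / 2) ^ mD) * |((frm Z)⁻¹ *ᵥ x) i| :=
          mul_le_mul_of_nonneg_right he (abs_nonneg _)
      _ = A * ((1 / 2) ^ mD * |((frm Z)⁻¹ *ᵥ x) i|) := by ring
      _ ≤ A * (N ^ 3 * K) := by
          apply mul_le_mul_of_nonneg_left _ hA
          calc (1 / 2) ^ mD * |((frm Z)⁻¹ *ᵥ x) i| ≤ N * (N ^ 2 * K) := h1.trans h2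
            _ = N ^ 3 * K := by ring
  exact ⟨key _ _ t1, key _ _ t2, key _ _ t3⟩

/-- absolute bounds in the frame of the family -/
theorem adp_abs {φ : ℝ} (hφ : 0 < φ) {Z : Multiset (Fin N → ℝ)} (hZ : fam (flr (N := N) φ) ≤ Z) {K : ℝ}
    {x : Fin N → ℝ} (hx : ‖x‖ ≤ K) (i : Fin N) : |((frm Z)⁻¹ *ᵥ x) i| ≤ N * (K / φ) := by
  have hK : 0 ≤ K := (norm_nonneg x).trans hx
  apply frm_floor hφ hZ (div_nonneg hK hφ.le)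
  intro j
  rw [div_mul_cancel₀ _ hφ.ne']
  exact (norm_le_pi_norm x j).trans hx

/-- the vector `x` in the body `b`, all frame vectors of `b` are in `2 ^ J` times the box of the family -/
theorem own_body {φ : ℝ} (hφ : 0 < φ) {Z : Multiset (Fin N → ℝ)} (hZ : fam (flr (N := N) φ) ≤ Z) {b : NB N}
    (hdet : b.M.det ≠ 0) (J : ℕ) (hown : ∀ i, InB Z (((1 : ℝ) / 2) ^ J • b.fr i)) {x : Fin N → ℝ} {c : ℝ}
    (hx : ‖b.M *ᵥ x‖ ≤ c) (i : Fin N) : |((frm Z)⁻¹ *ᵥ x) i| ≤ c * N ^ 2 * 2 ^ J := by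
  have hc : 0 ≤ c := (norm_nonneg _).trans hx
  have hJ : (0 : ℝ) < 2 ^ J := by positivity
  have hpp : ((1 : ℝ) / 2) ^ J * 2 ^ J = 1 := by rw [← mul_pow]; norm_num
  have h1 : ∀ k, |((frm Z)⁻¹ *ᵥ b.fr k) i| ≤ N * 2 ^ J := by
    intro k
    have h2 := frm_inB hφ hZ (hown k) i
    rw [Matrix.mulVec_smul, Pi.smul_apply, smul_eq_mul, abs_mul, abs_of_pos (by positivity)] at h2
    have h3 := mul_le_mul_of_nonneg_right h2 hJ.le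
    calc |((frm Z)⁻¹ *ᵥ b.fr k) i| = (((1 : ℝ) / 2) ^ J * 2 ^ J) * |((frm Z)⁻¹ *ᵥ b.fr k) i| := by
          rw [hpp, one_mul]
      _ = ((1 : ℝ) / 2) ^ J * |((frm Z)⁻¹ *ᵥ b.fr k) i| * 2 ^ J := by ring
      _ ≤ N * 2 ^ J := h3
  have h2 : x = ∑ k, (b.M *ᵥ x) k • b.fr k := by
    have h3 : b.M⁻¹ *ᵥ (b.M *ᵥ x) = x := by
      rw [Matrix.mulVec_mulVec, Matrix.nonsing_inv_mul _ (isUnit_iff_ne_zero.2 hdet), Matrix.one_mulVec]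
    funext j
    have h4 : (b.M⁻¹ *ᵥ (b.M *ᵥ x)) j = ∑ k, b.M⁻¹ j k * (b.M *ᵥ x) k := rfl
    rw [h3] at h4
    rw [Finset.sum_apply]
    conv_lhs => rw [h4]
    apply Finset.sum_congr rfl
    intro k _
    rw [Pi.smul_apply, smul_eq_mul, mul_comm]
    rfl
  have h3 : ((frm Z)⁻¹ *ᵥ x) i = ∑ k, (b.M *ᵥ x) k * ((frm Z)⁻¹ *ᵥ b.fr k) i := by
    conv_lhs => rw [h2, Matrix.mulVec_sum, Finset.sum_apply]
    apply Finset.sum_congr rfl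
    intro k _
    rw [Matrix.mulVec_smul, Pi.smul_apply, smul_eq_mul]
  rw [h3]
  refine (Finset.abs_sum_le_sum_abs _ _).trans ?_
  have h4 : ∑ k : Fin N, |(b.M *ᵥ x) k * ((frm Z)⁻¹ *ᵥ b.fr k) i| ≤ ∑ _k : Fin N, c * (N * 2 ^ J) := by
    apply Finset.sum_le_sum
    intro k _
    rw [abs_mul]
    exact mul_le_mul ((norm_le_pi_norm _ k).trans hx) (h1 k) (abs_nonneg _) hc
  rw [Finset.sum_const, Finset.card_univ, Fintype.card_fin, nsmul_eq_mul] at h4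
  calc _ ≤ N * (c * (N * 2 ^ J)) := h4
    _ = c * N ^ 2 * 2 ^ J := by ring

/-- absolute size of the vectors of a body -/
theorem body_bdd {b : NB N} (hdet : b.M.det ≠ 0) {B c : ℝ} (hB : ∀ i, ‖b.fr i‖ ≤ B) {x : Fin N → ℝ}
    (hx : ‖b.M *ᵥ x‖ ≤ c) (i : Fin N) : |x i| ≤ N * (c * B) := by
  have hc : 0 ≤ c := (norm_nonneg _).trans hx
  have h3 : b.M⁻¹ *ᵥ (b.M *ᵥ x) = x := by
    rw [Matrix.mulVec_mulVec, Matrix.nonsing_inv_mul _ (isUnit_iff_ne_zero.2 hdet), Matrix.one_mulVec]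
  have h4 : (b.M⁻¹ *ᵥ (b.M *ᵥ x)) i = ∑ k, b.M⁻¹ i k * (b.M *ᵥ x) k := rfl
  rw [h3] at h4
  rw [h4]
  refine (Finset.abs_sum_le_sum_abs _ _).trans ?_
  have h5 : ∑ k : Fin N, |b.M⁻¹ i k * (b.M *ᵥ x) k| ≤ ∑ _k : Fin N, c * B := by
    apply Finset.sum_le_sum
    intro k _
    rw [abs_mul, mul_comm]
    exact mul_le_mul ((norm_le_pi_norm _ k).trans hx) ((norm_le_pi_norm (b.fr k) i).trans (hB k)) (abs_nonneg _)
      hc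
  rw [Finset.sum_const, Finset.card_univ, Fintype.card_fin, nsmul_eq_mul] at h5
  exact h5

/-- from `Okb`: the size of the vectors of the family -/
theorem okb_bdd {φ B : ℝ} {R D : ℕ} {V W : ℕ → Finset (Fin N → ℝ)} {m j : ℕ} {v : Fin N → ℝ}
    {Z : Multiset (Fin N → ℝ)} (h : Okb (fam (flr φ)) B R D V W m j v Z) : ∀ x ∈ Z, ∀ i, |x i| ≤ B :=
  fun x hx i => h.adm.2.2 x (Multiset.mem_add.mpr (Or.inl hx)) i

/-- from `Okb`: the source vector in the frame of the family -/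
theorem okb_hv {φ B : ℝ} (hφ : 0 < φ) {R D : ℕ} {V W : ℕ → Finset (Fin N → ℝ)} {m j : ℕ} {v : Fin N → ℝ}
    {Z : Multiset (Fin N → ℝ)} (h : Okb (fam (flr φ)) B R D V W m j v Z) {x : Fin N → ℝ} (hx : x ∈ V m)
    (i : Fin N) : |((frm Z)⁻¹ *ᵥ x) i| ≤ N * 2 ^ (j + R) := by
  have hpp : ((1 : ℝ) / 2) ^ (j + R) * 2 ^ (j + R) = 1 := by rw [← mul_pow]; norm_num
  have h2 := frm_inB hφ h.fl (h.own x hx) i
  rw [Matrix.mulVec_smul, Pi.smul_apply, smul_eq_mul, abs_mul, abs_of_pos (by positivity)] at h2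
  have h3 := mul_le_mul_of_nonneg_right h2 (show (0 : ℝ) ≤ 2 ^ (j + R) by positivity)
  calc |((frm Z)⁻¹ *ᵥ x) i| = (((1 : ℝ) / 2) ^ (j + R) * 2 ^ (j + R)) * |((frm Z)⁻¹ *ᵥ x) i| := by
        rw [hpp, one_mul]
    _ = ((1 : ℝ) / 2) ^ (j + R) * |((frm Z)⁻¹ *ᵥ x) i| * 2 ^ (j + R) := by ring
    _ ≤ N * 2 ^ (j + R) := h3

/-- from `Okb`: vectors of a body whose frame vectors are source vectors of the level -/
theorem okb_hw {φ B : ℝ} (hφ : 0 < φ) {R D : ℕ} {V W : ℕ → Finset (Fin N → ℝ)} {m j : ℕ} {v : Fin N → ℝ}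
    {Z : Multiset (Fin N → ℝ)} (h : Okb (fam (flr φ)) B R D V W m j v Z) {b : NB N} (hdet : b.M.det ≠ 0)
    (hb : ∀ i, b.fr i ∈ V m) {x : Fin N → ℝ} {c : ℝ} (hx : ‖b.M *ᵥ x‖ ≤ c) (i : Fin N) :
    |((frm Z)⁻¹ *ᵥ x) i| ≤ c * N ^ 2 * 2 ^ (j + R) :=
  own_body hφ h.fl hdet (j + R) (fun k => h.own _ (hb k)) hx i

/-- **from `Okb` and `BadP`** : hypothesis `hgood` of row [K] at the level `J ≥ j` -/
theorem okb_hgood {B' : ℕ} {β : Type} {φ B : ℝ} (hφ : 0 < φ) {R D : ℕ} {VA VC : ℕ → Finset (Fin N → ℝ)}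
    {m j : ℕ} {v : Fin N → ℝ} {Z : Multiset (Fin N → ℝ)} (h : Okb (fam (flr φ)) B R D VA VC m j v Z)
    {V : β → Fin N → Fin N → ℝ} {p : β → Seminorm ℝ (Fin N → ℝ)} {r c₁ c₂ : ℝ} {S : Finset (Fin B')}
    {c c' : Fin B'} {nd' : Fin B' → β} {dv : Fin B' → Fin N → ℝ} {sl : β → Fin N → ℝ}
    (hnb : ¬ BadP φ V p r c₁ c₂ S c c' nd' dv sl) (hFr : ∀ n, FrOf (p n) (V n)) {J : ℕ} (hJ : j ≤ J)
    (hW : ∀ a ∈ S, ∀ i, V (nd' a) i ∈ VC J) {A K : ℝ} (hA : 0 ≤ A) (hK : ‖sl (nd' c)‖ ≤ K)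
    {η : Fin 2 → ℝ} (hη : ∀ k, |η k| ≤ A * (1 / 2) ^ (m + D)) :
    (∀ i, |η 1| * |((frm Z)⁻¹ *ᵥ sl (nd' c)) i| ≤ A * (N * (K / φ))) ∧
    (∀ i, |η 1| * |((frm Z)⁻¹ *ᵥ (sl (nd' c') - sl (nd' c))) i| ≤ A * (N ^ 3 * (c₁ + c₂))) ∧
    (∀ i, |η 0| * |((frm Z)⁻¹ *ᵥ dv c) i| ≤ A * (N ^ 3 * r)) ∧
    (∀ i, |η 1| * |((frm Z)⁻¹ *ᵥ dv c') i| ≤ A * (N ^ 3 * r)) := by
  have hE : ∀ a ∈ S, ∀ i, InB Z (((1 : ℝ) / 2) ^ (m + D) • V (nd' a) i) := fun a ha i =>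
    h.err J hJ _ (hW a ha i)
  obtain ⟨a1, a2, a3⟩ := adp_good hφ hnb hFr Z h.fl (m + D) hE hA (hη 0)
  obtain ⟨b1, b2, b3⟩ := adp_good hφ hnb hFr Z h.fl (m + D) hE hA (hη 1)
  refine ⟨?_, ?_, a1, b2⟩
  · intro i
    have h1 := adp_abs hφ h.fl hK i
    have h2 : |η 1| ≤ A := (hη 1).trans (by
      have : ((1 : ℝ) / 2) ^ (m + D) ≤ 1 := pow_le_one₀ (by norm_num) (by norm_num)
      nlinarith)
    exact mul_le_mul h2 h1 (abs_nonneg _) hA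
  · intro i
    have h1 : sl (nd' c') - sl (nd' c) = -(sl (nd' c) - sl (nd' c')) := by abel
    rw [h1, Matrix.mulVec_neg, Pi.neg_apply, abs_neg]
    exact b3 i

end Pool.Agent.Helper15.VG
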