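import Pool.Agent.Helper15.VG.Adp
import Pool.Agent.Helper99.FW.Cla
import Pool.Agent.Helper78.FW.FinA

/-!
# FW: adapter between the families of the path (`Okb`), the bad events of pairs of points (`BadQ`) and row [K]
-/

set_option autoImplicit false

namespace Pool.Agent.Helper15.VG

open Finset Matrix Pool.Agent.Helper69.RK Pool.Agent.Helper15.VW Pool.Agent.Helper26.VW
open Pool.Agent.Helper78.FW Pool.Agent.Helper99.FW Pool.Agent.Helper99.VW Pool.Agent.Helper61.FW Pool.Agent.Helper58.TR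

variable {N : ℕ} {φt α R' : Type}

/-- off the bad event the tubes and the slopes are controlled in the frame of the family -/
theorem adq_good {φ : ℝ} (hφ : 0 < φ) {S : Sd φt α R' N} {S' C₀ : ℕ} {r : ℝ} {F : Multiset (Fin N → ℝ)} {J : ℕ}
    {q q' : α} (hnb : ¬ BadQ S S' C₀ r F J q q') (hFr : FrOf (S.bL J q).sn (S.bL J q).fr)
    (hFr' : FrOf (S.bL J q').sn (S.bL J q').fr) (Z : Multiset (Fin N → ℝ)) (hZ : fam (flr (N := N) φ) ≤ Z) (mD : ℕ)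
    (hW : ∀ u ∈ F, u ∈ fam (flr (N := N) φ) ∨ InB Z (((1 : ℝ) / 2) ^ mD • u)) {A e : ℝ} (hA : 0 ≤ A)
    (he : |e| ≤ A * (1 / 2) ^ mD) :
    (∀ i, |e| * |((frm Z)⁻¹ *ᵥ (S.A q - S.T q • (S.bL J q).a - (S.bL J q).o)) i| ≤ A * (N ^ 3 * r)) ∧
    (∀ i, |e| * |((frm Z)⁻¹ *ᵥ (S.A q' - S.T q' • (S.bL J q').a - (S.bL J q').o)) i| ≤ A * (N ^ 3 * r)) ∧
    (∀ i, |e| * |((frm Z)⁻¹ *ᵥ ((S.bL J q').a - (S.bL J q).a)) i| ≤
      A * (N ^ 3 * (2 ^ (J + C₀ + 3) * r + 2 ^ (J + C₀ + 2) * r))) := by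
  have hP : ∀ u ∈ F, PZ Z mD u ≤ 1 := by
    intro u hu
    rcases hW u hu with h | h
    · obtain ⟨k, rfl⟩ := (mem_fam_iff _ _).mp h
      exact PZ_flr hφ hZ mD k
    · exact PZ_le_one hφ hZ mD h
  obtain ⟨t1, t2⟩ := BadQ.tube hnb hFr hFr' (PZ Z mD) hP
  have t3 := BadQ.close hnb hFr hFr' (PZ Z mD) hP
  have key : ∀ (x : Fin N → ℝ) (K : ℝ), PZ Z mD x ≤ N ^ 2 * K → ∀ i, |e| * |((frm Z)⁻¹ *ᵥ x) i| ≤
      A * (N ^ 3 * K) := by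
    intro x K hx i
    have hN : (0 : ℝ) ≤ N := Nat.cast_nonneg N
    have h1 := PZ_coord Z mD x i
    have h2 := mul_le_mul_of_nonneg_left hx hN
    calc |e| * |((frm Z)⁻¹ *ᵥ x) i| ≤ (A * (1 / 2) ^ mD) * |((frm Z)⁻¹ *ᵥ x) i| :=
          mul_le_mul_of_nonneg_right he (abs_nonneg _)
      _ = A * ((1 / 2) ^ mD * |((frm Z)⁻¹ *ᵥ x) i|) := by ring
      _ ≤ A * (N ^ 3 * K) := by
          apply mul_le_mul_of_nonneg_left _ hA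
          calc (1 / 2) ^ mD * |((frm Z)⁻¹ *ᵥ x) i| ≤ N * (N ^ 2 * K) := h1.trans h2
            _ = N ^ 3 * K := by ring
  refine ⟨key _ _ t1, key _ _ t2, fun i => ?_⟩
  have h1 : (S.bL J q').a - (S.bL J q).a = -((S.bL J q).a - (S.bL J q').a) := by abel
  rw [h1, Matrix.mulVec_neg, Pi.neg_apply, abs_neg]
  exact key _ _ t3 i

/-- **hypothesis `hgood` of row [K]** at the level `J ≥ j` from `Okb` and `BadQ` -/
theorem adq_hgood {φ B : ℝ} (hφ : 0 < φ) {R D : ℕ} {VA VC : ℕ → Finset (Fin N → ℝ)} {m j : ℕ} {v : Fin N → ℝ}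
    {Z : Multiset (Fin N → ℝ)} (h : Okb (fam (flr φ)) B R D VA VC m j v Z) {S : Sd φt α R' N} {S' C₀ : ℕ} {r : ℝ}
    (hr : 0 ≤ r) {J : ℕ} {q : Fin 2 → α} {B' : ℕ} {s : Finset (Fin B')} {x : Fin B' → α}
    (hnb : ¬ BadQ S S' C₀ r (fmL S φ s x J) J (q 0) (q 1))
    (hFr : ∀ k, FrOf (S.bL J (q k)).sn (S.bL J (q k)).fr) (hJ : j ≤ J)
    (hW : ∀ b ∈ s, ∀ i, (S.bL J (x b)).fr i ∈ VC J) {A K C : ℝ} {n : ℕ} (hA : 0 ≤ A)
    (hK : ‖(S.bL J (q 0)).a‖ ≤ K) (hC1 : A * (N * (K / φ)) ≤ C * 2 ^ n)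
    (hC2 : A * (N ^ 3 * (12 * 2 ^ C₀ * r)) ≤ C) {η : Fin 2 → ℝ} (hη : ∀ k, |η k| ≤ A * (1 / 2) ^ (m + D)) :
    (∀ i, |η 1| * |((frm Z)⁻¹ *ᵥ (S.bL J (q 0)).a) i| ≤ C * 2 ^ n) ∧
    (∀ i, |η 1| * |((frm Z)⁻¹ *ᵥ ((S.bL J (q 1)).a - (S.bL J (q 0)).a)) i| ≤ C * 2 ^ J) ∧
    ∀ k i, |η k| * |((frm Z)⁻¹ *ᵥ (S.A (q k) - S.T (q k) • (S.bL J (q k)).a - (S.bL J (q k)).o)) i| ≤ C := by
  have hE : ∀ u ∈ fmL S φ s x J, u ∈ fam (flr (N := N) φ) ∨ InB Z (((1 : ℝ) / 2) ^ (m + D) • u) := by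
    intro u hu
    rcases mem_fmL.mp hu with h1 | ⟨b, hb, i, rfl⟩
    · exact Or.inl h1
    · exact Or.inr (h.err J hJ _ (hW b hb i))
  obtain ⟨a1, a2, a3⟩ := adq_good hφ hnb (hFr 0) (hFr 1) Z h.fl (m + D) hE hA (hη 0)
  obtain ⟨b1, b2, b3⟩ := adq_good hφ hnb (hFr 0) (hFr 1) Z h.fl (m + D) hE hA (hη 1)
  have hN3 : (0 : ℝ) ≤ A * (N ^ 3 * r) := by positivity
  have hC0 : (1 : ℝ) ≤ 2 ^ C₀ := one_le_pow₀ (by norm_num)
  have hCr : A * (N ^ 3 * r) ≤ C := by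
    refine le_trans ?_ hC2
    have h1 : A * (N ^ 3 * (12 * 2 ^ C₀ * r)) = (12 * 2 ^ C₀) * (A * (N ^ 3 * r)) := by ring
    rw [h1]
    nlinarith
  refine ⟨?_, ?_, ?_⟩
  · intro i
    have h1 := adp_abs hφ h.fl hK i
    have h2 : |η 1| ≤ A := (hη 1).trans (by
      have : ((1 : ℝ) / 2) ^ (m + D) ≤ 1 := pow_le_one₀ (by norm_num) (by norm_num)
      nlinarith)
    exact (mul_le_mul h2 h1 (abs_nonneg _) hA).trans hC1
  · intro i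
    refine (b3 i).trans ?_
    have h1 : A * ((N : ℝ) ^ 3 * (2 ^ (J + C₀ + 3) * r + 2 ^ (J + C₀ + 2) * r)) =
        (A * (N ^ 3 * (12 * 2 ^ C₀ * r))) * 2 ^ J := by
      rw [pow_add, pow_add, pow_add, pow_add]
      ring
    rw [h1]
    exact mul_le_mul_of_nonneg_right hC2 (by positivity)
  · intro k i
    fin_cases k
    · exact (a1 i).trans hCr
    · exact (b2 i).trans hCr

/-- the frames of the side `S` at the level `m` -/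
noncomputable def frL (S : Sd φt α R' N) (m : ℕ) (y : Lb φt R') : Fin N → Fin N → ℝ := (S.B (m / S.P) (m % S.P) y).fr

/-- the families of the spectators in the names of `finA` -/
theorem mem_VGWS {S : Sd φt α R' N} {B' : ℕ} {s : Finset (Fin B')} {x : Fin B' → α} {G : Finset ℕ} {J : ℕ} (hJ : J ∈ G) :
    ∀ b ∈ s, ∀ i, (S.bL J (x b)).fr i ∈ VG (fun m => WS (frL S m) (fun b => S.nL m (x b)) s) G J := by
  intro b hb i
  rw [VG_pos hJ, mem_WS]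
  exact ⟨b, hb, i, rfl⟩

/-- **hypothesis `hgood` of row [K]** in the names of `finA`: the levels out of `G` are bad -/
theorem adq_hgoodG {φ B : ℝ} (hφ : 0 < φ) {R D : ℕ} {VA : ℕ → Finset (Fin N → ℝ)} {m j : ℕ} {v : Fin N → ℝ}
    {Z : Multiset (Fin N → ℝ)} {S : Sd φt α R' N} {S' C₀ : ℕ} {r : ℝ} {B' : ℕ} {s : Finset (Fin B')} {x : Fin B' → α}
    {G : Finset ℕ}
    (h : Okb (fam (flr φ)) B R D VA (VG (fun m => WS (frL S m) (fun b => S.nL m (x b)) s) G) m j v Z)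
    (hr : 0 ≤ r) {J : ℕ} {q : Fin 2 → α} (hnb : ¬ (J ∉ G ∨ BadQ S S' C₀ r (fmL S φ s x J) J (q 0) (q 1)))
    (hFr : ∀ k, FrOf (S.bL J (q k)).sn (S.bL J (q k)).fr) (hJ : j ≤ J) {A K C : ℝ} {n : ℕ} (hA : 0 ≤ A)
    (hK : ‖(S.bL J (q 0)).a‖ ≤ K) (hC1 : A * (N * (K / φ)) ≤ C * 2 ^ n)
    (hC2 : A * (N ^ 3 * (12 * 2 ^ C₀ * r)) ≤ C) {η : Fin 2 → ℝ} (hη : ∀ k, |η k| ≤ A * (1 / 2) ^ (m + D)) :
    (∀ i, |η 1| * |((frm Z)⁻¹ *ᵥ (S.bL J (q 0)).a) i| ≤ C * 2 ^ n) ∧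
    (∀ i, |η 1| * |((frm Z)⁻¹ *ᵥ ((S.bL J (q 1)).a - (S.bL J (q 0)).a)) i| ≤ C * 2 ^ J) ∧
    ∀ k i, |η k| * |((frm Z)⁻¹ *ᵥ (S.A (q k) - S.T (q k) • (S.bL J (q k)).a - (S.bL J (q k)).o)) i| ≤ C := by
  push Not at hnb
  exact adq_hgood hφ h hr hnb.2 hFr hJ (mem_VGWS hnb.1) hA hK hC1 hC2 hη

/-- the frames of the bodies of the node theorem -/
theorem sdG_frOf [Fintype α] {dd ρw rr : ℕ} {g κ : ℝ} (hc : Cst N dd ρw rr g κ) (F : α → φt) (T : α → ℝ)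
    (A : α → Fin N → ℝ) (P : ℕ) (o : ℕ → ℕ) (μ : α → ℝ) (J : ℕ) (q : α) :
    FrOf ((sdG N ρw dd rr g κ F T A P o μ).bL J q).sn ((sdG N ρw dd rr g κ F T A P o μ).bL J q).fr := by
  have h := hc.reg_tree (F := F) (T := T) (P := P) (μ := μ) (A := A) (o := o) (J / P) (J % P)
    ((sdG N ρw dd rr g κ F T A P o μ).nL J q)
  exact NB.Reg.frOf h

/-- the slopes of the bodies of the node theorem -/
theorem sdG_slo [Fintype α] {dd ρw rr : ℕ} {g κ : ℝ} (hc : Cst N dd ρw rr g κ) (F : α → φt) (T : α → ℝ)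
    (A : α → Fin N → ℝ) (P : ℕ) (o : ℕ → ℕ) (μ : α → ℝ) (J : ℕ) (q : α) :
    ‖((sdG N ρw dd rr g κ F T A P o μ).bL J q).a‖ ≤ Kas N * 2 ^ J := by
  have h := hc.reg_tree (F := F) (T := T) (P := P) (μ := μ) (A := A) (o := o) (J / P) (J % P)
    ((sdG N ρw dd rr g κ F T A P o μ).nL J q)
  have h1 := h.slo
  rwa [Nat.div_add_mod'] at h1

/-- the own vectors: the bodies of the source side at the level `m` -/
theorem adq_hw {φ B : ℝ} (hφ : 0 < φ) {R D : ℕ} {VA VC : ℕ → Finset (Fin N → ℝ)} {m j : ℕ} {v : Fin N → ℝ}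
    {Z : Multiset (Fin N → ℝ)} (h : Okb (fam (flr φ)) B R D VA VC m j v Z) {S : Sd φt α R' N} {y : α}
    (hdet : (S.bL m y).M.det ≠ 0) (hb : ∀ i, (S.bL m y).fr i ∈ VA m) {x : Fin N → ℝ} {c : ℝ}
    (hx : ‖(S.bL m y).M *ᵥ x‖ ≤ c) (i : Fin N) : |((frm Z)⁻¹ *ᵥ x) i| ≤ c * N ^ 2 * 2 ^ (j + R) :=
  okb_hw hφ h hdet hb hx i

end Pool.Agent.Helper15.VG
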