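import Pool.Agent.Helper15.VG.Flt

/-!
# Vector W (ns_notes_6d, (4.1)): closing of the path of one noise
-/

set_option autoImplicit false

namespace Pool.Agent.Helper15.VG

open Finset Matrix Pool.Agent.Helper69.RK Pool.Agent.Helper15.VW Pool.Agent.Helper26.VW
open Pool.Agent.Helper61.GL hiding fl
open Pool.Agent.Helper92.W (fl)

theorem int_card (T : Finset ℤ) (t : ℝ) (ht : 0 ≤ t) (h : ∀ x ∈ T, ∀ y ∈ T, |(x : ℝ) - y| ≤ t) :
    (T.card : ℝ) ≤ t + 1 := by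
  rcases T.eq_empty_or_nonempty with rfl | hne
  · simp only [Finset.card_empty, Nat.cast_zero]
    linarith
  have hsub : T ⊆ Finset.Icc (T.min' hne) (T.min' hne + ⌊t⌋) := by
    intro c hc
    rw [Finset.mem_Icc]
    refine ⟨Finset.min'_le T c hc, ?_⟩
    have h3 := h c hc _ (Finset.min'_mem T hne)
    have h4 : c - T.min' hne ≤ ⌊t⌋ := by
      rw [Int.le_floor]
      push_cast
      exact (le_abs_self _).trans h3
    linarith
  have hcard := Finset.card_le_card hsub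
  rw [Int.card_Icc] at hcard
  have h5 : (T.min' hne + ⌊t⌋ + 1 - T.min' hne).toNat = (⌊t⌋ + 1).toNat := by
    congr 1
    ring
  rw [h5] at hcard
  have h6 : (0 : ℤ) ≤ ⌊t⌋ := Int.floor_nonneg.mpr ht
  have h7 : (T.card : ℤ) ≤ ⌊t⌋ + 1 := by
    have := Int.toNat_of_nonneg (show (0 : ℤ) ≤ ⌊t⌋ + 1 by linarith)
    rw [← this]
    exact_mod_cast hcard
  have h8 : (T.card : ℝ) ≤ (⌊t⌋ : ℝ) + 1 := by exact_mod_cast h7
  linarith [Int.floor_le t]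

variable {Ω α β γ δ ξ κ ζ : Type} [Fintype Ω]

/-- an integer whose spread depends on the condition -/
theorem ch_intv (μ : Ω → ℝ) (hμ : ∀ ω, 0 ≤ μ ω) (X : Ω → ℤ) (G : Ω → γ) (t : Ω → ℝ)
    (ht : ∀ ω, μ ω ≠ 0 → 0 ≤ t ω) (htG : ∀ ω ω', μ ω ≠ 0 → μ ω' ≠ 0 → G ω = G ω' → t ω = t ω')
    (h : ∀ ω ω', μ ω ≠ 0 → μ ω' ≠ 0 → G ω = G ω' → |(X ω : ℝ) - X ω'| ≤ t ω) :
    CH μ X G ≤ ∑ ω, μ ω * Real.logb 2 (t ω + 1) := by
  classical
  apply e3_card μ X G (fun ω => t ω + 1) hμ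
  intro ω h0
  refine int_card _ _ (ht ω h0) ?_
  intro x hx y hy
  obtain ⟨ω1, h1, rfl⟩ := e3_mem_image hx
  obtain ⟨ω2, h2, rfl⟩ := e3_mem_image hy
  have h1' := (@Finset.mem_filter _ _ (_) _ _).mp h1
  have h2' := (@Finset.mem_filter _ _ (_) _ _).mp h2
  rw [← htG ω1 ω h1'.2.1 h0 h1'.2.2]
  exact h ω1 ω2 h1'.2.1 h2'.2.1 (h1'.2.2.trans h2'.2.2.symm)

/-- the constants of the closing step -/
noncomputable def cC (r : ℕ) (C : ℝ) : ℝ :=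
  Real.logb 2 ((2 * C + 3) * (2 * C + 1)) + r * Real.logb 2 (2 * C + 8) + Real.logb 2 (2 * C + 4)

/-- the good part -/
theorem close_good {r : ℕ} (ν : Ω → ℝ) (hν : ∀ ω, 0 ≤ ν ω) (z : Ω → Fin r → ℝ) (K : Ω → κ)
    (M : Ω → Mt r) (g R0 D : ℕ) (v z0 : Ω → Fin r → ℝ) (τ : Ω → ℝ) (C : ℝ) (hC : 1 ≤ C) (hg : R0 ≤ g)
    (hKM : ∀ ω ω', ν ω ≠ 0 → ν ω' ≠ 0 → K ω = K ω' → M ω = M ω')
    (hKv : ∀ ω ω', ν ω ≠ 0 → ν ω' ≠ 0 → K ω = K ω' → v ω = v ω')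
    (hKz : ∀ ω ω', ν ω ≠ 0 → ν ω' ≠ 0 → K ω = K ω' → z0 ω = z0 ω')
    (hz : ∀ ω, ν ω ≠ 0 → ∀ i, |((M ω)⁻¹ *ᵥ (z ω - z0 ω - τ ω • v ω)) i| ≤ C)
    (hτ : ∀ ω, ν ω ≠ 0 → |τ ω| ≤ C)
    (hv : ∀ ω, ν ω ≠ 0 → ∀ i, |((M ω)⁻¹ *ᵥ v ω) i| ≤ C * 2 ^ D) :
    NsV ν z K M g R0 v ≤ (D + cC r C) * mass ν - CH ν (fun ω => fl D (τ ω)) K := by
  classical
  have : Nonempty (Fin (2 ^ g)) := ⟨⟨0, by positivity⟩⟩
  have : Nonempty (Fin (2 ^ R0)) := ⟨⟨0, by positivity⟩⟩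
  have hg0 : (0 : ℝ) < 2 ^ g := by positivity
  have hR0 : (0 : ℝ) < 2 ^ R0 := by positivity
  have hgR : (2 : ℝ) ^ R0 ≤ 2 ^ g := pow_le_pow_right₀ (by norm_num) hg
  set μ2 := un (Fin r → Fin (2 ^ g)) ν with hμ2
  set μ3 := un (Fin (2 ^ R0)) μ2 with hμ3
  have n2 : ∀ p, 0 ≤ μ2 p := un_nonneg ν hν
  have n3 : ∀ p, 0 ≤ μ3 p := un_nonneg μ2 n2
  have m2 : mass μ2 = mass ν := un_mass ν
  have m3 : mass μ3 = mass ν := (un_mass μ2).trans m2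
  have hne : ∀ p, μ3 p ≠ 0 → ν p.1.1 ≠ 0 := fun p hp => un_ne ν p.1 (un_ne _ p hp)
  have hmass : 0 ≤ mass ν := Finset.sum_nonneg fun ω _ => hν ω
  -- size of the noise vector
  set lam : Ω → ℝ := fun ω => max 1 ‖(M ω)⁻¹ *ᵥ v ω‖ with hlam
  have l1 : ∀ ω, 1 ≤ lam ω := fun ω => le_max_left _ _
  have l2 : ∀ ω i, |((M ω)⁻¹ *ᵥ v ω) i| ≤ lam ω := by
    intro ω i
    have := norm_le_pi_norm ((M ω)⁻¹ *ᵥ v ω) i
    rw [Real.norm_eq_abs] at this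
    exact this.trans (le_max_right _ _)
  have l3 : ∀ ω, ν ω ≠ 0 → lam ω ≤ C * 2 ^ D := by
    intro ω h0
    have h1 : (1 : ℝ) ≤ 2 ^ D := one_le_pow₀ (by norm_num)
    apply max_le
    · nlinarith
    · rw [pi_norm_le_iff_of_nonneg (by positivity)]
      intro i
      rw [Real.norm_eq_abs]
      exact hv ω h0 i
  have l4 : ∀ ω (x t : ℝ), 0 ≤ t → |x| ≤ t → (∀ i, |x * ((M ω)⁻¹ *ᵥ v ω) i| ≤ t) → lam ω * |x| ≤ t := by
    intro ω x t ht h1 h2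
    show max 1 ‖(M ω)⁻¹ *ᵥ v ω‖ * |x| ≤ t
    rcases le_total 1 ‖(M ω)⁻¹ *ᵥ v ω‖ with h3 | h3
    · rw [max_eq_right h3, mul_comm]
      have h4 : ‖x • ((M ω)⁻¹ *ᵥ v ω)‖ ≤ t := by
        rw [pi_norm_le_iff_of_nonneg ht]
        intro i
        rw [Pi.smul_apply, smul_eq_mul, Real.norm_eq_abs]
        exact h2 i
      rw [norm_smul, Real.norm_eq_abs] at h4
      exact h4
    · rw [max_eq_left h3, one_mul]
      exact h1
  have lK : ∀ ω ω', ν ω ≠ 0 → ν ω' ≠ 0 → K ω = K ω' → lam ω = lam ω' := by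
    intro ω ω' a a' e
    simp only [hlam]
    rw [hKM ω ω' a a' e, hKv ω ω' a a' e]
  set A : (Ω × (Fin r → Fin (2 ^ g))) × Fin (2 ^ R0) → (Fin r → ℤ) := fun p =>
    Xu (M p.1.1) g (z p.1.1) p.1.2 + ((p.2 : ℕ) : ℤ) • wv (M p.1.1) g R0 (v p.1.1) with hA
  set X : (Ω × (Fin r → Fin (2 ^ g))) × Fin (2 ^ R0) → (Fin r → ℤ) := fun p =>
    Xu (M p.1.1) g (z p.1.1) p.1.2 with hX
  -- positions in the frame
  have hpos : ∀ ω, ν ω ≠ 0 → ∀ i, |((M ω)⁻¹ *ᵥ z ω) i - ((M ω)⁻¹ *ᵥ z0 ω) i - τ ω * ((M ω)⁻¹ *ᵥ v ω) i| ≤ C := by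
    intro ω h0 i
    have h1 := hz ω h0 i
    rw [Matrix.mulVec_sub, Matrix.mulVec_sub, Matrix.mulVec_smul, Pi.sub_apply, Pi.sub_apply, Pi.smul_apply,
      smul_eq_mul] at h1
    exact h1
  have hXp : ∀ (ω : Ω) (u : Fin r → Fin (2 ^ g)) (i : Fin r),
      |(Xu (M ω) g (z ω) u i : ℝ) - 2 ^ g * ((M ω)⁻¹ *ᵥ z ω) i| ≤ 2 ^ g := by
    intro ω u i
    have h1 := Int.floor_le ((2 : ℝ) ^ g * ((M ω)⁻¹ *ᵥ z ω) i)
    have h2 := Int.lt_floor_add_one ((2 : ℝ) ^ g * ((M ω)⁻¹ *ᵥ z ω) i)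
    have h3 : ((u i : ℕ) : ℝ) ≤ 2 ^ g - 1 := by
      have h4 : (u i : ℕ) + 1 ≤ 2 ^ g := (u i).2
      have h5 : (((u i : ℕ) : ℝ)) + 1 ≤ 2 ^ g := by exact_mod_cast h4
      linarith
    have h6 : (0 : ℝ) ≤ ((u i : ℕ) : ℝ) := Nat.cast_nonneg _
    unfold Xu pf
    push_cast
    rw [abs_le]
    constructor <;> linarith
  have hAp : ∀ p, ∀ i, |(A p i : ℝ) - 2 ^ g * ((M p.1.1)⁻¹ *ᵥ z p.1.1) i -
      2 ^ g * (((p.2 : ℕ) : ℝ) / 2 ^ R0 * ((M p.1.1)⁻¹ *ᵥ v p.1.1) i)| ≤ 2 * 2 ^ g := by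
    intro p i
    have h1 := hXp p.1.1 p.1.2 i
    have h2 := Int.floor_le ((2 : ℝ) ^ g * ((M p.1.1)⁻¹ *ᵥ v p.1.1) i / 2 ^ R0)
    have h3 := Int.lt_floor_add_one ((2 : ℝ) ^ g * ((M p.1.1)⁻¹ *ᵥ v p.1.1) i / 2 ^ R0)
    have h4 : ((p.2 : ℕ) : ℝ) ≤ 2 ^ g := by
      have h5 : (p.2 : ℕ) ≤ 2 ^ R0 := p.2.2.le
      have h6 : (((p.2 : ℕ) : ℝ)) ≤ 2 ^ R0 := by exact_mod_cast h5
      linarith
    have h6 : (0 : ℝ) ≤ ((p.2 : ℕ) : ℝ) := Nat.cast_nonneg _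
    have h7 : (A p i : ℝ) = (Xu (M p.1.1) g (z p.1.1) p.1.2 i : ℝ) +
        ((p.2 : ℕ) : ℝ) * (⌊(2 : ℝ) ^ g * ((M p.1.1)⁻¹ *ᵥ v p.1.1) i / 2 ^ R0⌋ : ℝ) := by
      simp only [hA, Pi.add_apply, Pi.smul_apply, smul_eq_mul]
      unfold wv
      push_cast
      ring
    have h8 : |((p.2 : ℕ) : ℝ) * ((⌊(2 : ℝ) ^ g * ((M p.1.1)⁻¹ *ᵥ v p.1.1) i / 2 ^ R0⌋ : ℝ) -
        (2 : ℝ) ^ g * ((M p.1.1)⁻¹ *ᵥ v p.1.1) i / 2 ^ R0)| ≤ 2 ^ g := by
      rw [abs_mul, abs_of_nonneg h6]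
      have h9 : |(⌊(2 : ℝ) ^ g * ((M p.1.1)⁻¹ *ᵥ v p.1.1) i / 2 ^ R0⌋ : ℝ) -
        (2 : ℝ) ^ g * ((M p.1.1)⁻¹ *ᵥ v p.1.1) i / 2 ^ R0| ≤ 1 := by
        rw [abs_le]
        constructor <;> linarith
      calc ((p.2 : ℕ) : ℝ) * |(⌊(2 : ℝ) ^ g * ((M p.1.1)⁻¹ *ᵥ v p.1.1) i / 2 ^ R0⌋ : ℝ) -
        (2 : ℝ) ^ g * ((M p.1.1)⁻¹ *ᵥ v p.1.1) i / 2 ^ R0| ≤ 2 ^ g * 1 :=
            mul_le_mul h4 h9 (abs_nonneg _) hg0.le
        _ = 2 ^ g := mul_one _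
    have h10 : (A p i : ℝ) - 2 ^ g * ((M p.1.1)⁻¹ *ᵥ z p.1.1) i -
      2 ^ g * (((p.2 : ℕ) : ℝ) / 2 ^ R0 * ((M p.1.1)⁻¹ *ᵥ v p.1.1) i) =
        ((Xu (M p.1.1) g (z p.1.1) p.1.2 i : ℝ) - 2 ^ g * ((M p.1.1)⁻¹ *ᵥ z p.1.1) i) +
        ((p.2 : ℕ) : ℝ) * ((⌊(2 : ℝ) ^ g * ((M p.1.1)⁻¹ *ᵥ v p.1.1) i / 2 ^ R0⌋ : ℝ) -
        (2 : ℝ) ^ g * ((M p.1.1)⁻¹ *ᵥ v p.1.1) i / 2 ^ R0) := by
      rw [h7]
      ring
    rw [h10]
    have h11 := abs_add_le ((Xu (M p.1.1) g (z p.1.1) p.1.2 i : ℝ) - 2 ^ g * ((M p.1.1)⁻¹ *ᵥ z p.1.1) i)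
      (((p.2 : ℕ) : ℝ) * ((⌊(2 : ℝ) ^ g * ((M p.1.1)⁻¹ *ᵥ v p.1.1) i / 2 ^ R0⌋ : ℝ) -
        (2 : ℝ) ^ g * ((M p.1.1)⁻¹ *ᵥ v p.1.1) i / 2 ^ R0))
    linarith
  -- the upper bound
  set B : (Ω × (Fin r → Fin (2 ^ g))) × Fin (2 ^ R0) → ℤ := fun p =>
    ⌊lam p.1.1 * (τ p.1.1 + ((p.2 : ℕ) : ℝ) / 2 ^ R0)⌋ with hB
  have hs : ∀ p : (Ω × (Fin r → Fin (2 ^ g))) × Fin (2 ^ R0),
      0 ≤ ((p.2 : ℕ) : ℝ) / 2 ^ R0 ∧ ((p.2 : ℕ) : ℝ) / 2 ^ R0 ≤ 1 := by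
    intro p
    have h5 : (p.2 : ℕ) ≤ 2 ^ R0 := p.2.2.le
    have h6 : (((p.2 : ℕ) : ℝ)) ≤ 2 ^ R0 := by exact_mod_cast h5
    exact ⟨by positivity, by rw [div_le_one hR0]; exact h6⟩
  have u1 := ch_tri μ3 n3 A B (fun p => K p.1.1)
  have u2 := ch_intv μ3 n3 B (fun p => K p.1.1) (fun p => (2 * C + 1) * lam p.1.1 + 1)
    (fun p _ => by have := l1 p.1.1; nlinarith)
    (fun p p' a a' e => by rw [lK _ _ (hne p a) (hne p' a') e])
    (by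
      intro p p' a a' e
      have h1 := hτ _ (hne p a)
      have h2 := hτ _ (hne p' a')
      have h3 := hs p
      have h4 := hs p'
      have h5 : |lam p.1.1 * (τ p.1.1 + ((p.2 : ℕ) : ℝ) / 2 ^ R0) -
          lam p.1.1 * (τ p'.1.1 + ((p'.2 : ℕ) : ℝ) / 2 ^ R0)| ≤ (2 * C + 1) * lam p.1.1 := by
        rw [← mul_sub, abs_mul, abs_of_nonneg (zero_le_one.trans (l1 p.1.1)), mul_comm]
        apply mul_le_mul_of_nonneg_right _ (zero_le_one.trans (l1 p.1.1))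
        rw [abs_le] at h1 h2 ⊢
        constructor <;> linarith [h1.1, h1.2, h2.1, h2.2, h3.1, h3.2, h4.1, h4.2]
      have h6 := Int.floor_le (lam p.1.1 * (τ p.1.1 + ((p.2 : ℕ) : ℝ) / 2 ^ R0))
      have h7 := Int.lt_floor_add_one (lam p.1.1 * (τ p.1.1 + ((p.2 : ℕ) : ℝ) / 2 ^ R0))
      have h8 := Int.floor_le (lam p.1.1 * (τ p'.1.1 + ((p'.2 : ℕ) : ℝ) / 2 ^ R0))
      have h9 := Int.lt_floor_add_one (lam p.1.1 * (τ p'.1.1 + ((p'.2 : ℕ) : ℝ) / 2 ^ R0))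
      simp only [hB]
      rw [← lK _ _ (hne p a) (hne p' a') e]
      rw [abs_le] at h5 ⊢
      constructor <;> linarith [h5.1, h5.2])
  have u3 := (st_E3.2) _ _ r μ3 A (fun p => (B p, K p.1.1)) ((2 * C + 7) * 2 ^ g) n3 (by positivity) (by
    intro p p' a a' e i
    rw [Prod.mk.injEq] at e
    obtain ⟨e1, e2⟩ := e
    have q1 := hAp p i
    have q2 := hAp p' i
    have q3 := hpos _ (hne p a) i
    have q4 := hpos _ (hne p' a') i
    rw [← hKM _ _ (hne p a) (hne p' a') e2, ← hKv _ _ (hne p a) (hne p' a') e2] at q2 q4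
    rw [← hKz _ _ (hne p a) (hne p' a') e2] at q4
    simp only [hB] at e1
    rw [← lK _ _ (hne p a) (hne p' a') e2] at e1
    have q5 := Int.abs_sub_lt_one_of_floor_eq_floor e1
    have q6 : |((τ p.1.1 + ((p.2 : ℕ) : ℝ) / 2 ^ R0) - (τ p'.1.1 + ((p'.2 : ℕ) : ℝ) / 2 ^ R0)) *
        ((M p.1.1)⁻¹ *ᵥ v p.1.1) i| ≤ 1 := by
      rw [← mul_sub, abs_mul, abs_of_nonneg (zero_le_one.trans (l1 p.1.1))] at q5
      rw [abs_mul, mul_comm]
      refine le_trans ?_ q5.le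
      exact mul_le_mul_of_nonneg_right (l2 p.1.1 i) (abs_nonneg _)
    set w := ((M p.1.1)⁻¹ *ᵥ v p.1.1) i with hw
    set a1 := ((M p.1.1)⁻¹ *ᵥ z p.1.1) i with ha1
    set a2 := ((M p.1.1)⁻¹ *ᵥ z p'.1.1) i with ha2
    set a0 := ((M p.1.1)⁻¹ *ᵥ z0 p.1.1) i with ha0
    have q7 : |(A p i : ℝ) - A p' i| ≤ 4 * 2 ^ g + 2 ^ g * (2 * C + 1) := by
      have r1 : (A p i : ℝ) - A p' i = ((A p i : ℝ) - 2 ^ g * a1 - 2 ^ g * (((p.2 : ℕ) : ℝ) / 2 ^ R0 * w)) -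
          ((A p' i : ℝ) - 2 ^ g * a2 - 2 ^ g * (((p'.2 : ℕ) : ℝ) / 2 ^ R0 * w)) +
          2 ^ g * ((a1 - a0 - τ p.1.1 * w) - (a2 - a0 - τ p'.1.1 * w) +
            ((τ p.1.1 + ((p.2 : ℕ) : ℝ) / 2 ^ R0) - (τ p'.1.1 + ((p'.2 : ℕ) : ℝ) / 2 ^ R0)) * w) := by ring
      have r2 : |(a1 - a0 - τ p.1.1 * w) - (a2 - a0 - τ p'.1.1 * w) +
            ((τ p.1.1 + ((p.2 : ℕ) : ℝ) / 2 ^ R0) - (τ p'.1.1 + ((p'.2 : ℕ) : ℝ) / 2 ^ R0)) * w| ≤ 2 * C + 1 := by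
        rw [abs_le] at q3 q4 q6 ⊢
        constructor <;> linarith [q3.1, q3.2, q4.1, q4.2, q6.1, q6.2]
      have r3 : |2 ^ g * ((a1 - a0 - τ p.1.1 * w) - (a2 - a0 - τ p'.1.1 * w) +
            ((τ p.1.1 + ((p.2 : ℕ) : ℝ) / 2 ^ R0) - (τ p'.1.1 + ((p'.2 : ℕ) : ℝ) / 2 ^ R0)) * w)| ≤
          2 ^ g * (2 * C + 1) := by
        rw [abs_mul, abs_of_pos hg0]
        exact mul_le_mul_of_nonneg_left r2 hg0.le
      rw [r1]
      rw [abs_le] at q1 q2 r3 ⊢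
      constructor <;> linarith [q1.1, q1.2, q2.1, q2.2, r3.1, r3.2]
    nlinarith)
  -- the lower bound
  set T : Ω → ℤ := fun ω => ⌊lam ω * τ ω⌋ with hT
  have w1 := ch_chain μ3 (fun p => T p.1.1) X (fun p => K p.1.1)
  have w2 := ch_chain μ3 X (fun p => T p.1.1) (fun p => K p.1.1)
  have w3 : CH μ3 (fun p => (T p.1.1, X p)) (fun p => K p.1.1) =
      CH μ3 (fun p => (X p, T p.1.1)) (fun p => K p.1.1) := e4_swap μ3 _ _ _
  have w4 : CH μ3 (fun p => T p.1.1) (fun p => (X p, K p.1.1)) ≤ Real.logb 2 (2 * C + 4) * mass ν := by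
    have h1 := ch_int μ3 n3 (fun p => T p.1.1) (fun p => (X p, K p.1.1)) (2 * C + 3) (by linarith) (by
      intro p p' a a' e
      rw [Prod.mk.injEq] at e
      obtain ⟨e1, e2⟩ := e
      have k1 := hne p a
      have k2 := hne p' a'
      have k3 : lam p.1.1 * |τ p.1.1 - τ p'.1.1| ≤ 2 * C + 2 := by
        apply l4 _ _ _ (by linarith)
        · have h1 := hτ _ k1
          have h2 := hτ _ k2
          rw [abs_le] at h1 h2 ⊢
          constructor <;> linarith [h1.1, h1.2, h2.1, h2.2]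
        · intro i
          have q3 := hpos _ k1 i
          have q4 := hpos _ k2 i
          rw [← hKM _ _ k1 k2 e2, ← hKv _ _ k1 k2 e2, ← hKz _ _ k1 k2 e2] at q4
          have q1 := hXp p.1.1 p.1.2 i
          have q2 := hXp p'.1.1 p'.1.2 i
          rw [← hKM _ _ k1 k2 e2] at q2
          have q5 : (Xu (M p.1.1) g (z p.1.1) p.1.2 i : ℝ) = (Xu (M p'.1.1) g (z p'.1.1) p'.1.2 i : ℝ) := by
            have := congrFun e1 i
            simp only [hX] at this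
            rw [this]
          rw [← hKM _ _ k1 k2 e2] at q5
          set w := ((M p.1.1)⁻¹ *ᵥ v p.1.1) i with hw
          set a1 := ((M p.1.1)⁻¹ *ᵥ z p.1.1) i with ha1
          set a2 := ((M p.1.1)⁻¹ *ᵥ z p'.1.1) i with ha2
          have q6 : |a1 - a2| ≤ 2 := by
            have r1 : |2 ^ g * (a1 - a2)| ≤ 2 ^ g * 2 := by
              rw [abs_le] at q1 q2 ⊢
              constructor <;> linarith [q1.1, q1.2, q2.1, q2.2]
            rw [abs_mul, abs_of_pos hg0] at r1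
            exact le_of_mul_le_mul_left r1 hg0
          rw [abs_le] at q3 q4 q6 ⊢
          constructor <;> linarith [q3.1, q3.2, q4.1, q4.2, q6.1, q6.2]
      have h6 := Int.floor_le (lam p.1.1 * τ p.1.1)
      have h7 := Int.lt_floor_add_one (lam p.1.1 * τ p.1.1)
      have h8 := Int.floor_le (lam p.1.1 * τ p'.1.1)
      have h9 := Int.lt_floor_add_one (lam p.1.1 * τ p'.1.1)
      have h10 : |lam p.1.1 * τ p.1.1 - lam p.1.1 * τ p'.1.1| ≤ 2 * C + 2 := by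
        rw [← mul_sub, abs_mul, abs_of_nonneg (zero_le_one.trans (l1 p.1.1))]
        exact k3
      simp only [hT]
      rw [← lK _ _ k1 k2 e2]
      rw [abs_le] at h10 ⊢
      constructor <;> linarith [h10.1, h10.2])
    rw [m3] at h1
    have h2 : (2 * C + 3 : ℝ) + 1 = 2 * C + 4 := by ring
    rw [h2] at h1
    exact h1
  have w5 : r * g * mass ν ≤ CH μ3 X (fun p => (T p.1.1, K p.1.1)) := by
    have h1 : CH μ3 X (fun p => p.1.1) ≤ CH μ3 X (fun p => (T p.1.1, K p.1.1)) := by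
      apply ch_cond μ3 n3
      intro p p' _ _ e
      rw [e]
    have h2 : CH μ3 X (fun p => p.1.1) = CH μ3 (fun p => p.1.2) (fun p => p.1.1) := by
      apply ch_congr_left
      intro p p' _ _ e
      simp only [hX]
      rw [e]
      constructor
      · intro e1
        funext i
        have := congrFun e1 i
        unfold Xu at this
        have h3 : ((p.1.2 i : ℕ) : ℤ) = ((p'.1.2 i : ℕ) : ℤ) := by linarith
        exact Fin.ext (by exact_mod_cast h3)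
      · intro e1
        rw [e1]
    have h3 := un_fst (N := Fin (2 ^ R0)) μ2 n2 (fun p => p.2) (fun p => p.1)
    have h4 := un_snd (N := Fin r → Fin (2 ^ g)) ν hν (fun ω => ω)
    have h5 : Real.logb 2 (Fintype.card (Fin r → Fin (2 ^ g)) : ℝ) = r * g := by
      rw [Fintype.card_fun, Fintype.card_fin, Fintype.card_fin]
      push_cast
      rw [← pow_mul, Real.logb_pow, Real.logb_self_eq_one (by norm_num)]
      push_cast
      ring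
    rw [h5] at h4
    have h6 : CH μ3 (fun p => p.1.2) (fun p => p.1.1) = CH μ2 (fun p => p.2) (fun p => p.1) := h3
    have h7 : CH μ2 (fun p => p.2) (fun p => p.1) = r * g * mass ν := h4
    rw [← h7, ← h6, ← h2]
    exact h1
  have w6 : CH μ3 (fun p => T p.1.1) (fun p => K p.1.1) = CH ν T K := by
    have h3 := un_fst (N := Fin (2 ^ R0)) μ2 n2 (fun p => T p.1) (fun p => K p.1)
    have h4 := un_fst (N := Fin r → Fin (2 ^ g)) ν hν T K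
    exact h3.trans h4
  -- the digits of `τ`
  have t1 := ch_tri ν hν (fun ω => fl D (τ ω)) T K
  have t2 := ch_intv ν hν (fun ω => fl D (τ ω)) (fun ω => (T ω, K ω)) (fun ω => 2 ^ D / lam ω + 1)
    (fun ω _ => by have := l1 ω; positivity)
    (fun ω ω' a a' e => by rw [lK _ _ a a' (Prod.mk.inj e).2])
    (by
      intro ω ω' a a' e
      rw [Prod.mk.injEq] at e
      obtain ⟨e1, e2⟩ := e
      have k1 := l1 ω
      have k2 : 0 < lam ω := by linarith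
      simp only [hT] at e1
      rw [← lK _ _ a a' e2] at e1
      have q5 := Int.abs_sub_lt_one_of_floor_eq_floor e1
      apply fl_diff
      rw [← mul_sub, abs_mul, abs_of_pos k2] at q5
      have h4 : (2 : ℝ) ^ D * (1 / 2) ^ D = 1 := by rw [← mul_pow]; norm_num
      have h5 : |τ ω - τ ω'| ≤ 1 / lam ω := by
        rw [le_div_iff₀ k2, mul_comm]
        exact q5.le
      calc |τ ω - τ ω'| ≤ 1 / lam ω := h5
        _ = (2 ^ D * (1 / 2) ^ D) / lam ω := by rw [h4]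
        _ = 2 ^ D / lam ω * (1 / 2) ^ D := by ring)
  -- sums
  have s1 : ∑ p, μ3 p * Real.logb 2 (((2 * C + 1) * lam p.1.1 + 1) + 1) =
      ∑ ω, ν ω * Real.logb 2 (((2 * C + 1) * lam ω + 1) + 1) := by
    have h1 : ∀ f : Ω → ℝ, ∑ p, μ3 p * f p.1.1 = ∑ ω, ν ω * f ω := by
      intro f
      have c1 : (Fintype.card (Fin (2 ^ R0)) : ℝ) ≠ 0 := Nat.cast_ne_zero.mpr Fintype.card_ne_zero
      have c2 : (Fintype.card (Fin r → Fin (2 ^ g)) : ℝ) ≠ 0 := Nat.cast_ne_zero.mpr Fintype.card_ne_zero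
      rw [hμ3, hμ2]
      unfold un
      rw [Fintype.sum_prod_type, Fintype.sum_prod_type]
      apply Finset.sum_congr rfl
      intro ω _
      simp only [Finset.sum_const, Finset.card_univ, nsmul_eq_mul]
      field_simp
    exact h1 (fun ω => Real.logb 2 (((2 * C + 1) * lam ω + 1) + 1))
  rw [s1] at u2
  have s2 : ∑ ω, ν ω * Real.logb 2 (((2 * C + 1) * lam ω + 1) + 1) +
      ∑ ω, ν ω * Real.logb 2 ((2 ^ D / lam ω + 1) + 1) ≤
      (D + Real.logb 2 ((2 * C + 3) * (2 * C + 1))) * mass ν := by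
    rw [← Finset.sum_add_distrib]
    unfold mass
    rw [Finset.mul_sum]
    apply Finset.sum_le_sum
    intro ω _
    by_cases h0 : ν ω = 0
    · rw [h0]
      simp
    · rw [← mul_add, mul_comm (D + Real.logb 2 ((2 * C + 3) * (2 * C + 1)))]
      apply mul_le_mul_of_nonneg_left _ (hν ω)
      have k1 := l1 ω
      have k2 : 0 < lam ω := by linarith
      have k3 := l3 ω h0
      have e1 : (2 * C + 1) * lam ω + 1 + 1 ≤ (2 * C + 3) * lam ω := by nlinarith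
      have e2 : (2 : ℝ) ^ D / lam ω + 1 + 1 ≤ (2 * C + 1) * (2 ^ D / lam ω) := by
        have e3 : 1 ≤ C * (2 ^ D / lam ω) := by
          rw [← mul_div_assoc, le_div_iff₀ k2, one_mul]
          exact k3
        linarith
      have e4 : Real.logb 2 ((2 * C + 1) * lam ω + 1 + 1) + Real.logb 2 ((2 : ℝ) ^ D / lam ω + 1 + 1) ≤
          Real.logb 2 ((2 * C + 3) * lam ω) + Real.logb 2 ((2 * C + 1) * (2 ^ D / lam ω)) := by
        have f1 : 0 < (2 : ℝ) ^ D / lam ω := by positivity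
        apply add_le_add
        · exact Real.logb_le_logb_of_le (by norm_num) (by nlinarith) e1
        · exact Real.logb_le_logb_of_le (by norm_num) (by linarith) e2
      refine e4.trans (le_of_eq ?_)
      rw [← Real.logb_mul (by positivity) (by positivity)]
      have e5 : (2 * C + 3) * lam ω * ((2 * C + 1) * (2 ^ D / lam ω)) = 2 ^ D * ((2 * C + 3) * (2 * C + 1)) := by
        field_simp
      rw [e5, Real.logb_mul (by positivity) (by positivity), Real.logb_pow,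
        Real.logb_self_eq_one (by norm_num), mul_one]
  have s3 : (r : ℝ) * Real.logb 2 ((2 * C + 7) * 2 ^ g + 1) ≤ r * (g + Real.logb 2 (2 * C + 8)) := by
    apply mul_le_mul_of_nonneg_left _ (Nat.cast_nonneg r)
    have c1 : (2 * C + 7) * 2 ^ g + 1 ≤ 2 ^ g * (2 * C + 8) := by
      have : (1 : ℝ) ≤ 2 ^ g := one_le_pow₀ (by norm_num)
      linarith
    have c2 := Real.logb_le_logb_of_le (b := 2) (by norm_num) (by positivity) c1
    rw [Real.logb_mul (by positivity) (by positivity), Real.logb_pow, Real.logb_self_eq_one (by norm_num),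
      mul_one] at c2
    exact c2
  have s4 := mul_le_mul_of_nonneg_right s3 hmass
  rw [m3] at u3
  have hN : NsV ν z K M g R0 v = CH μ3 A (fun p => K p.1.1) - CH μ3 X (fun p => K p.1.1) := rfl
  rw [hN]
  unfold cC
  linarith

end Pool.Agent.Helper15.VG
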