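import Pool.Agent.Helper15.VG.Close

/-!
# Vector W (ns_notes_6d, (4.1)): closing of the path of one noise, with a good event
-/

set_option autoImplicit false

namespace Pool.Agent.Helper15.VG

open Finset Matrix Pool.Agent.Helper69.RK Pool.Agent.Helper15.VW Pool.Agent.Helper26.VW
open Pool.Agent.Helper61.GL hiding fl
open Pool.Agent.Helper92.W (fl)

variable {Ω Ω' α β γ δ ξ κ ζ : Type} [Fintype Ω] [Fintype Ω']

/-- splitting the increment along an event -/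
theorem NsV_split {r : ℕ} (μ : Ω → ℝ) (hμ : ∀ ω, 0 ≤ μ ω) (z : Ω → Fin r → ℝ) (K : Ω → κ)
    (M : Ω → Mt r) (g R0 : ℕ) (v : Ω → Fin r → ℝ) (E : Ω → Prop) :
    NsV μ z K M g R0 v ≤ NsV (res μ E) z K M g R0 v + NsV (res μ (fun ω => ¬ E ω)) z K M g R0 v + mass μ := by
  have : Nonempty (Fin (2 ^ g)) := ⟨⟨0, by positivity⟩⟩
  have : Nonempty (Fin (2 ^ R0)) := ⟨⟨0, by positivity⟩⟩
  set μ2 := un (Fin r → Fin (2 ^ g)) μ with hμ2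
  set μ3 := un (Fin (2 ^ R0)) μ2 with hμ3
  have n2 : ∀ p, 0 ≤ μ2 p := un_nonneg μ hμ
  have n3 : ∀ p, 0 ≤ μ3 p := un_nonneg μ2 n2
  have m3 : mass μ3 = mass μ := (un_mass μ2).trans (un_mass μ)
  have e1 : un (Fin (2 ^ R0)) (un (Fin r → Fin (2 ^ g)) (res μ E)) = res μ3 (fun p => E p.1.1) := by
    rw [un_res, un_res]
  have e2 : un (Fin (2 ^ R0)) (un (Fin r → Fin (2 ^ g)) (res μ (fun ω => ¬ E ω))) =
      res μ3 (fun p => ¬ E p.1.1) := by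
    rw [un_res, un_res]
  have h1 := ((st_E4 st_E1 st_E3).2.1 _ _ _ μ3 (fun p =>
    Xu (M p.1.1) g (z p.1.1) p.1.2 + ((p.2 : ℕ) : ℤ) • wv (M p.1.1) g R0 (v p.1.1)) (fun p => K p.1.1)
    (fun p => E p.1.1) n3).2
  have h2 := ((st_E4 st_E1 st_E3).2.1 _ _ _ μ3 (fun p => Xu (M p.1.1) g (z p.1.1) p.1.2)
    (fun p => K p.1.1) (fun p => E p.1.1) n3).1
  rw [m3] at h1
  unfold NsV
  rw [e1, e2]
  linarith

/-- **CLOSE** (ns_notes_6d (4.1)): `z` is known given `K` up to the noise `τ v` and an error in the frame, on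
the event `E`; the next `D` digits of `τ` are nearly uniform given `K` -/
theorem close_V {r : ℕ} (μ : Ω → ℝ) (hμ : ∀ ω, 0 ≤ μ ω) (hm : mass μ = 1) (z : Ω → Fin r → ℝ) (K : Ω → κ)
    (M : Ω → Mt r) (g R0 D : ℕ) (v z0 : Ω → Fin r → ℝ) (τ : Ω → ℝ) (E : Ω → Prop) (C : ℝ) (hC : 1 ≤ C)
    (hg : R0 ≤ g) (hD : D ≤ R0)
    (hKM : ∀ ω ω', μ ω ≠ 0 → μ ω' ≠ 0 → K ω = K ω' → M ω = M ω')
    (hKv : ∀ ω ω', μ ω ≠ 0 → μ ω' ≠ 0 → K ω = K ω' → v ω = v ω')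
    (hKz : ∀ ω ω', μ ω ≠ 0 → μ ω' ≠ 0 → K ω = K ω' → z0 ω = z0 ω')
    (hM : ∀ ω, μ ω ≠ 0 → (M ω).det ≠ 0)
    (hz : ∀ ω, μ ω ≠ 0 → E ω → ∀ i, |((M ω)⁻¹ *ᵥ (z ω - z0 ω - τ ω • v ω)) i| ≤ C)
    (hτ : ∀ ω, μ ω ≠ 0 → |τ ω| ≤ C)
    (hv : ∀ ω, μ ω ≠ 0 → ∀ i, |((M ω)⁻¹ *ᵥ v ω) i| ≤ C * 2 ^ D) :
    NsV μ z K M g R0 v ≤ (D - CH μ (fun ω => fl D (τ ω)) K) + (cC r C + 2) +
      mass (res μ (fun ω => ¬ E ω)) * (D + (cT r C + Real.logb 2 (2 * C + 2))) := by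
  have hr : ∀ ω, 0 ≤ res μ E ω := e4_res_nonneg μ _ hμ
  have hr' : ∀ ω, 0 ≤ res μ (fun ω => ¬ E ω) ω := e4_res_nonneg μ _ hμ
  have hres : ∀ (F : Ω → Prop) ω, res μ F ω ≠ 0 → F ω ∧ μ ω ≠ 0 := by
    intro F ω h
    unfold res at h
    split_ifs at h with h3
    · exact ⟨h3, h⟩
    · exact absurd rfl h
  have h1 := NsV_split μ hμ z K M g R0 v E
  have h2 := close_good (res μ E) hr z K M g R0 D v z0 τ C hC hg
    (fun ω ω' a a' e => hKM ω ω' (hres _ _ a).2 (hres _ _ a').2 e)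
    (fun ω ω' a a' e => hKv ω ω' (hres _ _ a).2 (hres _ _ a').2 e)
    (fun ω ω' a a' e => hKz ω ω' (hres _ _ a).2 (hres _ _ a').2 e)
    (fun ω a => hz ω (hres _ _ a).2 (hres _ _ a).1) (fun ω a => hτ ω (hres _ _ a).2)
    (fun ω a => hv ω (hres _ _ a).2)
  have h3 := NsV_triv (res μ (fun ω => ¬ E ω)) hr' z K M g R0 D v
    (fun ω ω' a a' e => hKM ω ω' (hres _ _ a).2 (hres _ _ a').2 e)
    (fun ω ω' a a' e => hKv ω ω' (hres _ _ a).2 (hres _ _ a').2 e)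
    (fun ω a => hM ω (hres _ _ a).2) hg hD C (by linarith) (fun ω a => hv ω (hres _ _ a).2)
  have h4 := ((st_E4 st_E1 st_E3).2.1 _ _ _ μ (fun ω => fl D (τ ω)) K E hμ).2
  have h5 := ch_int (res μ (fun ω => ¬ E ω)) hr' (fun ω => fl D (τ ω)) K (2 * C * 2 ^ D + 1)
    (by positivity) (by
      intro ω ω' a a' _
      apply fl_diff
      have k1 := hτ ω (hres _ _ a).2
      have k2 := hτ ω' (hres _ _ a').2
      have h6 : (2 : ℝ) ^ D * (1 / 2) ^ D = 1 := by rw [← mul_pow]; norm_num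
      have h7 : 2 * C * 2 ^ D * (1 / 2) ^ D = 2 * C := by rw [mul_assoc, h6, mul_one]
      rw [h7]
      rw [abs_le] at k1 k2 ⊢
      constructor <;> linarith [k1.1, k1.2, k2.1, k2.2])
  have h6 : Real.logb 2 (2 * C * 2 ^ D + 1 + 1) ≤ D + Real.logb 2 (2 * C + 2) := by
    have c1 : 2 * C * 2 ^ D + 1 + 1 ≤ 2 ^ D * (2 * C + 2) := by
      have : (1 : ℝ) ≤ 2 ^ D := one_le_pow₀ (by norm_num)
      linarith
    have c2 := Real.logb_le_logb_of_le (b := 2) (by norm_num) (by positivity) c1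
    rw [Real.logb_mul (by positivity) (by positivity), Real.logb_pow, Real.logb_self_eq_one (by norm_num),
      mul_one] at c2
    exact c2
  obtain ⟨m1, m2, -⟩ := (st_E4 st_E1 st_E3).2.2 Ω μ E hμ
  have m3 := ((st_E4 st_E1 st_E3).2.2 Ω μ (fun ω => ¬ E ω) hμ).2.1
  rw [hm] at h1 h4 m1
  set e := mass (res μ (fun ω => ¬ E ω)) with he
  set m := mass (res μ E) with hm'
  have h7 : Real.logb 2 (2 * C * 2 ^ D + 1 + 1) * e ≤ (D + Real.logb 2 (2 * C + 2)) * e :=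
    mul_le_mul_of_nonneg_right h6 m3
  have h8 : 0 ≤ cC r C := by
    unfold cC
    have a1 : 0 ≤ Real.logb 2 ((2 * C + 3) * (2 * C + 1)) := Real.logb_nonneg (by norm_num) (by nlinarith)
    have a2 : 0 ≤ Real.logb 2 (2 * C + 8) := Real.logb_nonneg (by norm_num) (by linarith)
    have a3 : 0 ≤ Real.logb 2 (2 * C + 4) := Real.logb_nonneg (by norm_num) (by linarith)
    positivity
  have h9 : cC r C * m ≤ cC r C := by nlinarith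
  have h10 : (D : ℝ) * m + D * e = D := by
    rw [← mul_add, ← m1, mul_one]
  nlinarith

/-- the closing step for a law which is the image of the law of a path; `Y` is coarser than `K` -/
theorem close_push {r : ℕ} (μ : Ω → ℝ) (μ' : Ω' → ℝ) (π : Ω' → Ω) (hμ' : ∀ ω, 0 ≤ μ' ω)
    (hm : mass μ' = 1) (hπ : push π μ' = μ) (z : Ω → Fin r → ℝ) (Y : Ω → δ) (K : Ω' → κ)
    (M : Ω → Mt r) (g R0 D : ℕ) (v : Ω → Fin r → ℝ) (z0 : Ω' → Fin r → ℝ) (τ : Ω' → ℝ) (E : Ω' → Prop)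
    (C : ℝ) (hC : 1 ≤ C) (hg : R0 ≤ g) (hD : D ≤ R0)
    (hYM : ∀ ω ω', μ' ω ≠ 0 → μ' ω' ≠ 0 → Y (π ω) = Y (π ω') → M (π ω) = M (π ω'))
    (hYv : ∀ ω ω', μ' ω ≠ 0 → μ' ω' ≠ 0 → Y (π ω) = Y (π ω') → v (π ω) = v (π ω'))
    (hKY : ∀ ω ω', μ' ω ≠ 0 → μ' ω' ≠ 0 → K ω = K ω' → Y (π ω) = Y (π ω'))
    (hKz : ∀ ω ω', μ' ω ≠ 0 → μ' ω' ≠ 0 → K ω = K ω' → z0 ω = z0 ω')
    (hM : ∀ ω, μ' ω ≠ 0 → (M (π ω)).det ≠ 0)
    (hz : ∀ ω, μ' ω ≠ 0 → E ω → ∀ i, |((M (π ω))⁻¹ *ᵥ (z (π ω) - z0 ω - τ ω • v (π ω))) i| ≤ C)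
    (hτ : ∀ ω, μ' ω ≠ 0 → |τ ω| ≤ C)
    (hv : ∀ ω, μ' ω ≠ 0 → ∀ i, |((M (π ω))⁻¹ *ᵥ v (π ω)) i| ≤ C * 2 ^ D) :
    NsV μ z Y M g R0 v ≤ (D - CH μ' (fun ω => fl D (τ ω)) K) + (cC r C + 2) +
      mass (res μ' (fun ω => ¬ E ω)) * (D + (cT r C + Real.logb 2 (2 * C + 2))) := by
  rw [← hπ, NsV_push μ' hμ' π z Y M g R0 v]
  refine (NsV_cond μ' hμ' (fun ω => z (π ω)) (fun ω => Y (π ω)) K (fun ω => M (π ω)) g R0
    (fun ω => v (π ω)) hKY hYM hYv).trans ?_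
  exact close_V μ' hμ' hm (fun ω => z (π ω)) K (fun ω => M (π ω)) g R0 D (fun ω => v (π ω)) z0 τ E C hC hg hD
    (fun ω ω' a a' e => hYM ω ω' a a' (hKY ω ω' a a' e)) (fun ω ω' a a' e => hYv ω ω' a a' (hKY ω ω' a a' e))
    hKz hM hz hτ hv

end Pool.Agent.Helper15.VG
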