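import Pool.Agent.Helper15.VG.Sup
import Pool.Agent.Helper92.W.St

/-!
# Vector W in fibres (ns_notes_18d, (5.2), (5.3)): digits of the start of the path
-/

set_option autoImplicit false

namespace Pool.Agent.Helper15.VG

open Finset Pool.Agent.Helper69.RK Pool.Agent.Helper61.GL Pool.Agent.Helper15.VW
open Pool.Agent.Helper92.W (fl)

/-! ### digits -/

theorem fl_div (l k : ℕ) (x : ℝ) : fl l x = fl (l + k) x / ((2 ^ k : ℕ) : ℤ) := by
  unfold fl
  rw [← Int.floor_div_natCast]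
  congr 1
  push_cast
  rw [pow_add]
  field_simp

theorem fl_coarse {l l' : ℕ} (h : l ≤ l') {x x' : ℝ} (e : fl l' x = fl l' x') : fl l x = fl l x' := by
  obtain ⟨k, rfl⟩ := Nat.exists_eq_add_of_le h
  rw [fl_div l k x, fl_div l k x', e]

theorem fl_near {l : ℕ} {x x' : ℝ} (e : fl l x = fl l x') : |x - x'| ≤ (1 / 2) ^ l := by
  have h : |(2 : ℝ) ^ l * x - 2 ^ l * x'| < 1 := Int.abs_sub_lt_one_of_floor_eq_floor e
  rw [← mul_sub, abs_mul, abs_of_pos (by positivity)] at h
  have h2 : ((1 : ℝ) / 2) ^ l * 2 ^ l = 1 := by rw [← mul_pow]; norm_num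
  have h3 : (0 : ℝ) < (1 / 2) ^ l := by positivity
  calc |x - x'| = (1 / 2) ^ l * (2 ^ l * |x - x'|) := by rw [← mul_assoc, h2, one_mul]
    _ ≤ (1 / 2) ^ l * 1 := mul_le_mul_of_nonneg_left h.le h3.le
    _ = (1 / 2) ^ l := mul_one _

theorem fl_diff {l : ℕ} {x x' t : ℝ} (h : |x - x'| ≤ t * (1 / 2) ^ l) :
    |(fl l x : ℝ) - fl l x'| ≤ t + 1 := by
  have h1 : |(2 : ℝ) ^ l * x - 2 ^ l * x'| ≤ t := by
    rw [← mul_sub, abs_mul, abs_of_pos (by positivity)]
    have h2 : (2 : ℝ) ^ l * (1 / 2) ^ l = 1 := by rw [← mul_pow]; norm_num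
    calc (2 : ℝ) ^ l * |x - x'| ≤ 2 ^ l * (t * (1 / 2) ^ l) := mul_le_mul_of_nonneg_left h (by positivity)
      _ = t := by rw [mul_left_comm, h2, mul_one]
  have h2 := Int.floor_le ((2 : ℝ) ^ l * x)
  have h3 := Int.lt_floor_add_one ((2 : ℝ) ^ l * x)
  have h4 := Int.floor_le ((2 : ℝ) ^ l * x')
  have h5 := Int.lt_floor_add_one ((2 : ℝ) ^ l * x')
  rw [abs_le] at h1 ⊢
  unfold fl
  constructor <;> linarith [h1.1, h1.2]

variable {Ω γ κ : Type} [Fintype Ω]

/-- vectors of digits on a subset of the coordinates -/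
theorem ch_box {b : ℕ} (μ : Ω → ℝ) (hμ : ∀ ω, 0 ≤ μ ω) (J : Finset (Fin b)) (v : Ω → Fin b → ℤ) (K : Ω → κ)
    (t : ℝ) (ht : 0 ≤ t)
    (h : ∀ ω ω', μ ω ≠ 0 → μ ω' ≠ 0 → K ω = K ω' → ∀ i ∈ J, |(v ω i : ℝ) - v ω' i| ≤ t) :
    CH μ (fun ω => fun i : {i // i ∈ J} => v ω i) K ≤ b * Real.logb 2 (t + 1) * mass μ := by
  classical
  have h1 := (st_E3.2) Ω κ b μ (fun ω => fun i => if i ∈ J then v ω i else 0) K t hμ ht (by
    intro ω ω' a a' e i
    by_cases hi : i ∈ J
    · simp only [if_pos hi]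
      exact h ω ω' a a' e i hi
    · simp only [if_neg hi, sub_self, abs_zero]
      exact ht)
  refine le_trans (le_of_eq ?_) h1
  apply ch_congr_left
  intro ω ω' _ _ _
  constructor
  · intro e
    funext i
    by_cases hi : i ∈ J
    · simp only [if_pos hi]
      exact congrFun e ⟨i, hi⟩
    · simp only [if_neg hi]
  · intro e
    funext i
    have := congrFun e i.1
    simp only [if_pos i.2] at this
    exact this

/-- **(5.2), (5.3)**: the information of the windows of the noises is information on the digits of `u` -/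
theorem dig_sum {b : ℕ} (μ : Ω → ℝ) (hμ : ∀ ω, 0 ≤ μ ω) (hm : mass μ = 1) (G : Ω → γ) (u : Ω → Fin b → ℝ)
    (J : Finset (Fin b)) (τ θ : Fin b → Ω → ℝ) (N0 R L s : ℕ) (K : ℕ → Ω → κ) (c : ℕ → Ω → Fin b → ℝ)
    (C : ℝ) (hC : 0 ≤ C)
    (hKG : ∀ t ω ω', μ ω ≠ 0 → μ ω' ≠ 0 → K t ω = K t ω' → G ω = G ω')
    (hKτ : ∀ t, ∀ i ∈ J, ∀ ω ω', μ ω ≠ 0 → μ ω' ≠ 0 → K t ω = K t ω' →
      fl (N0 + t * R) (τ i ω) = fl (N0 + t * R) (τ i ω'))
    (hKθ : ∀ i ∈ J, ∀ ω ω', μ ω ≠ 0 → μ ω' ≠ 0 → G ω = G ω' → θ i ω = θ i ω')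
    (hKc : ∀ t i ω ω', μ ω ≠ 0 → μ ω' ≠ 0 → K t ω = K t ω' → c t ω i = c t ω' i)
    (hθ : ∀ i ∈ J, ∀ ω, μ ω ≠ 0 → ((1 : ℝ) / 2) ^ s ≤ |θ i ω| ∧ |θ i ω| ≤ 1)
    (h1 : ∀ t < L, ∀ i ∈ J, ∀ ω, μ ω ≠ 0 →
      |u ω i - c t ω i - θ i ω * τ i ω| ≤ C * (1 / 2) ^ (N0 + (t + 1) * R))
    (h2 : ∀ t < L, ∀ i, i ∉ J → ∀ ω, μ ω ≠ 0 → |u ω i - c t ω i| ≤ C * (1 / 2) ^ N0) :
    ∑ t ∈ range L, CH μ (fun ω => fun i : {i // i ∈ J} => fl (N0 + (t + 1) * R) (τ i ω)) (K t) ≤
      CH μ (fun ω => fun i : {i // i ∈ J} => fl (N0 + L * R) (u ω i))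
        (fun ω => ((fun i => fl N0 (u ω i)), G ω)) +
      L * (b * Real.logb 2 (2 * C + 3) + b * Real.logb 2 (2 ^ s * (2 * C + 1) + 2)) := by
  classical
  set XJ : ℕ → Ω → ({i // i ∈ J} → ℤ) := fun t ω => fun i => fl (N0 + t * R) (u ω i) with hXJ
  set X0 : Ω → Fin b → ℤ := fun ω i => fl N0 (u ω i) with hX0
  have hlev : ∀ t : ℕ, N0 + t * R ≤ N0 + (t + 1) * R := by
    intro t
    have : t * R ≤ (t + 1) * R := Nat.mul_le_mul_right R (Nat.le_succ t)
    omega
  have hp : ∀ t : ℕ, ((1 : ℝ) / 2) ^ (N0 + (t + 1) * R) ≤ (1 / 2) ^ (N0 + t * R) := fun t =>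
    pow_le_pow_of_le_one (by norm_num) (by norm_num) (hlev t)
  -- one level
  have key : ∀ t ∈ range L, CH μ (fun ω => fun i : {i // i ∈ J} => fl (N0 + (t + 1) * R) (τ i ω)) (K t) ≤
      CH μ (XJ (t + 1)) (fun ω => (XJ t ω, (X0 ω, G ω))) +
      (b * Real.logb 2 (2 * C + 3) + b * Real.logb 2 (2 ^ s * (2 * C + 1) + 2)) := by
    intro t ht
    rw [Finset.mem_range] at ht
    -- the digits of `u` at level `t + 1` determine the digits of the noises
    have a1 := ch_tri μ hμ (fun ω => fun i : {i // i ∈ J} => fl (N0 + (t + 1) * R) (τ i ω)) (XJ (t + 1)) (K t)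
    have a2 : CH μ (fun ω => fun i : {i // i ∈ J} => fl (N0 + (t + 1) * R) (τ i ω))
        (fun ω => (XJ (t + 1) ω, K t ω)) ≤ b * Real.logb 2 ((2 ^ s * (2 * C + 1) + 1) + 1) * mass μ := by
      apply ch_box μ hμ J (fun ω i => fl (N0 + (t + 1) * R) (τ i ω)) _ _ (by positivity)
      intro ω ω' z z' e i hi
      rw [Prod.mk.injEq] at e
      have e1 : fl (N0 + (t + 1) * R) (u ω i) = fl (N0 + (t + 1) * R) (u ω' i) := congrFun e.1 ⟨i, hi⟩
      have e2 := fl_near e1
      have e3 := h1 t ht i hi ω z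
      have e4 := h1 t ht i hi ω' z'
      have e5 := hKc t i ω ω' z z' e.2
      have e6 := hKθ i hi ω ω' z z' (hKG t ω ω' z z' e.2)
      apply fl_diff
      rw [← e5, ← e6] at e4
      have e7 : |θ i ω * (τ i ω - τ i ω')| ≤ (2 * C + 1) * (1 / 2) ^ (N0 + (t + 1) * R) := by
        have e8 : θ i ω * (τ i ω - τ i ω') = (u ω i - u ω' i) - (u ω i - c t ω i - θ i ω * τ i ω) +
            (u ω' i - c t ω i - θ i ω * τ i ω') := by ring
        rw [e8]
        calc |(u ω i - u ω' i) - (u ω i - c t ω i - θ i ω * τ i ω) + (u ω' i - c t ω i - θ i ω * τ i ω')|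
            ≤ |(u ω i - u ω' i) - (u ω i - c t ω i - θ i ω * τ i ω)| +
              |u ω' i - c t ω i - θ i ω * τ i ω'| := abs_add_le _ _
          _ ≤ |u ω i - u ω' i| + |u ω i - c t ω i - θ i ω * τ i ω| +
              |u ω' i - c t ω i - θ i ω * τ i ω'| := by
              have := abs_sub (u ω i - u ω' i) (u ω i - c t ω i - θ i ω * τ i ω)
              linarith
          _ ≤ (2 * C + 1) * (1 / 2) ^ (N0 + (t + 1) * R) := by linarith
      rw [abs_mul] at e7
      have e9 := (hθ i hi ω z).1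
      have e10 : (2 : ℝ) ^ s * (1 / 2) ^ s = 1 := by rw [← mul_pow]; norm_num
      calc |τ i ω - τ i ω'| = 2 ^ s * ((1 / 2) ^ s * |τ i ω - τ i ω'|) := by rw [← mul_assoc, e10, one_mul]
        _ ≤ 2 ^ s * (|θ i ω| * |τ i ω - τ i ω'|) := by
            apply mul_le_mul_of_nonneg_left _ (by positivity)
            exact mul_le_mul_of_nonneg_right e9 (abs_nonneg _)
        _ ≤ 2 ^ s * ((2 * C + 1) * (1 / 2) ^ (N0 + (t + 1) * R)) :=
            mul_le_mul_of_nonneg_left e7 (by positivity)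
        _ = 2 ^ s * (2 * C + 1) * (1 / 2) ^ (N0 + (t + 1) * R) := by ring
    -- the old digits are known
    have b1 := ch_chain μ (fun ω => (XJ t ω, X0 ω)) (XJ (t + 1)) (K t)
    have b2 : CH μ (XJ (t + 1)) (K t) ≤ CH μ (fun ω => ((XJ t ω, X0 ω), XJ (t + 1) ω)) (K t) := by
      apply ch_mono μ hμ
      intro ω ω' _ _ e _
      rw [Prod.mk.injEq] at e
      exact e.2
    have b3 : CH μ (XJ (t + 1)) (fun ω => ((XJ t ω, X0 ω), K t ω)) ≤
        CH μ (XJ (t + 1)) (fun ω => (XJ t ω, (X0 ω, G ω))) := by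
      apply ch_cond μ hμ
      intro ω ω' z z' e
      simp only [Prod.mk.injEq] at e ⊢
      exact ⟨e.1.1, e.1.2, hKG t ω ω' z z' e.2⟩
    have b4 : CH μ (fun ω => (XJ t ω, X0 ω)) (K t) ≤ b * Real.logb 2 ((2 * C + 2) + 1) * mass μ := by
      have b5 := ch_box μ hμ univ (fun ω i => if i ∈ J then fl (N0 + t * R) (u ω i) else fl N0 (u ω i)) (K t)
        (2 * C + 2) (by positivity) (by
          intro ω ω' z z' e i _
          by_cases hi : i ∈ J
          · simp only [if_pos hi]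
            have e2 := fl_near (hKτ t i hi ω ω' z z' e)
            have e3 := h1 t ht i hi ω z
            have e4 := h1 t ht i hi ω' z'
            have e5 := hKc t i ω ω' z z' e
            have e6 := hKθ i hi ω ω' z z' (hKG t ω ω' z z' e)
            have e9 := (hθ i hi ω z).2
            rw [← e5, ← e6] at e4
            have e10 : (2 * C + 2 : ℝ) = (2 * C + 1) + 1 := by ring
            rw [e10]
            apply fl_diff
            have e8 : u ω i - u ω' i = (u ω i - c t ω i - θ i ω * τ i ω) -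
              (u ω' i - c t ω i - θ i ω * τ i ω') + θ i ω * (τ i ω - τ i ω') := by ring
            have e11 : |θ i ω * (τ i ω - τ i ω')| ≤ (1 / 2) ^ (N0 + t * R) := by
              rw [abs_mul]
              calc |θ i ω| * |τ i ω - τ i ω'| ≤ 1 * (1 / 2) ^ (N0 + t * R) :=
                    mul_le_mul e9 e2 (abs_nonneg _) zero_le_one
                _ = _ := one_mul _
            have e12 : C * (1 / 2) ^ (N0 + (t + 1) * R) ≤ C * (1 / 2) ^ (N0 + t * R) :=
              mul_le_mul_of_nonneg_left (hp t) hC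
            rw [e8]
            calc |(u ω i - c t ω i - θ i ω * τ i ω) - (u ω' i - c t ω i - θ i ω * τ i ω') +
                  θ i ω * (τ i ω - τ i ω')|
                ≤ |(u ω i - c t ω i - θ i ω * τ i ω) - (u ω' i - c t ω i - θ i ω * τ i ω')| +
                  |θ i ω * (τ i ω - τ i ω')| := abs_add_le _ _
              _ ≤ |u ω i - c t ω i - θ i ω * τ i ω| + |u ω' i - c t ω i - θ i ω * τ i ω'| +
                  |θ i ω * (τ i ω - τ i ω')| := by
                  have := abs_sub (u ω i - c t ω i - θ i ω * τ i ω) (u ω' i - c t ω i - θ i ω * τ i ω')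
                  linarith
              _ ≤ (2 * C + 1) * (1 / 2) ^ (N0 + t * R) := by linarith
          · simp only [if_neg hi]
            have e3 := h2 t ht i hi ω z
            have e4 := h2 t ht i hi ω' z'
            have e5 := hKc t i ω ω' z z' e
            rw [← e5] at e4
            have e10 : (2 * C + 2 : ℝ) = (2 * C + 1) + 1 := by ring
            rw [e10]
            apply fl_diff
            have e8 : u ω i - u ω' i = (u ω i - c t ω i) - (u ω' i - c t ω i) := by ring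
            have e9 := abs_sub (u ω i - c t ω i) (u ω' i - c t ω i)
            have e11 : (0 : ℝ) ≤ (1 / 2) ^ N0 := by positivity
            rw [e8]
            linarith)
      refine le_trans ?_ b5
      apply ch_mono μ hμ
      intro ω ω' _ _ e _
      have e1 : ∀ i, (if i ∈ J then fl (N0 + t * R) (u ω i) else fl N0 (u ω i)) =
          (if i ∈ J then fl (N0 + t * R) (u ω' i) else fl N0 (u ω' i)) := fun i => congrFun e ⟨i, mem_univ i⟩
      rw [Prod.mk.injEq]
      constructor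
      · funext i
        have := e1 i.1
        rw [if_pos i.2, if_pos i.2] at this
        exact this
      · funext i
        have := e1 i
        by_cases hi : i ∈ J
        · rw [if_pos hi, if_pos hi] at this
          exact fl_coarse (Nat.le_add_right N0 (t * R)) this
        · rw [if_neg hi, if_neg hi] at this
          exact this
    rw [hm, mul_one] at a2 b4
    have c1 : (2 ^ s * (2 * C + 1) + 1 : ℝ) + 1 = 2 ^ s * (2 * C + 1) + 2 := by ring
    have c2 : (2 * C + 2 : ℝ) + 1 = 2 * C + 3 := by ring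
    rw [c1] at a2
    rw [c2] at b4
    linarith
  have hsum := Finset.sum_le_sum key
  rw [Finset.sum_add_distrib, Finset.sum_const, Finset.card_range, nsmul_eq_mul] at hsum
  have htel := ch_tel μ XJ (fun ω => (X0 ω, G ω)) (by
    intro t ω ω' _ _ e
    funext i
    exact fl_coarse (hlev t) (congrFun e i)) L
  rw [htel] at hsum
  refine hsum.trans ?_
  have hfin : CH μ (XJ L) (fun ω => (XJ 0 ω, (X0 ω, G ω))) = CH μ (XJ L) (fun ω => (X0 ω, G ω)) := by
    apply ch_congr_right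
    intro ω ω' _ _
    rw [Prod.mk.injEq]
    constructor
    · exact fun e => e.2
    · intro e
      refine ⟨?_, e⟩
      rw [Prod.mk.injEq] at e
      funext i
      have := congrFun e.1 i.1
      show fl (N0 + 0 * R) (u ω i) = fl (N0 + 0 * R) (u ω' i)
      rw [zero_mul, add_zero]
      exact this
  rw [hfin]

end Pool.Agent.Helper15.VG
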