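import Pool.Agent.Helper15.VG.LemN

/-!
# FW, LEMMA N: the forms of the used carriers and the count
-/

set_option autoImplicit false

namespace Pool.Agent.Helper15.VG

open Finset Matrix Pool.Agent.Helper69.RK Pool.Agent.Helper15.VW Pool.Agent.Helper26.VW
open Pool.Agent.Helper61.GL hiding fl
open Pool.Agent.Helper92.W (fl)

variable {Ω α β γ δ ξ κ ζ ρ : Type} [Fintype Ω]

theorem fl_lip (n : ℕ) (x y ε : ℝ) (h : 2 ^ n * |x - y| ≤ ε) : |(fl n x : ℝ) - fl n y| ≤ ε + 1 := by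
  have h0 : (0 : ℝ) < 2 ^ n := by positivity
  have a1 := Int.floor_le ((2 : ℝ) ^ n * x)
  have a2 := Int.lt_floor_add_one ((2 : ℝ) ^ n * x)
  have a3 := Int.floor_le ((2 : ℝ) ^ n * y)
  have a4 := Int.lt_floor_add_one ((2 : ℝ) ^ n * y)
  have h1 : |2 ^ n * x - 2 ^ n * y| ≤ ε := by
    rw [← mul_sub, abs_mul, abs_of_pos h0]
    exact h
  unfold fl
  rw [abs_le] at h1 ⊢
  constructor <;> linarith

theorem fl_eq_near (n : ℕ) (x y : ℝ) (h : fl n x = fl n y) : 2 ^ n * |x - y| ≤ 1 := by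
  have h0 : (0 : ℝ) < 2 ^ n := by positivity
  have a1 := Int.floor_le ((2 : ℝ) ^ n * x)
  have a2 := Int.lt_floor_add_one ((2 : ℝ) ^ n * x)
  have a3 := Int.floor_le ((2 : ℝ) ^ n * y)
  have a4 := Int.lt_floor_add_one ((2 : ℝ) ^ n * y)
  unfold fl at h
  rw [h] at a1 a2
  have h1 : |2 ^ n * x - 2 ^ n * y| ≤ 1 := by
    rw [abs_le]
    constructor <;> linarith
  rw [← mul_sub, abs_mul, abs_of_pos h0] at h1
  exact h1

/-- the constant of the count -/
noncomputable def cK (u : ℕ) (C : ℝ) : ℝ := u * (Real.logb 2 (2 * C + 4) + Real.logb 2 (C + 3))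

/-- **COUNT WITH FORMS**: the change from the carriers to the first carrier and the forms is unimodular -/
theorem forms_count {u : ℕ} (μ : Ω → ℝ) (hμ : ∀ ω, 0 ≤ μ ω) (hm : mass μ = 1) (G : Ω → γ)
    (T : Fin (u + 1) → Ω → ℝ) (c : Fin u → Ω → ℝ) (n : ℕ) (C d0 : ℝ) (hC : 0 ≤ C)
    (hT : ∀ k ω, μ ω ≠ 0 → 0 ≤ T k ω ∧ T k ω ≤ 1)
    (hGc : ∀ ω ω', μ ω ≠ 0 → μ ω' ≠ 0 → G ω = G ω' → ∀ k, c k ω = c k ω')
    (hc : ∀ k ω, μ ω ≠ 0 → |c k ω| ≤ C)
    (hcount : (u + 1) * n - d0 ≤ CH μ (fun ω => fun k => fl n (T k ω)) G) :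
    n - (d0 + cK u C) ≤ CH μ (fun ω => fl n (T 0 ω))
      (fun ω => ((fun k : Fin u => fl n (T (Fin.succ k) ω - c k ω * T 0 ω)), G ω)) := by
  have hp : (1 : ℝ) ≤ 2 ^ n := one_le_pow₀ (by norm_num)
  have hp0 : (0 : ℝ) < 2 ^ n := by positivity
  set f : Ω → (Fin u → ℤ) := fun ω => fun k => fl n (T (Fin.succ k) ω - c k ω * T 0 ω) with hf
  have h1 := ch_tri μ hμ (fun ω => fun k => fl n (T k ω)) f G
  have h2 := ch_tri μ hμ (fun ω => fun k => fl n (T k ω)) (fun ω => fl n (T 0 ω)) (fun ω => (f ω, G ω))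
  -- the forms
  have h3 := st_E3.2 _ _ u μ f G (2 ^ n * (2 * C + 2) + 1) hμ (by positivity) (by
    intro ω ω' a a' e k
    apply fl_lip
    have e1 := hGc ω ω' a a' e k
    rw [e1]
    have t1 := hT (Fin.succ k) ω a
    have t2 := hT (Fin.succ k) ω' a'
    have t3 := hT 0 ω a
    have t4 := hT 0 ω' a'
    have h5 : |T (Fin.succ k) ω - c k ω' * T 0 ω - (T (Fin.succ k) ω' - c k ω' * T 0 ω')| ≤ 2 * C + 2 := by
      have h6 : |T (Fin.succ k) ω - T (Fin.succ k) ω'| ≤ 1 := by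
        rw [abs_le]; constructor <;> linarith
      have h7 : |c k ω' * (T 0 ω - T 0 ω')| ≤ C * 1 := by
        rw [abs_mul]
        apply mul_le_mul (hc k ω' a') _ (abs_nonneg _) hC
        rw [abs_le]; constructor <;> linarith
      have h8 : T (Fin.succ k) ω - c k ω' * T 0 ω - (T (Fin.succ k) ω' - c k ω' * T 0 ω') =
          (T (Fin.succ k) ω - T (Fin.succ k) ω') - c k ω' * (T 0 ω - T 0 ω') := by ring
      rw [h8]
      refine (abs_sub _ _).trans ?_
      linarith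
    exact mul_le_mul_of_nonneg_left h5 hp0.le)
  rw [hm, mul_one] at h3
  have h4 : Real.logb 2 (2 ^ n * (2 * C + 2) + 1 + 1) ≤ n + Real.logb 2 (2 * C + 4) := by
    have h5 : Real.logb 2 (2 ^ n * (2 * C + 4)) = n + Real.logb 2 (2 * C + 4) := by
      rw [Real.logb_mul (by positivity) (by positivity), Real.logb_pow, Real.logb_self_eq_one (by norm_num),
        mul_one]
    rw [← h5]
    apply Real.logb_le_logb_of_le (by norm_num) (by positivity)
    nlinarith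
  -- the other carriers
  have h6 : CH μ (fun ω => fun k => fl n (T k ω)) (fun ω => (fl n (T 0 ω), (f ω, G ω))) ≤
      CH μ (fun ω => fun k : Fin u => fl n (T (Fin.succ k) ω)) (fun ω => (fl n (T 0 ω), (f ω, G ω))) := by
    apply ch_mono μ hμ
    intro ω ω' _ _ e e'
    funext k
    refine Fin.cases ?_ (fun i => ?_) k
    · exact (Prod.mk.inj e').1
    · exact congrFun e i
  have h7 := st_E3.2 _ _ u μ (fun ω => fun k : Fin u => fl n (T (Fin.succ k) ω))
    (fun ω => (fl n (T 0 ω), (f ω, G ω))) (C + 2) hμ (by positivity) (by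
    intro ω ω' a a' e k
    simp only [Prod.mk.injEq] at e
    obtain ⟨e1, e2, e3⟩ := e
    have e4 := hGc ω ω' a a' e3 k
    have e5 := congrFun e2 k
    simp only [hf] at e5
    rw [e4] at e5
    have n1 := fl_eq_near n _ _ e1
    have n2 := fl_eq_near n _ _ e5
    have h8 : 2 ^ n * |T (Fin.succ k) ω - T (Fin.succ k) ω'| ≤ C + 1 := by
      have h9 : T (Fin.succ k) ω - T (Fin.succ k) ω' =
          (T (Fin.succ k) ω - c k ω' * T 0 ω - (T (Fin.succ k) ω' - c k ω' * T 0 ω')) +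
          c k ω' * (T 0 ω - T 0 ω') := by ring
      have h10 := abs_add_le (T (Fin.succ k) ω - c k ω' * T 0 ω - (T (Fin.succ k) ω' - c k ω' * T 0 ω'))
        (c k ω' * (T 0 ω - T 0 ω'))
      rw [← h9, abs_mul (c k ω')] at h10
      have h11 := mul_le_mul_of_nonneg_left h10 hp0.le
      have h12 : 2 ^ n * (|c k ω'| * |T 0 ω - T 0 ω'|) ≤ C * 1 := by
        calc 2 ^ n * (|c k ω'| * |T 0 ω - T 0 ω'|) = |c k ω'| * (2 ^ n * |T 0 ω - T 0 ω'|) := by ring
          _ ≤ C * 1 := mul_le_mul (hc k ω' a') n1 (by positivity) hC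
      rw [mul_add] at h11
      linarith
    refine (fl_lip n _ _ _ h8).trans ?_
    linarith)
  rw [hm, mul_one] at h7
  have h8 : (C + 2 + 1 : ℝ) = C + 3 := by ring
  rw [h8] at h7
  have h9 : (u : ℝ) * Real.logb 2 (2 ^ n * (2 * C + 2) + 1 + 1) ≤ u * (n + Real.logb 2 (2 * C + 4)) :=
    mul_le_mul_of_nonneg_left h4 (Nat.cast_nonneg u)
  unfold cK
  linarith

/-- **SCALING**: the digits of `τ = A T` where `A` is a function of the base of size about `2 ^ X` -/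
theorem scale_count (μ : Ω → ℝ) (hμ : ∀ ω, 0 ≤ μ ω) (hm : mass μ = 1) (K : Ω → κ)
    (T A : Ω → ℝ) (X : Ω → ℕ) (n l0 l1 : ℕ) (C d : ℝ) (hC : 0 < C)
    (hT : ∀ ω, μ ω ≠ 0 → 0 ≤ T ω ∧ T ω ≤ 1)
    (hKA : ∀ ω ω', μ ω ≠ 0 → μ ω' ≠ 0 → K ω = K ω' → A ω = A ω')
    (hKX : ∀ ω ω', μ ω ≠ 0 → μ ω' ≠ 0 → K ω = K ω' → X ω = X ω')
    (hA : ∀ ω, μ ω ≠ 0 → 2 ^ X ω ≤ C * |A ω| ∧ |A ω| ≤ C * 2 ^ X ω)
    (hn : ∀ ω, μ ω ≠ 0 → l1 + X ω ≤ n)
    (hd : n - d ≤ CH μ (fun ω => fl n (T ω)) K) :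
    (l1 : ℝ) - l0 - (d + 2 * Real.logb 2 (C + 2)) ≤
      CH μ (fun ω => fl l1 (A ω * T ω)) (fun ω => (fl l0 (A ω * T ω), K ω)) := by
  have h1 := ch_tri μ hμ (fun ω => fl n (T ω)) (fun ω => fl l0 (A ω * T ω)) K
  have h2 := ch_tri μ hμ (fun ω => fl n (T ω)) (fun ω => fl l1 (A ω * T ω)) (fun ω => (fl l0 (A ω * T ω), K ω))
  have h3 := ch_intv μ hμ (fun ω => fl l0 (A ω * T ω)) K (fun ω => C * 2 ^ (l0 + X ω) + 1)
    (fun ω _ => by positivity)
    (fun ω ω' a a' e => by rw [hKX ω ω' a a' e])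
    (fun ω ω' a a' e => by
      apply fl_lip
      have t3 := hT ω a
      have t4 := hT ω' a'
      rw [hKA ω ω' a a' e, hKX ω ω' a a' e, ← mul_sub, abs_mul]
      have h5 : |T ω - T ω'| ≤ 1 := by rw [abs_le]; constructor <;> linarith
      calc 2 ^ l0 * (|A ω'| * |T ω - T ω'|) ≤ 2 ^ l0 * (C * 2 ^ X ω' * 1) := by
            apply mul_le_mul_of_nonneg_left _ (by positivity)
            exact mul_le_mul (hA ω' a').2 h5 (abs_nonneg _) (by positivity)
        _ = C * 2 ^ (l0 + X ω') := by rw [pow_add]; ring)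
  have h4 := ch_intv μ hμ (fun ω => fl n (T ω)) (fun ω => (fl l1 (A ω * T ω), (fl l0 (A ω * T ω), K ω)))
    (fun ω => C * 2 ^ (n - (l1 + X ω)) + 1) (fun ω _ => by positivity)
    (fun ω ω' a a' e => by
      simp only [Prod.mk.injEq] at e
      rw [hKX ω ω' a a' e.2.2])
    (fun ω ω' a a' e => by
      simp only [Prod.mk.injEq] at e
      apply fl_lip
      have e1 := hKA ω ω' a a' e.2.2
      have e2 := hKX ω ω' a a' e.2.2
      have n1 := fl_eq_near l1 _ _ e.1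
      rw [e1, ← mul_sub, abs_mul] at n1
      rw [e2]
      have h5 := (hA ω' a').1
      have h6 := hn ω' a'
      have h7 : (2 : ℝ) ^ n = 2 ^ (n - (l1 + X ω')) * (2 ^ l1 * 2 ^ X ω') := by
        rw [← pow_add, ← pow_add]
        congr 1
        omega
      rw [h7]
      have h8 : 2 ^ l1 * 2 ^ X ω' * |T ω - T ω'| ≤ C := by
        calc 2 ^ l1 * 2 ^ X ω' * |T ω - T ω'| ≤ 2 ^ l1 * (C * |A ω'|) * |T ω - T ω'| := by
              apply mul_le_mul_of_nonneg_right _ (abs_nonneg _)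
              exact mul_le_mul_of_nonneg_left h5 (by positivity)
          _ = C * (2 ^ l1 * (|A ω'| * |T ω - T ω'|)) := by ring
          _ ≤ C * 1 := mul_le_mul_of_nonneg_left n1 hC.le
          _ = C := mul_one C
      calc 2 ^ (n - (l1 + X ω')) * (2 ^ l1 * 2 ^ X ω') * |T ω - T ω'| =
            2 ^ (n - (l1 + X ω')) * (2 ^ l1 * 2 ^ X ω' * |T ω - T ω'|) := by ring
        _ ≤ 2 ^ (n - (l1 + X ω')) * C := mul_le_mul_of_nonneg_left h8 (by positivity)
        _ = C * 2 ^ (n - (l1 + X ω')) := by ring)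
  have lg : ∀ m : ℕ, Real.logb 2 (C * 2 ^ m + 1 + 1) ≤ m + Real.logb 2 (C + 2) := by
    intro m
    have h5 : Real.logb 2 (2 ^ m * (C + 2)) = m + Real.logb 2 (C + 2) := by
      rw [Real.logb_mul (by positivity) (by positivity), Real.logb_pow, Real.logb_self_eq_one (by norm_num),
        mul_one]
    rw [← h5]
    apply Real.logb_le_logb_of_le (by norm_num) (by positivity)
    have : (1 : ℝ) ≤ 2 ^ m := one_le_pow₀ (by norm_num)
    nlinarith
  have h5 : ∑ ω, μ ω * Real.logb 2 (C * 2 ^ (l0 + X ω) + 1 + 1) +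
      ∑ ω, μ ω * Real.logb 2 (C * 2 ^ (n - (l1 + X ω)) + 1 + 1) ≤
      ∑ ω, μ ω * (n - ((l1 : ℝ) - l0) + 2 * Real.logb 2 (C + 2)) := by
    rw [← Finset.sum_add_distrib]
    apply Finset.sum_le_sum
    intro ω _
    by_cases h0 : μ ω = 0
    · rw [h0]
      simp
    · rw [← mul_add]
      apply mul_le_mul_of_nonneg_left _ (hμ ω)
      have h6 := lg (l0 + X ω)
      have h7 := lg (n - (l1 + X ω))
      rw [Nat.cast_sub (hn ω h0)] at h7
      push_cast at h6 h7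
      linarith
  rw [← Finset.sum_mul] at h5
  have h6 : ∑ ω, μ ω = 1 := hm
  rw [h6, one_mul] at h5
  linarith

end Pool.Agent.Helper15.VG
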