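import Pool.Agent.Helper15.VG.Src
import Pool.Agent.Helper15.VW.Fib

/-!
# Vector W in fibres: filtration lemma without nestedness, one source in moving frames
-/

set_option autoImplicit false

namespace Pool.Agent.Helper15.VG

open Finset Matrix Pool.Agent.Helper69.RK Pool.Agent.Helper15.VW Pool.Agent.Helper26.VW
open Pool.Agent.Helper61.GL hiding fl
open Pool.Agent.Helper92.W (fl)

variable {Ω α β γ δ ξ κ ζ : Type} [Fintype Ω]

/-- **filtration lemma** for approximately increasing data `A t` -/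
theorem filt2 (μ : Ω → ℝ) (hμ : ∀ ω, 0 ≤ μ ω) (A : ℕ → Ω → α) (win : ℕ → Ω → β) (W : Ω → δ) (X : Ω → ξ)
    (Q : Ω → κ) (L : ℕ)
    (hw : ∀ t ω ω', μ ω ≠ 0 → μ ω' ≠ 0 → A (t + 1) ω = A (t + 1) ω' → X ω = X ω' → win t ω = win t ω')
    (hQ : ∀ ω ω', μ ω ≠ 0 → μ ω' ≠ 0 → Q ω = Q ω' → X ω = X ω' → A L ω = A L ω') :
    ∑ t ∈ range L, (CH μ (win t) (fun ω => (A t ω, X ω)) - CH μ (win t) (fun ω => (A t ω, (W ω, X ω)))) ≤
      CH μ Q X - CH μ Q (fun ω => (W ω, X ω)) +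
        ∑ t ∈ range L, CH μ (A t) (fun ω => (A (t + 1) ω, X ω)) := by
  set Φ : ℕ → ℝ := fun t => CH μ (A t) X - CH μ (A t) (fun ω => (W ω, X ω)) with hΦ
  have h1 : ∀ t, CH μ (win t) (fun ω => (A t ω, X ω)) - CH μ (win t) (fun ω => (A t ω, (W ω, X ω))) ≤
      Φ (t + 1) - Φ t + CH μ (A t) (fun ω => (A (t + 1) ω, X ω)) := by
    intro t
    have h2 := mi_mono μ hμ (win t) (fun ω => (A (t + 1) ω, X ω)) W (fun ω => (A t ω, X ω)) (by
      intro ω ω' a b e
      rw [Prod.mk.injEq] at e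
      exact hw t ω ω' a b e.1 e.2)
    have e1 : CH μ (fun ω => (A (t + 1) ω, X ω)) (fun ω => (A t ω, X ω)) =
        CH μ (A (t + 1)) (fun ω => (A t ω, X ω)) := by
      apply ch_congr_left
      intro ω ω' _ _ e
      rw [Prod.mk.injEq] at e
      simp [e.2]
    have e2 : CH μ (fun ω => (A (t + 1) ω, X ω)) (fun ω => (W ω, (A t ω, X ω))) =
        CH μ (A (t + 1)) (fun ω => (A t ω, (W ω, X ω))) := by
      rw [ch_congr_right μ _ (fun ω => (W ω, (A t ω, X ω))) (fun ω => (A t ω, (W ω, X ω)))]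
      · apply ch_congr_left
        intro ω ω' _ _ e
        rw [Prod.mk.injEq, Prod.mk.injEq] at e
        simp [e.2.2]
      · intro ω ω' _ _
        simp only [Prod.mk.injEq]
        tauto
    have e3 : CH μ (win t) (fun ω => (W ω, (A t ω, X ω))) = CH μ (win t) (fun ω => (A t ω, (W ω, X ω))) := by
      apply ch_congr_right
      intro ω ω' _ _
      simp only [Prod.mk.injEq]
      tauto
    rw [e1, e2, e3] at h2
    have c1 := ch_chain μ (A t) (A (t + 1)) X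
    have c2 := ch_chain μ (A (t + 1)) (A t) X
    have c3 := ch_chain μ (A t) (A (t + 1)) (fun ω => (W ω, X ω))
    have c4 := ch_chain μ (A (t + 1)) (A t) (fun ω => (W ω, X ω))
    have c5 : CH μ (fun ω => (A t ω, A (t + 1) ω)) X = CH μ (fun ω => (A (t + 1) ω, A t ω)) X := by
      apply ch_congr_left
      intro ω ω' _ _ _
      simp only [Prod.mk.injEq]
      tauto
    have c6 : CH μ (fun ω => (A t ω, A (t + 1) ω)) (fun ω => (W ω, X ω)) =
        CH μ (fun ω => (A (t + 1) ω, A t ω)) (fun ω => (W ω, X ω)) := by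
      apply ch_congr_left
      intro ω ω' _ _ _
      simp only [Prod.mk.injEq]
      tauto
    have c7 := ch_nonneg μ hμ (A t) (fun ω => (A (t + 1) ω, (W ω, X ω)))
    simp only [hΦ]
    linarith
  have h2 := Finset.sum_le_sum (s := range L) fun t _ => h1 t
  rw [Finset.sum_add_distrib, Finset.sum_range_sub] at h2
  have h3 : 0 ≤ Φ 0 := by
    have : CH μ (A 0) (fun ω => (W ω, X ω)) ≤ CH μ (A 0) X := ch_cond μ hμ _ _ _ (by
      intro ω ω' _ _ e
      rw [Prod.mk.injEq] at e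
      exact e.2)
    simp only [hΦ]
    linarith
  have c6 := mi_mono μ hμ (A L) (fun ω => (Q ω, X ω)) W X (by
    intro ω ω' a b e
    rw [Prod.mk.injEq] at e
    exact hQ ω ω' a b e.1 e.2)
  have c7 : CH μ (fun ω => (Q ω, X ω)) X = CH μ Q X := by
    apply ch_congr_left
    intro ω ω' _ _ e
    simp [e]
  have c8 : CH μ (fun ω => (Q ω, X ω)) (fun ω => (W ω, X ω)) = CH μ Q (fun ω => (W ω, X ω)) := by
    apply ch_congr_left
    intro ω ω' _ _ e
    rw [Prod.mk.injEq] at e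
    simp [e.2]
  rw [c7, c8] at c6
  have h4 : Φ L ≤ CH μ Q X - CH μ Q (fun ω => (W ω, X ω)) := c6
  linarith

/-- the known data of level `t` of a source in a moving frame -/
noncomputable def Bat {b : ℕ} (τ τ' : Ω → ℝ) (y : Ω → Fin b → ℝ) (M : ℕ → Ω → Mt b) (N0 D t : ℕ) (ω : Ω) :
    (ℤ × ℤ) × (Fin b → ℤ) :=
  ((fl (N0 + t * D) (τ ω), fl (N0 + t * D) (τ' ω)), pf (M t ω) (N0 + t * D + D) (y ω))

/-- **(5.1)** in moving frames -/
theorem src2 {b : ℕ} (μ : Ω → ℝ) (hμ : ∀ ω, 0 ≤ μ ω) (hm : mass μ = 1) (G : Ω → γ) (τ τ' θ θ' : Ω → ℝ)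
    (y : Ω → Fin b → ℝ) (Q : Ω → κ) (ZA : Ω → ζ) (W : Ω → δ) (M : ℕ → Ω → Mt b) (N0 L m D s : ℕ)
    (C d1 d2 : ℝ) (hC : 0 ≤ C)
    (hτ : ∀ ω ω', μ ω ≠ 0 → μ ω' ≠ 0 → Q ω = Q ω' → G ω = G ω' → τ ω = τ ω')
    (hτ' : ∀ ω ω', μ ω ≠ 0 → μ ω' ≠ 0 → Q ω = Q ω' → G ω = G ω' → τ' ω = τ' ω')
    (hy : ∀ ω ω', μ ω ≠ 0 → μ ω' ≠ 0 → Q ω = Q ω' → G ω = G ω' → y ω = y ω')
    (hθ : ∀ ω ω', μ ω ≠ 0 → μ ω' ≠ 0 → G ω = G ω' → θ ω = θ ω')
    (hθ' : ∀ ω ω', μ ω ≠ 0 → μ ω' ≠ 0 → G ω = G ω' → θ' ω = θ' ω')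
    (hM : ∀ t ω ω', μ ω ≠ 0 → μ ω' ≠ 0 → G ω = G ω' → M t ω = M t ω')
    (h1 : ∀ ω, μ ω ≠ 0 → |θ ω| ≤ 1) (hs : ∀ ω, μ ω ≠ 0 → ((1 : ℝ) / 2) ^ s ≤ |θ' ω|)
    (hlm : N0 + L * D ≤ m) (E : ℕ → Ω → Prop) (yt : ℕ → Ω → Fin b → ℝ)
    (hyt : ∀ t < L, ∀ ω ω', μ ω ≠ 0 → μ ω' ≠ 0 → fl (N0 + t * D) (τ ω) = fl (N0 + t * D) (τ ω') →
      fl (N0 + t * D) (τ' ω) = fl (N0 + t * D) (τ' ω') → ZA ω = ZA ω' →
      fl m (θ ω * τ ω + θ' ω * τ' ω) = fl m (θ ω' * τ ω' + θ' ω' * τ' ω') → G ω = G ω' → yt t ω = yt t ω')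
    (hE : ∀ t < L, ∀ ω, μ ω ≠ 0 → E t ω →
      ∀ k, |((M t ω)⁻¹ *ᵥ (y ω - yt t ω)) k| ≤ C * (1 / 2) ^ (N0 + t * D + D))
    (hQ : CH μ Q (fun ω => (fl m (θ ω * τ ω + θ' ω * τ' ω), G ω)) -
      CH μ Q (fun ω => (W ω, (fl m (θ ω * τ ω + θ' ω * τ' ω), G ω))) ≤ d1)
    (hZ : L * D - d2 ≤ CH μ (fun ω => fl (N0 + L * D) (τ ω))
      (fun ω => (fl N0 (τ ω), (ZA ω, (fl m (θ ω * τ ω + θ' ω * τ' ω), G ω))))) :
    L * D - d1 - d2 - L * (b * Real.logb 2 (2 * C + 2) + s + 4) -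
        (D + 1) * ∑ t ∈ range L, mass (res μ (fun ω => ¬ E t ω)) -
        ∑ t ∈ range L, CH μ (Bat τ τ' y M N0 D t)
          (fun ω => (Bat τ τ' y M N0 D (t + 1) ω, (fl m (θ ω * τ ω + θ' ω * τ' ω), G ω))) ≤
      ∑ t ∈ range L, CH μ (fun ω => fl (N0 + (t + 1) * D) (τ ω))
        (fun ω => (Bat τ τ' y M N0 D t ω, (W ω, (fl m (θ ω * τ ω + θ' ω * τ' ω), G ω)))) := by
  classical
  set X : Ω → ℤ := fun ω => fl m (θ ω * τ ω + θ' ω * τ' ω) with hX
  set XG : Ω → ℤ × γ := fun ω => (X ω, G ω) with hXG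
  set T : ℕ → Ω → ℤ := fun t ω => fl (N0 + t * D) (τ ω) with hT
  set T' : ℕ → Ω → ℤ := fun t ω => fl (N0 + t * D) (τ' ω) with hT'
  have hlev : ∀ t : ℕ, N0 + t * D ≤ N0 + (t + 1) * D := by
    intro t
    have : t * D ≤ (t + 1) * D := Nat.mul_le_mul_right D (Nat.le_succ t)
    omega
  -- filtration
  have f1 := filt2 μ hμ (fun t => Bat τ τ' y M N0 D t) (fun t => T (t + 1)) W XG Q L
    (by
      intro t ω ω' _ _ e _
      unfold Bat at e
      simp only [Prod.mk.injEq] at e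
      exact e.1.1)
    (by
      intro ω ω' a a' e e'
      have e2 : G ω = G ω' := by
        rw [hXG] at e'
        simp only [Prod.mk.injEq] at e'
        exact e'.2
      unfold Bat
      rw [hτ ω ω' a a' e e2, hτ' ω ω' a a' e e2, hy ω ω' a a' e e2, hM L ω ω' a a' e2])
  rw [Finset.sum_sub_distrib] at f1
  -- one level: the tube
  have f2 : ∀ t ∈ range L, CH μ (T (t + 1)) (fun ω => (T t ω, (ZA ω, XG ω))) -
      (b * Real.logb 2 (2 * C + 2) + s + 4) - (D + 1) * mass (res μ (fun ω => ¬ E t ω)) ≤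
      CH μ (T (t + 1)) (fun ω => (Bat τ τ' y M N0 D t ω, XG ω)) := by
    intro t ht
    rw [Finset.mem_range] at ht
    have hr : ∀ ω, 0 ≤ res μ (E t) ω := e4_res_nonneg μ _ hμ
    have hr' : ∀ ω, 0 ≤ res μ (fun ω => ¬ E t ω) ω := e4_res_nonneg μ _ hμ
    have hres : ∀ ω, res μ (E t) ω ≠ 0 → E t ω ∧ μ ω ≠ 0 := by
      intro ω h
      unfold res at h
      split_ifs at h with h3
      · exact ⟨h3, h⟩
      · exact absurd rfl h
    -- values of `y`
    have g1 := tube_info μ hμ (T (t + 1)) (fun ω => pf (M t ω) (N0 + t * D + D) (y ω))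
      (fun ω => (T' t ω, (T t ω, (ZA ω, XG ω)))) (E t) (b * Real.logb 2 (2 * C + 2)) ((D + 1) *
        mass (res μ (fun ω => ¬ E t ω))) (by
        have h3 := (st_E3.2) Ω (ℤ × ℤ × ζ × ℤ × γ) b (res μ (E t)) (fun ω => pf (M t ω) (N0 + t * D + D) (y ω))
          (fun ω => (T' t ω, (T t ω, (ZA ω, XG ω)))) (2 * C + 1) hr (by positivity) (by
            intro ω ω' a a' e k
            obtain ⟨a1, a2⟩ := hres ω a
            obtain ⟨a1', a2'⟩ := hres ω' a'
            simp only [hXG, Prod.mk.injEq] at e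
            have e1 := hyt t ht ω ω' a2 a2' e.2.1 e.1 e.2.2.1 e.2.2.2.1 e.2.2.2.2
            have e0 := hM t ω ω' a2 a2' e.2.2.2.2
            have e2 := hE t ht ω a2 a1 k
            have e3 := hE t ht ω' a2' a1' k
            rw [← e1, ← e0] at e3
            show |(fl (N0 + t * D + D) (((M t ω)⁻¹ *ᵥ y ω) k) : ℝ) -
              fl (N0 + t * D + D) (((M t ω')⁻¹ *ᵥ y ω') k)| ≤ 2 * C + 1
            rw [← e0]
            apply fl_diff
            rw [Matrix.mulVec_sub, Pi.sub_apply] at e2 e3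
            have e4 : ((M t ω)⁻¹ *ᵥ y ω) k - ((M t ω)⁻¹ *ᵥ y ω') k =
              (((M t ω)⁻¹ *ᵥ y ω) k - ((M t ω)⁻¹ *ᵥ yt t ω) k) -
              (((M t ω)⁻¹ *ᵥ y ω') k - ((M t ω)⁻¹ *ᵥ yt t ω) k) := by ring
            rw [e4]
            have e5 := abs_sub (((M t ω)⁻¹ *ᵥ y ω) k - ((M t ω)⁻¹ *ᵥ yt t ω) k)
              (((M t ω)⁻¹ *ᵥ y ω') k - ((M t ω)⁻¹ *ᵥ yt t ω) k)
            linarith)
        have h4 : mass (res μ (E t)) ≤ 1 := by
          have h5 := ((st_E4 st_E1 st_E3).2.2 Ω μ (E t) hμ).1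
          have h6 := ((st_E4 st_E1 st_E3).2.2 Ω μ (fun ω => ¬ E t ω) hμ).2.1
          linarith
        have h5 : 0 ≤ b * Real.logb 2 (2 * C + 1 + 1) := by
          apply mul_nonneg (Nat.cast_nonneg b)
          exact Real.logb_nonneg (by norm_num) (by linarith)
        have h6 : (2 * C + 1 + 1 : ℝ) = 2 * C + 2 := by ring
        rw [h6] at h3 h5
        refine h3.trans ?_
        calc b * Real.logb 2 (2 * C + 2) * mass (res μ (E t)) ≤ b * Real.logb 2 (2 * C + 2) * 1 :=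
              mul_le_mul_of_nonneg_left h4 h5
          _ = _ := mul_one _) (by
        have h3 := ch_int (res μ (fun ω => ¬ E t ω)) hr' (T (t + 1))
          (fun ω => (T' t ω, (T t ω, (ZA ω, XG ω)))) (2 ^ D) (by positivity) (by
            intro ω ω' _ _ e
            simp only [Prod.mk.injEq] at e
            have e1 : fl (N0 + t * D) (τ ω) = fl (N0 + t * D) (τ ω') := e.2.1
            have e2 : ∀ x : ℝ, fl (N0 + t * D) x = fl (N0 + (t + 1) * D) x / ((2 ^ D : ℕ) : ℤ) := by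
              intro x
              have e3 : N0 + (t + 1) * D = (N0 + t * D) + D := by ring
              rw [e3]
              exact fl_div _ D x
            rw [e2 (τ ω), e2 (τ ω')] at e1
            have e4 : (0 : ℤ) < ((2 ^ D : ℕ) : ℤ) := by positivity
            have e5 := Int.emod_add_mul_ediv (fl (N0 + (t + 1) * D) (τ ω)) ((2 ^ D : ℕ) : ℤ)
            have e6 := Int.emod_add_mul_ediv (fl (N0 + (t + 1) * D) (τ ω')) ((2 ^ D : ℕ) : ℤ)
            have e7 := Int.emod_nonneg (fl (N0 + (t + 1) * D) (τ ω)) e4.ne'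
            have e8 := Int.emod_nonneg (fl (N0 + (t + 1) * D) (τ ω')) e4.ne'
            have e9 := Int.emod_lt_of_pos (fl (N0 + (t + 1) * D) (τ ω)) e4
            have e10 := Int.emod_lt_of_pos (fl (N0 + (t + 1) * D) (τ ω')) e4
            have e11 : |T (t + 1) ω - T (t + 1) ω'| ≤ ((2 ^ D : ℕ) : ℤ) := by
              show |fl (N0 + (t + 1) * D) (τ ω) - fl (N0 + (t + 1) * D) (τ ω')| ≤ ((2 ^ D : ℕ) : ℤ)
              rw [e1] at e5
              rw [abs_le]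
              constructor <;> linarith
            have e12 : ((|T (t + 1) ω - T (t + 1) ω'| : ℤ) : ℝ) ≤ (((2 ^ D : ℕ) : ℤ) : ℝ) := by
              exact_mod_cast e11
            push_cast at e12
            exact e12)
        refine h3.trans ?_
        apply mul_le_mul_of_nonneg_right (logb_two_pow_add_one D)
        exact ((st_E4 st_E1 st_E3).2.2 Ω μ (fun ω => ¬ E t ω) hμ).2.1)
    -- the second variable
    have g2 : CH μ (T' t) (fun ω => (T t ω, (ZA ω, XG ω))) ≤ s + 3 := by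
      have h3 := ch_int μ hμ (T' t) (fun ω => (T t ω, (ZA ω, XG ω))) (2 ^ (s + 1) + 1) (by positivity) (by
        intro ω ω' a a' e
        simp only [hXG, Prod.mk.injEq] at e
        have e1 := fl_near e.1
        have e2 := fl_near e.2.2.1
        have e3 := hθ ω ω' a a' e.2.2.2
        have e4 := hθ' ω ω' a a' e.2.2.2
        rw [← e3, ← e4] at e2
        apply fl_diff
        have e5 : θ' ω * (τ' ω - τ' ω') = (θ ω * τ ω + θ' ω * τ' ω - (θ ω * τ ω' + θ' ω * τ' ω')) -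
            θ ω * (τ ω - τ ω') := by ring
        have e6 : ((1 : ℝ) / 2) ^ m ≤ (1 / 2) ^ (N0 + t * D) := by
          apply pow_le_pow_of_le_one (by norm_num) (by norm_num)
          have : t * D ≤ L * D := Nat.mul_le_mul_right D ht.le
          omega
        have e7 : |θ ω * (τ ω - τ ω')| ≤ (1 / 2) ^ (N0 + t * D) := by
          rw [abs_mul]
          calc |θ ω| * |τ ω - τ ω'| ≤ 1 * (1 / 2) ^ (N0 + t * D) :=
                mul_le_mul (h1 ω a) e1 (abs_nonneg _) zero_le_one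
            _ = _ := one_mul _
        have e8 : |θ' ω * (τ' ω - τ' ω')| ≤ 2 * (1 / 2) ^ (N0 + t * D) := by
          rw [e5]
          have := abs_sub (θ ω * τ ω + θ' ω * τ' ω - (θ ω * τ ω' + θ' ω * τ' ω')) (θ ω * (τ ω - τ ω'))
          linarith
        rw [abs_mul] at e8
        have e10 : (2 : ℝ) ^ s * (1 / 2) ^ s = 1 := by rw [← mul_pow]; norm_num
        calc |τ' ω - τ' ω'| = 2 ^ s * ((1 / 2) ^ s * |τ' ω - τ' ω'|) := by rw [← mul_assoc, e10, one_mul]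
          _ ≤ 2 ^ s * (|θ' ω| * |τ' ω - τ' ω'|) := by
              apply mul_le_mul_of_nonneg_left _ (by positivity)
              exact mul_le_mul_of_nonneg_right (hs ω a) (abs_nonneg _)
          _ ≤ 2 ^ s * (2 * (1 / 2) ^ (N0 + t * D)) := mul_le_mul_of_nonneg_left e8 (by positivity)
          _ = 2 ^ (s + 1) * (1 / 2) ^ (N0 + t * D) := by ring)
      rw [hm, mul_one] at h3
      refine h3.trans ?_
      have h4 : (2 : ℝ) ^ (s + 1) + 1 + 1 ≤ 2 ^ (s + 2) + 1 := by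
        have : (1 : ℝ) ≤ 2 ^ (s + 1) := one_le_pow₀ (by norm_num)
        rw [pow_succ 2 (s + 1)]
        linarith
      calc Real.logb 2 ((2 : ℝ) ^ (s + 1) + 1 + 1) ≤ Real.logb 2 ((2 : ℝ) ^ (s + 2) + 1) :=
            Real.logb_le_logb_of_le (by norm_num) (by positivity) h4
        _ ≤ ((s + 2 : ℕ) : ℝ) + 1 := logb_two_pow_add_one (s + 2)
        _ = s + 3 := by push_cast; ring
    -- conditioning on the second variable
    have g3 := ch_tri μ hμ (T (t + 1)) (T' t) (fun ω => (T t ω, (ZA ω, XG ω)))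
    -- dropping `ZA`
    have g4 : CH μ (T (t + 1)) (fun ω => (pf (M t ω) (N0 + t * D + D) (y ω),
        (T' t ω, (T t ω, (ZA ω, XG ω))))) ≤ CH μ (T (t + 1)) (fun ω => (Bat τ τ' y M N0 D t ω, XG ω)) := by
      apply ch_cond μ hμ
      intro ω ω' _ _ e
      simp only [Prod.mk.injEq] at e
      unfold Bat
      simp only [Prod.mk.injEq]
      exact ⟨⟨⟨e.2.2.1, e.2.1⟩, e.1⟩, e.2.2.2.2⟩
    rw [hm] at g1
    linarith
  have f3 := Finset.sum_le_sum f2
  rw [Finset.sum_sub_distrib, Finset.sum_sub_distrib, ← Finset.mul_sum, Finset.sum_const, Finset.card_range,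
    nsmul_eq_mul] at f3
  have f4 := ch_tel μ T (fun ω => (ZA ω, XG ω)) (fun t ω ω' _ _ e => fl_coarse (hlev t) e) L
  have f5 : T 0 = fun ω => fl N0 (τ ω) := by
    funext ω
    show fl (N0 + 0 * D) (τ ω) = _
    rw [zero_mul, add_zero]
  rw [f4] at f3
  have f6 : CH μ (T L) (fun ω => (T 0 ω, (ZA ω, XG ω))) =
      CH μ (fun ω => fl (N0 + L * D) (τ ω)) (fun ω => (fl N0 (τ ω), (ZA ω, XG ω))) := by
    rw [f5]
  rw [f6] at f3
  linarith

end Pool.Agent.Helper15.VG
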