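import Pool.Agent.Helper15.VG.FCnt

/-!
# FW, LEMMA N: one frame vector, all levels, with the walk, the tubes and the forms
-/

set_option autoImplicit false

namespace Pool.Agent.Helper15.VG

open Finset Matrix Pool.Agent.Helper69.RK Pool.Agent.Helper15.VW Pool.Agent.Helper26.VW
open Pool.Agent.Helper61.GL hiding fl
open Pool.Agent.Helper92.W (fl)

variable {Ω Ω' α β γ δ ξ κ ζ χ ρ : Type} [Fintype Ω] [Fintype Ω']

/-- constants of LEMMA N -/
noncomputable def cF1 (u : ℕ) (C : ℝ) : ℝ := cK u C + 2 * Real.logb 2 (C + 2)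
/-- constants of LEMMA N -/
noncomputable def cF2 (r u : ℕ) (C : ℝ) : ℝ :=
  cC r (C * (4 * u + 2)) + 2 + (u + 1 : ℕ) * Real.logb 2 (C * C + C + 2 + 1)
/-- constants of LEMMA N -/
noncomputable def cF3 (r u : ℕ) (C : ℝ) : ℝ :=
  cT r (C * (4 * u + 2)) + Real.logb 2 (2 * (C * (4 * u + 2)) + 2)

/-- the algebra: the start of the path in terms of the end, the forms and the cells -/
theorem walk_alg {r u : ℕ} (T : Fin (u + 1) → ℝ) (Cc : Fin (u + 1) → Fin r → ℝ) (η : Fin (u + 1) → ℝ)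
    (s : Fin (u + 1) → Fin r → ℝ) (a : Fin (u + 1) → ℝ) (ze z v : Fin r → ℝ)
    (b o : Fin (u + 1) → Fin r → ℝ) (y : Fin u → ℝ) (Th : Fin u → ℝ) (ha : a 0 ≠ 0)
    (hv : v = ∑ k, a k • s k) (hs : ∑ k, a k * η k = 0) :
    z - (ze + ∑ k : Fin u, y k • s k.succ - (∑ k : Fin u, η k.succ * y k) • b 0 -
        ∑ k : Fin u, (η k.succ * Th k) • (b k.succ - b 0) - ∑ k, η k • o k) - (T 0 / a 0) • v =
      (z - ze - ∑ k, (T k • s k - η k • Cc k)) +
      ∑ k : Fin u, (T k.succ - a k.succ / a 0 * T 0 - y k) • s k.succ -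
      (∑ k : Fin u, η k.succ * (T k.succ - a k.succ / a 0 * T 0 - y k)) • b 0 -
      ∑ k : Fin u, (η k.succ * (T k.succ - Th k)) • (b k.succ - b 0) -
      ∑ k, η k • (Cc k - T k • b k - o k) := by
  have h0 : (T 0 / a 0) * (a 0) = T 0 := by field_simp
  have e1 : η 0 * T 0 = - ∑ k : Fin u, η k.succ * (a k.succ / a 0 * T 0) := by
    rw [Fin.sum_univ_succ] at hs
    have h1 : η 0 * T 0 = (T 0 / a 0) * (a 0 * η 0) := by rw [← mul_assoc, h0, mul_comm]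
    have h2 : a 0 * η 0 = - ∑ k : Fin u, a k.succ * η k.succ := by linarith
    rw [h1, h2, mul_neg, Finset.mul_sum]
    congr 1
    apply Finset.sum_congr rfl
    intro k _
    ring
  have e2 : ∀ i, (T 0 / a 0) * v i = T 0 * s 0 i + ∑ k : Fin u, (a k.succ / a 0 * T 0) * s k.succ i := by
    intro i
    rw [hv, Finset.sum_apply, Fin.sum_univ_succ, mul_add, Finset.mul_sum]
    simp only [Pi.smul_apply, smul_eq_mul]
    rw [← mul_assoc, h0]
    congr 1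
    apply Finset.sum_congr rfl
    intro k _
    ring
  funext i
  have e3 := e2 i
  have e4 : η 0 * T 0 * b 0 i = - ∑ k : Fin u, η k.succ * (a k.succ / a 0 * T 0) * b 0 i := by
    rw [e1, neg_mul, Finset.sum_mul]
  simp only [Pi.sub_apply, Pi.add_apply, Finset.sum_apply, Pi.smul_apply, smul_eq_mul]
  rw [e3]
  simp only [Fin.sum_univ_succ, Finset.sum_mul]
  have key : ∑ k : Fin u, y k * s k.succ i - ∑ k : Fin u, η k.succ * y k * b 0 i -
      ∑ k : Fin u, η k.succ * Th k * (b k.succ i - b 0 i) - ∑ k : Fin u, η k.succ * o k.succ i +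
      ∑ k : Fin u, a k.succ / a 0 * T 0 * s k.succ i =
      ∑ k : Fin u, (T k.succ * s k.succ i - η k.succ * Cc k.succ i) -
      ∑ k : Fin u, (T k.succ - a k.succ / a 0 * T 0 - y k) * s k.succ i +
      ∑ k : Fin u, η k.succ * (T k.succ - a k.succ / a 0 * T 0 - y k) * b 0 i +
      ∑ k : Fin u, η k.succ * (T k.succ - Th k) * (b k.succ i - b 0 i) +
      ∑ k : Fin u, η k.succ * (Cc k.succ i - T k.succ * b k.succ i - o k.succ i) +
      ∑ k : Fin u, η k.succ * (a k.succ / a 0 * T 0) * b 0 i := by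
    simp only [← Finset.sum_sub_distrib, ← Finset.sum_add_distrib]
    apply Finset.sum_congr rfl
    intro k _
    ring
  linarith

/-- the errors of the algebra are small in the frame -/
theorem walk_err {r u : ℕ} (Mi : Mt r) (T : Fin (u + 1) → ℝ) (Cc : Fin (u + 1) → Fin r → ℝ)
    (η : Fin (u + 1) → ℝ) (s : Fin (u + 1) → Fin r → ℝ) (a : Fin (u + 1) → ℝ) (ze z v : Fin r → ℝ)
    (b o : Fin (u + 1) → Fin r → ℝ) (y : Fin u → ℝ) (Th : Fin u → ℝ) (ha : a 0 ≠ 0)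
    (hv : v = ∑ k, a k • s k) (hs : ∑ k, a k * η k = 0) (n J : ℕ) (C : ℝ) (hC : 0 ≤ C)
    (hy : ∀ k : Fin u, 2 ^ n * |T k.succ - a k.succ / a 0 * T 0 - y k| ≤ 1)
    (hTh : ∀ k : Fin u, 2 ^ J * |T k.succ - Th k| ≤ 1)
    (h1 : ∀ i, |(Mi *ᵥ (z - ze - ∑ k, (T k • s k - η k • Cc k))) i| ≤ C)
    (h2 : ∀ (k : Fin u) i, |(Mi *ᵥ s k.succ) i| ≤ C * 2 ^ n)
    (h3 : ∀ (k : Fin u) i, |η k.succ| * |(Mi *ᵥ b 0) i| ≤ C * 2 ^ n)
    (h4 : ∀ (k : Fin u) i, |η k.succ| * |(Mi *ᵥ (b k.succ - b 0)) i| ≤ C * 2 ^ J)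
    (h5 : ∀ k i, |η k| * |(Mi *ᵥ (Cc k - T k • b k - o k)) i| ≤ C) (i : Fin r) :
    |(Mi *ᵥ (z - (ze + ∑ k : Fin u, y k • s k.succ - (∑ k : Fin u, η k.succ * y k) • b 0 -
        ∑ k : Fin u, (η k.succ * Th k) • (b k.succ - b 0) - ∑ k, η k • o k) - (T 0 / a 0) • v)) i| ≤
      C * (4 * u + 2) := by
  have hp : (0 : ℝ) < 2 ^ n := by positivity
  have hJ : (0 : ℝ) < 2 ^ J := by positivity
  rw [walk_alg T Cc η s a ze z v b o y Th ha hv hs]
  simp only [Matrix.mulVec_sub, Matrix.mulVec_add, Matrix.mulVec_sum, Matrix.mulVec_smul, Pi.sub_apply,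
    Pi.add_apply, Finset.sum_apply, Pi.smul_apply, smul_eq_mul] at h1 h4 h5 ⊢
  have b2 : |∑ k : Fin u, (T k.succ - a k.succ / a 0 * T 0 - y k) * (Mi *ᵥ s k.succ) i| ≤ u * C := by
    refine (Finset.abs_sum_le_sum_abs _ _).trans ?_
    have : ∑ k : Fin u, |(T k.succ - a k.succ / a 0 * T 0 - y k) * (Mi *ᵥ s k.succ) i| ≤ ∑ k : Fin u, C := by
      apply Finset.sum_le_sum
      intro k _
      rw [abs_mul]
      calc |T k.succ - a k.succ / a 0 * T 0 - y k| * |(Mi *ᵥ s k.succ) i| ≤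
            |T k.succ - a k.succ / a 0 * T 0 - y k| * (C * 2 ^ n) :=
              mul_le_mul_of_nonneg_left (h2 k i) (abs_nonneg _)
        _ = (2 ^ n * |T k.succ - a k.succ / a 0 * T 0 - y k|) * C := by ring
        _ ≤ 1 * C := mul_le_mul_of_nonneg_right (hy k) hC
        _ = C := one_mul C
    rw [Finset.sum_const, Finset.card_univ, Fintype.card_fin, nsmul_eq_mul] at this
    exact this
  have b3 : |(∑ k : Fin u, η k.succ * (T k.succ - a k.succ / a 0 * T 0 - y k)) * (Mi *ᵥ b 0) i| ≤ u * C := by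
    rw [Finset.sum_mul]
    refine (Finset.abs_sum_le_sum_abs _ _).trans ?_
    have : ∑ k : Fin u, |η k.succ * (T k.succ - a k.succ / a 0 * T 0 - y k) * (Mi *ᵥ b 0) i| ≤
        ∑ k : Fin u, C := by
      apply Finset.sum_le_sum
      intro k _
      rw [abs_mul, abs_mul]
      calc |η k.succ| * |T k.succ - a k.succ / a 0 * T 0 - y k| * |(Mi *ᵥ b 0) i| =
            (|η k.succ| * |(Mi *ᵥ b 0) i|) * |T k.succ - a k.succ / a 0 * T 0 - y k| := by ring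
        _ ≤ (C * 2 ^ n) * |T k.succ - a k.succ / a 0 * T 0 - y k| :=
              mul_le_mul_of_nonneg_right (h3 k i) (abs_nonneg _)
        _ = (2 ^ n * |T k.succ - a k.succ / a 0 * T 0 - y k|) * C := by ring
        _ ≤ 1 * C := mul_le_mul_of_nonneg_right (hy k) hC
        _ = C := one_mul C
    rw [Finset.sum_const, Finset.card_univ, Fintype.card_fin, nsmul_eq_mul] at this
    exact this
  have b4 : |∑ k : Fin u, η k.succ * (T k.succ - Th k) * ((Mi *ᵥ b k.succ) i - (Mi *ᵥ b 0) i)| ≤ u * C := by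
    refine (Finset.abs_sum_le_sum_abs _ _).trans ?_
    have : ∑ k : Fin u, |η k.succ * (T k.succ - Th k) * ((Mi *ᵥ b k.succ) i - (Mi *ᵥ b 0) i)| ≤
        ∑ k : Fin u, C := by
      apply Finset.sum_le_sum
      intro k _
      rw [abs_mul, abs_mul]
      calc |η k.succ| * |T k.succ - Th k| * |(Mi *ᵥ b k.succ) i - (Mi *ᵥ b 0) i| =
            (|η k.succ| * |(Mi *ᵥ b k.succ) i - (Mi *ᵥ b 0) i|) * |T k.succ - Th k| := by ring
        _ ≤ (C * 2 ^ J) * |T k.succ - Th k| := mul_le_mul_of_nonneg_right (h4 k i) (abs_nonneg _)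
        _ = (2 ^ J * |T k.succ - Th k|) * C := by ring
        _ ≤ 1 * C := mul_le_mul_of_nonneg_right (hTh k) hC
        _ = C := one_mul C
    rw [Finset.sum_const, Finset.card_univ, Fintype.card_fin, nsmul_eq_mul] at this
    exact this
  have b5 : |∑ k, η k * ((Mi *ᵥ Cc k) i - T k * (Mi *ᵥ b k) i - (Mi *ᵥ o k) i)| ≤ (u + 1) * C := by
    refine (Finset.abs_sum_le_sum_abs _ _).trans ?_
    have : ∑ k : Fin (u + 1), |η k * ((Mi *ᵥ Cc k) i - T k * (Mi *ᵥ b k) i - (Mi *ᵥ o k) i)| ≤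
        ∑ k : Fin (u + 1), C := by
      apply Finset.sum_le_sum
      intro k _
      rw [abs_mul]
      exact h5 k i
    rw [Finset.sum_const, Finset.card_univ, Fintype.card_fin, nsmul_eq_mul] at this
    push_cast at this
    exact this
  have b1 := h1 i
  rw [abs_le] at b1 b2 b3 b4 b5 ⊢
  constructor <;> linarith

/-- **LEMMA N** (ns_notes_58, section 3), one frame vector `v`, all levels `t < L`: `G` is the data of the
chain (base, points, unused carriers, end centre), `rec` the records of the used carriers, `T k`, `Cc k` the two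
components of the used carriers, `(η k, s k)` the small vectors of the units, `v = ∑ a k s k` -/
theorem lemF {r u : ℕ} (μ : Ω → ℝ) (μ' : Ω' → ℝ) (π : Ω' → Ω) (hμ' : ∀ ω, 0 ≤ μ' ω)
    (hm : mass μ' = 1) (hπ : push π μ' = μ) (z : Ω → Fin r → ℝ) (Y : Ω → δ) (G : Ω' → γ) (rec : Ω' → ρ)
    (M : ℕ → Ω → Mt r) (g R0 D l0 L n : ℕ) (v : Ω → Fin r → ℝ)
    (T : Fin (u + 1) → Ω' → ℝ) (Cc : Fin (u + 1) → Ω' → Fin r → ℝ) (η : Fin (u + 1) → Ω' → ℝ)
    (s : Fin (u + 1) → Ω' → Fin r → ℝ) (a : Fin (u + 1) → Ω' → ℝ) (X : Ω' → ℕ) (ze : Ω' → Fin r → ℝ)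
    (b o : ℕ → Fin (u + 1) → Ω' → Fin r → ℝ) (E : ℕ → Ω' → Prop) (C d0 e : ℝ)
    (hC : 1 ≤ C) (hg : R0 ≤ g) (hD : D ≤ R0)
    (hYM : ∀ t, ∀ ω ω', μ' ω ≠ 0 → μ' ω' ≠ 0 → Y (π ω) = Y (π ω') → M t (π ω) = M t (π ω'))
    (hYv : ∀ ω ω', μ' ω ≠ 0 → μ' ω' ≠ 0 → Y (π ω) = Y (π ω') → v (π ω) = v (π ω'))
    (hGY : ∀ ω ω', μ' ω ≠ 0 → μ' ω' ≠ 0 → G ω = G ω' → Y (π ω) = Y (π ω'))
    (hG : ∀ ω ω', μ' ω ≠ 0 → μ' ω' ≠ 0 → G ω = G ω' →
      (∀ k, η k ω = η k ω' ∧ s k ω = s k ω' ∧ a k ω = a k ω') ∧ X ω = X ω' ∧ ze ω = ze ω')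
    (hbo : ∀ t < L, ∀ ω ω', μ' ω ≠ 0 → μ' ω' ≠ 0 → G ω = G ω' → rec ω = rec ω' →
      (∀ k, fl (l0 + t * D + X ω) (T k ω) = fl (l0 + t * D + X ω) (T k ω')) →
      ∀ k, b t k ω = b t k ω' ∧ o t k ω = o t k ω')
    (hT : ∀ k ω, μ' ω ≠ 0 → 0 ≤ T k ω ∧ T k ω ≤ 1)
    (ha : ∀ ω, μ' ω ≠ 0 → 2 ^ X ω ≤ C * |(a 0 ω)⁻¹| ∧ |(a 0 ω)⁻¹| ≤ C * 2 ^ X ω)
    (hak : ∀ ω, μ' ω ≠ 0 → ∀ k : Fin u, |a k.succ ω / a 0 ω| ≤ C)
    (hn : ∀ ω, μ' ω ≠ 0 → l0 + L * D + X ω ≤ n)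
    (hM : ∀ t < L, ∀ ω, μ' ω ≠ 0 → (M t (π ω)).det ≠ 0)
    (hv : ∀ t < L, ∀ ω, μ' ω ≠ 0 → ∀ i, |((M t (π ω))⁻¹ *ᵥ v (π ω)) i| ≤ C * 2 ^ (l0 + t * D + D))
    (hcount : (u + 1) * n - d0 ≤ CH μ' (fun ω => fun k => fl n (T k ω)) G)
    (hrec : CH μ' rec G ≤ e)
    (hE : ∀ t < L, ∀ ω, μ' ω ≠ 0 → E t ω → v (π ω) = ∑ k, a k ω • s k ω ∧ ∑ k, a k ω * η k ω = 0 ∧
      (∀ i, |((M t (π ω))⁻¹ *ᵥ (z (π ω) - ze ω - ∑ k, (T k ω • s k ω - η k ω • Cc k ω))) i| ≤ C) ∧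
      (∀ (k : Fin u) i, |((M t (π ω))⁻¹ *ᵥ s k.succ ω) i| ≤ C * 2 ^ n) ∧
      (∀ (k : Fin u) i, |η k.succ ω| * |((M t (π ω))⁻¹ *ᵥ b t 0 ω) i| ≤ C * 2 ^ n) ∧
      (∀ (k : Fin u) i, |η k.succ ω| * |((M t (π ω))⁻¹ *ᵥ (b t k.succ ω - b t 0 ω)) i| ≤
        C * 2 ^ (l0 + t * D + X ω)) ∧
      (∀ k i, |η k ω| * |((M t (π ω))⁻¹ *ᵥ (Cc k ω - T k ω • b t k ω - o t k ω)) i| ≤ C)) :
    ∑ t ∈ range L, NsV μ z Y (M t) g R0 (fun ω => ((1 : ℝ) / 2) ^ (l0 + t * D) • v ω) ≤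
      (d0 + e + cF1 u C) + L * cF2 r u C + (D + cF3 r u C) *
        ∑ t ∈ range L, mass (res μ' (fun ω => ¬ E t ω)) := by
  have hC0 : 0 ≤ C := by linarith
  have hCp : 0 < C := by linarith
  have ha0 : ∀ ω, μ' ω ≠ 0 → a 0 ω ≠ 0 := by
    intro ω x h
    have h1 := (ha ω x).1
    rw [h, _root_.inv_zero, abs_zero, mul_zero] at h1
    have : (0 : ℝ) < 2 ^ X ω := by positivity
    linarith
  set c : Fin u → Ω' → ℝ := fun k ω => a k.succ ω / a 0 ω with hc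
  set fo : Ω' → (Fin u → ℤ) := fun ω => fun k => fl n (T k.succ ω - c k ω * T 0 ω) with hfo
  set τ : Ω' → ℝ := fun ω => T 0 ω / a 0 ω with hτ
  have hτ' : ∀ ω, τ ω = (a 0 ω)⁻¹ * T 0 ω := fun ω => by simp only [hτ]; ring
  set ce : ℕ → Ω' → (Fin (u + 1) → ℤ) := fun t ω => fun k => fl (l0 + t * D + X ω) (T k ω) with hce
  set K0 : Ω' → ρ × ((Fin u → ℤ) × γ) := fun ω => (rec ω, (fo ω, G ω)) with hK0
  set z0 : ℕ → Ω' → Fin r → ℝ := fun t ω => ze ω + ∑ k : Fin u, ((fo ω k : ℝ) / 2 ^ n) • s k.succ ω -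
    (∑ k : Fin u, η k.succ ω * ((fo ω k : ℝ) / 2 ^ n)) • b t 0 ω -
    ∑ k : Fin u, (η k.succ ω * ((ce t ω k.succ : ℝ) / 2 ^ (l0 + t * D + X ω))) • (b t k.succ ω - b t 0 ω) -
    ∑ k, η k ω • o t k ω with hz0
  -- the count
  have c1 := forms_count μ' hμ' hm G T c n C d0 hC0 hT
    (fun ω ω' x x' h k => by
      have h2 := (hG ω ω' x x' h).1
      simp only [hc]
      rw [(h2 k.succ).2.2, (h2 0).2.2])
    (fun k ω x => hak ω x k) hcount
  have c2 := scale_count μ' hμ' hm (fun ω => (fo ω, G ω)) (T 0) (fun ω => (a 0 ω)⁻¹) X n l0 (l0 + L * D) C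
    (d0 + cK u C) hCp (fun ω x => hT 0 ω x)
    (fun ω ω' x x' h => by
      have h2 := (hG ω ω' x x' (Prod.mk.inj h).2).1
      rw [(h2 0).2.2])
    (fun ω ω' x x' h => (hG ω ω' x x' (Prod.mk.inj h).2).2.1) ha hn c1
  have hτe : (fun ω => (a 0 ω)⁻¹ * T 0 ω) = τ := by
    funext ω
    rw [hτ']
  have e1 : (fun ω => fl (l0 + L * D) ((a 0 ω)⁻¹ * T 0 ω)) = fun ω => fl (l0 + L * D) (τ ω) := by
    funext ω
    rw [hτ']
  have e2 : (fun ω => (fl l0 ((a 0 ω)⁻¹ * T 0 ω), (fo ω, G ω))) = fun ω => (fl l0 (τ ω), (fo ω, G ω)) := by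
    funext ω
    rw [hτ']
  rw [e1, e2] at c2
  have c3 := ch_symm μ' (fun ω => fl (l0 + L * D) (τ ω)) rec (fun ω => (fl l0 (τ ω), (fo ω, G ω)))
  have c4 := ch_nonneg μ' hμ' rec (fun ω => (fl (l0 + L * D) (τ ω), (fl l0 (τ ω), (fo ω, G ω))))
  have c5 := ch_cond μ' hμ' rec G (fun ω => (fl l0 (τ ω), (fo ω, G ω)))
    (fun ω ω' _ _ h => (Prod.mk.inj (Prod.mk.inj h).2).2)
  have c6 : CH μ' (fun ω => fl (l0 + L * D) (τ ω)) (fun ω => (rec ω, (fl l0 (τ ω), (fo ω, G ω)))) =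
      CH μ' (fun ω => fl (l0 + L * D) (τ ω)) (fun ω => (fl l0 (τ ω), K0 ω)) := by
    apply ch_congr_right
    intro ω ω' _ _
    simp only [hK0, Prod.mk.injEq]
    constructor
    · rintro ⟨x1, x2, x3, x4⟩
      exact ⟨x2, x1, x3, x4⟩
    · rintro ⟨x1, x2, x3, x4⟩
      exact ⟨x2, x1, x3, x4⟩
  rw [c6] at c3
  have hd : (L : ℝ) * D - (d0 + e + cF1 u C) ≤
      CH μ' (fun ω => fl (l0 + L * D) (τ ω)) (fun ω => (fl l0 (τ ω), K0 ω)) := by
    push_cast at c2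
    unfold cF1
    linarith
  -- the cells of the carriers
  have hcc : ∀ t < L, CH μ' (ce t) (fun ω => (fl (l0 + t * D) (τ ω), K0 ω)) ≤
      (u + 1 : ℕ) * Real.logb 2 (C * C + C + 2 + 1) := by
    intro t ht
    have h3 := st_E3.2 _ _ (u + 1) μ' (ce t) (fun ω => (fl (l0 + t * D) (τ ω), K0 ω)) (C * C + C + 2) hμ'
      (by positivity) (by
      intro ω ω' x x' h k
      simp only [hK0, Prod.mk.injEq] at h
      obtain ⟨h1, -, h2, h3⟩ := h
      obtain ⟨g1, g2, -⟩ := hG ω ω' x x' h3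
      simp only [hce]
      rw [← g2]
      set J := l0 + t * D + X ω with hJ
      have hJn : J ≤ n := by
        have h4 := hn ω x
        have h5 : t * D ≤ L * D := Nat.mul_le_mul_right D ht.le
        omega
      have n1 := fl_eq_near (l0 + t * D) _ _ h1
      have hT0 : 2 ^ J * |T 0 ω - T 0 ω'| ≤ C := by
        have h4 : T 0 ω - T 0 ω' = a 0 ω * (τ ω - τ ω') := by
          simp only [hτ]
          rw [← (g1 0).2.2]
          have := ha0 ω x
          field_simp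
        have h5 : 2 ^ X ω * |a 0 ω| ≤ C := by
          have h6 := (ha ω x).1
          rw [abs_inv] at h6
          have h7 : 0 < |a 0 ω| := abs_pos.mpr (ha0 ω x)
          calc 2 ^ X ω * |a 0 ω| ≤ (C * |a 0 ω|⁻¹) * |a 0 ω| := mul_le_mul_of_nonneg_right h6 h7.le
            _ = C := by rw [mul_assoc, inv_mul_cancel₀ h7.ne', mul_one]
        rw [h4, abs_mul, hJ, pow_add]
        calc 2 ^ (l0 + t * D) * 2 ^ X ω * (|a 0 ω| * |τ ω - τ ω'|) =
              (2 ^ X ω * |a 0 ω|) * (2 ^ (l0 + t * D) * |τ ω - τ ω'|) := by ring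
          _ ≤ C * 1 := mul_le_mul h5 n1 (by positivity) hC0
          _ = C := mul_one C
      refine Fin.cases ?_ (fun i => ?_) k
      · refine (fl_lip J _ _ C hT0).trans ?_
        nlinarith
      · have h4 := congrFun h2 i
        simp only [hfo] at h4
        have hci : c i ω' = c i ω := by simp only [hc]; rw [(g1 i.succ).2.2, (g1 0).2.2]
        rw [hci] at h4
        have n2 := fl_eq_near n _ _ h4
        have h5 : 2 ^ J * |T i.succ ω - T i.succ ω'| ≤ 1 + C * C := by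
          have h6 : T i.succ ω - T i.succ ω' = (T i.succ ω - c i ω * T 0 ω - (T i.succ ω' - c i ω * T 0 ω')) +
              c i ω * (T 0 ω - T 0 ω') := by ring
          have h7 := abs_add_le (T i.succ ω - c i ω * T 0 ω - (T i.succ ω' - c i ω * T 0 ω'))
            (c i ω * (T 0 ω - T 0 ω'))
          rw [← h6, abs_mul (c i ω)] at h7
          have hJp : (0 : ℝ) < 2 ^ J := by positivity
          have h8 := mul_le_mul_of_nonneg_left h7 hJp.le
          rw [mul_add] at h8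
          have h9 : 2 ^ J * |T i.succ ω - c i ω * T 0 ω - (T i.succ ω' - c i ω * T 0 ω')| ≤ 1 := by
            refine le_trans ?_ n2
            exact mul_le_mul_of_nonneg_right (pow_le_pow_right₀ (by norm_num) hJn) (abs_nonneg _)
          have h10 : 2 ^ J * (|c i ω| * |T 0 ω - T 0 ω'|) ≤ C * C := by
            calc 2 ^ J * (|c i ω| * |T 0 ω - T 0 ω'|) = |c i ω| * (2 ^ J * |T 0 ω - T 0 ω'|) := by ring
              _ ≤ C * C := mul_le_mul (hak ω x i) hT0 (by positivity) hC0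
          linarith
        refine (fl_lip J _ _ _ h5).trans ?_
        linarith)
    rw [hm, mul_one] at h3
    exact h3
  have hC1 : 1 ≤ C * (4 * u + 2) := by
    have : (0 : ℝ) ≤ u := Nat.cast_nonneg u
    nlinarith
  have hCle : C ≤ C * (4 * u + 2) := by
    have : (0 : ℝ) ≤ u := Nat.cast_nonneg u
    nlinarith
  have main := lemN μ μ' π hμ' hm hπ z Y K0 M g R0 D l0 L v z0 τ ce E (C * (4 * u + 2))
    ((u + 1 : ℕ) * Real.logb 2 (C * C + C + 2 + 1)) (d0 + e + cF1 u C) hC1 hg hD hYM hYv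
    (fun ω ω' x x' h => by
      simp only [hK0, Prod.mk.injEq] at h
      exact hGY ω ω' x x' h.2.2)
    (fun t ht ω ω' x x' h h' _ => by
      simp only [hK0, Prod.mk.injEq] at h
      obtain ⟨h1, h2, h3⟩ := h
      obtain ⟨g1, g2, g3⟩ := hG ω ω' x x' h3
      have h4 := hbo t ht ω ω' x x' h3 h1 (fun k => by
        have h5 := congrFun h' k
        simp only [hce] at h5
        rw [g2]
        rw [g2] at h5
        exact h5)
      have f1 : ∀ k, η k ω = η k ω' := fun k => (g1 k).1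
      have f2 : ∀ k, s k ω = s k ω' := fun k => (g1 k).2.1
      have f3 : ∀ k, b t k ω = b t k ω' := fun k => (h4 k).1
      have f4 : ∀ k, o t k ω = o t k ω' := fun k => (h4 k).2
      simp only [hz0, h2, h', g2, g3, f1, f2, f3, f4])
    hM
    (fun t ht ω x hEt i => by
      obtain ⟨q1, q2, q3, q4, q5, q6, q7⟩ := hE t ht ω x hEt
      have hfln : ∀ (m : ℕ) (w : ℝ), 2 ^ m * |w - (fl m w : ℝ) / 2 ^ m| ≤ 1 := by
        intro m w
        have hmp : (0 : ℝ) < 2 ^ m := by positivity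
        have a1 := Int.floor_le ((2 : ℝ) ^ m * w)
        have a2 := Int.lt_floor_add_one ((2 : ℝ) ^ m * w)
        have h1 : 2 ^ m * |w - (fl m w : ℝ) / 2 ^ m| = |2 ^ m * w - fl m w| := by
          rw [← abs_of_pos hmp, ← abs_mul, abs_of_pos hmp, mul_sub]
          congr 2
          field_simp
        rw [h1]
        unfold fl
        rw [abs_le]
        constructor <;> linarith
      have h1 := walk_err (M t (π ω))⁻¹ (fun k => T k ω) (fun k => Cc k ω) (fun k => η k ω) (fun k => s k ω)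
        (fun k => a k ω) (ze ω) (z (π ω)) (v (π ω)) (fun k => b t k ω) (fun k => o t k ω)
        (fun k => (fo ω k : ℝ) / 2 ^ n) (fun k => (ce t ω k.succ : ℝ) / 2 ^ (l0 + t * D + X ω)) (ha0 ω x) q1 q2 n
        (l0 + t * D + X ω) C hC0 (fun k => hfln n _) (fun k => hfln _ _) q3 q4 q5 q6 q7 i
      exact h1)
    (fun t ht ω x i => (hv t ht ω x i).trans (mul_le_mul_of_nonneg_right hCle (by positivity)))
    hcc hd
  unfold cF2 cF3
  exact main

end Pool.Agent.Helper15.VG
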