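import Pool.Agent.Helper15.VG.Flt

/-!
# Vector W in fibres: the cost of a growth of the frame
-/

set_option autoImplicit false

namespace Pool.Agent.Helper15.VG

open Finset Matrix Pool.Agent.Helper69.RK Pool.Agent.Helper15.VW Pool.Agent.Helper26.VW
open Pool.Agent.Helper61.GL hiding fl
open Pool.Agent.Helper92.W (fl)

variable {Ω α β γ δ ξ κ ζ : Type} [Fintype Ω]

theorem pf_scale {b : ℕ} (M : Mt b) (N : ℕ) (z : Fin b → ℝ) : pf M N z = pf (((1 : ℝ) / 2) ^ N • M) 0 z := by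
  have h0 : ((1 : ℝ) / 2) ^ N ≠ 0 := by positivity
  have h2 : (((1 : ℝ) / 2) ^ N • M)⁻¹ = ((2 : ℝ) ^ N) • M⁻¹ := by
    have h3 : IsUnit (((1 : ℝ) / 2) ^ N) := isUnit_iff_ne_zero.mpr h0
    by_cases hM : IsUnit M.det
    · apply Matrix.inv_eq_left_inv
      rw [Matrix.smul_mul, Matrix.mul_smul, Matrix.nonsing_inv_mul _ hM, smul_smul, ← mul_pow]
      norm_num
    · have h4 : ¬ IsUnit (((1 : ℝ) / 2) ^ N • M).det := by
        rw [Matrix.det_smul, isUnit_iff_ne_zero, not_not]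
        rw [isUnit_iff_ne_zero, not_not] at hM
        rw [hM, mul_zero]
      rw [Matrix.nonsing_inv_apply_not_isUnit _ hM, Matrix.nonsing_inv_apply_not_isUnit _ h4, smul_zero]
  funext k
  unfold pf
  rw [h2, Matrix.smul_mulVec, Pi.smul_apply, smul_eq_mul, pow_zero, one_mul]

/-- number of cells of a fine frame in a cell of a coarse one, frames depending on the condition -/
theorem fr_cells {b : ℕ} (μ : Ω → ℝ) (hμ : ∀ ω, 0 ≤ μ ω) (z : Ω → Fin b → ℝ) (Y : Ω → δ)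
    (M M' : Ω → Mt b)
    (hY : ∀ ω ω', μ ω ≠ 0 → μ ω' ≠ 0 → Y ω = Y ω' → M ω = M ω' ∧ M' ω = M' ω')
    (hM : ∀ ω, μ ω ≠ 0 → (M ω).det ≠ 0) (hM' : ∀ ω, μ ω ≠ 0 → (M' ω).det ≠ 0) (C : ℝ) (hC : 0 ≤ C)
    (h : ∀ ω, μ ω ≠ 0 → Bdd C ((M' ω)⁻¹ * M ω)) :
    CH μ (fun ω => pf (M ω) 0 (z ω)) (fun ω => (pf (M' ω) 0 (z ω), Y ω)) ≤
      ∑ ω, μ ω * (b * Real.logb 2 (2 * (1 + 2 * (b * C))) +
        (Real.logb 2 |(M' ω).det| - Real.logb 2 |(M ω).det|)) := by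
  classical
  have h2 : CH μ (fun ω => pf (M ω) 0 (z ω)) (fun ω => (pf (M' ω) 0 (z ω), Y ω)) ≤
      ∑ ω, μ ω * Real.logb 2 ((2 * (1 + 2 * (b * C))) ^ b / |((M' ω)⁻¹ * M ω).det|) := by
    apply e3_card μ _ _ (fun ω => (2 * (1 + 2 * (b * C))) ^ b / |((M' ω)⁻¹ * M ω).det|) hμ
    intro ω h0
    have hX : ((M' ω)⁻¹ * M ω).det ≠ 0 := by
      rw [det_mul, det_nonsing_inv, Ring.inverse_eq_inv']
      exact mul_ne_zero (inv_ne_zero (hM' ω h0)) (hM ω h0)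
    rw [le_div_iff₀ (abs_pos.mpr hX)]
    have h4 : 2 * (1 + 2 * (b * C)) = 2 * (1 + b * C + b * C) := by ring
    rw [h4]
    refine cnt ((M' ω)⁻¹ * M ω) C (1 + b * C) hC (by positivity) (h ω h0) _ (fun i => pf (M' ω) 0 (z ω) i) ?_
    intro k hk i
    obtain ⟨ω', hω', rfl⟩ := e3_mem_image hk
    have hω2 := (@Finset.mem_filter _ _ (_) _ _).mp hω'
    obtain ⟨e, e'⟩ := Prod.mk.inj hω2.2.2
    obtain ⟨y1, y2⟩ := hY ω' ω hω2.2.1 h0 e'
    rw [y2] at e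
    rw [y1]
    have e1 : ((M' ω)⁻¹ *ᵥ z ω') = ((M' ω)⁻¹ * M ω) *ᵥ ((M ω)⁻¹ *ᵥ z ω') := by
      rw [Matrix.mulVec_mulVec, Matrix.mul_assoc, Matrix.mul_nonsing_inv _ (isUnit_iff_ne_zero.2 (hM ω h0)),
        Matrix.mul_one]
    have e2 : |(((M' ω)⁻¹ * M ω) *ᵥ (fun j => ((M ω)⁻¹ *ᵥ z ω') j - (pf (M ω) 0 (z ω') j : ℝ))) i| ≤
        b * (C * 1) := by
      apply mulVec_abs hC (h ω h0)
      intro j
      have := pf_zero (M ω) (z ω') j
      rw [abs_le]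
      constructor <;> linarith
    have e3 : (((M' ω)⁻¹ * M ω) *ᵥ (fun j => ((M ω)⁻¹ *ᵥ z ω') j - (pf (M ω) 0 (z ω') j : ℝ))) i =
        ((M' ω)⁻¹ *ᵥ z ω') i - (((M' ω)⁻¹ * M ω) *ᵥ (fun j => (pf (M ω) 0 (z ω') j : ℝ))) i := by
      rw [e1]
      simp only [Matrix.mulVec, dotProduct, mul_sub, Finset.sum_sub_distrib]
    have e4 := pf_zero (M' ω) (z ω') i
    rw [e3, abs_le] at e2
    rw [← e, abs_le]
    constructor <;> linarith
  refine h2.trans (le_of_eq ?_)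
  apply Finset.sum_congr rfl
  intro ω _
  by_cases h0 : μ ω = 0
  · rw [h0, zero_mul, zero_mul]
  · have hX : ((M' ω)⁻¹ * M ω).det ≠ 0 := by
      rw [det_mul, det_nonsing_inv, Ring.inverse_eq_inv']
      exact mul_ne_zero (inv_ne_zero (hM' ω h0)) (hM ω h0)
    have h5 : Real.logb 2 |((M' ω)⁻¹ * M ω).det| = Real.logb 2 |(M ω).det| - Real.logb 2 |(M' ω).det| := by
      rw [det_mul, abs_mul, det_nonsing_inv, Ring.inverse_eq_inv', abs_inv,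
        Real.logb_mul (inv_ne_zero (abs_ne_zero.mpr (hM' ω h0))) (abs_ne_zero.mpr (hM ω h0)), Real.logb_inv]
      ring
    rw [Real.logb_div (by positivity) (abs_ne_zero.mpr hX), Real.logb_pow, h5]
    ring

/-- the cost of one step -/
theorem kap {b : ℕ} (μ : Ω → ℝ) (hμ : ∀ ω, 0 ≤ μ ω) (τ τ' : Ω → ℝ) (y : Ω → Fin b → ℝ) (X : Ω → ξ)
    (G : Ω → γ) (M : ℕ → Ω → Mt b) (N0 D t : ℕ)
    (hY : ∀ t ω ω', μ ω ≠ 0 → μ ω' ≠ 0 → G ω = G ω' → M t ω = M t ω')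
    (hM : ∀ t ω, μ ω ≠ 0 → (M t ω).det ≠ 0) (C : ℝ) (hC : 0 ≤ C)
    (h : ∀ ω, μ ω ≠ 0 → Bdd C ((M (t + 1) ω)⁻¹ * M t ω)) :
    CH μ (Bat τ τ' y M N0 D t) (fun ω => (Bat τ τ' y M N0 D (t + 1) ω, (X ω, G ω))) ≤
      ∑ ω, μ ω * (b * Real.logb 2 (2 * (1 + 2 * (b * C))) +
        (Real.logb 2 |(M (t + 1) ω).det| - Real.logb 2 |(M t ω).det|)) := by
  classical
  have hlev : N0 + t * D ≤ N0 + (t + 1) * D := by
    have : t * D ≤ (t + 1) * D := Nat.mul_le_mul_right D (Nat.le_succ t)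
    omega
  set l := N0 + t * D + D with hl
  have h0 : ((1 : ℝ) / 2) ^ l ≠ 0 := by positivity
  have hp : 0 < ((1 : ℝ) / 2) ^ l := by positivity
  -- the prefixes are known
  have a1 : CH μ (Bat τ τ' y M N0 D t) (fun ω => (Bat τ τ' y M N0 D (t + 1) ω, (X ω, G ω))) ≤
      CH μ (fun ω => pf (((1 : ℝ) / 2) ^ l • M t ω) 0 (y ω))
        (fun ω => (pf (((1 : ℝ) / 2) ^ l • M (t + 1) ω) 0 (y ω), G ω)) := by
    have b1 : CH μ (Bat τ τ' y M N0 D t) (fun ω => (Bat τ τ' y M N0 D (t + 1) ω, (X ω, G ω))) ≤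
        CH μ (fun ω => pf (M t ω) l (y ω)) (fun ω => (Bat τ τ' y M N0 D (t + 1) ω, (X ω, G ω))) := by
      apply ch_mono μ hμ
      intro ω ω' _ _ e e'
      unfold Bat at e' ⊢
      simp only [Prod.mk.injEq] at e' ⊢
      exact ⟨⟨fl_coarse hlev e'.1.1.1, fl_coarse hlev e'.1.1.2⟩, e⟩
    refine b1.trans ?_
    have b2 : (fun ω => pf (M t ω) l (y ω)) = fun ω => pf (((1 : ℝ) / 2) ^ l • M t ω) 0 (y ω) := by
      funext ω
      exact pf_scale (M t ω) l (y ω)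
    rw [b2]
    apply ch_cond μ hμ
    intro ω ω' z z' e
    unfold Bat at e
    simp only [Prod.mk.injEq] at e ⊢
    refine ⟨?_, e.2.2⟩
    have e1 := e.1.2
    rw [← pf_scale, ← pf_scale]
    rw [hY (t + 1) ω ω' z z' e.2.2] at e1 ⊢
    exact pf_ref (by omega) e1
  refine a1.trans ?_
  have a2 := fr_cells μ hμ y G (fun ω => ((1 : ℝ) / 2) ^ l • M t ω) (fun ω => ((1 : ℝ) / 2) ^ l • M (t + 1) ω)
    (fun ω ω' z z' e => by
      rw [hY t ω ω' z z' e, hY (t + 1) ω ω' z z' e]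
      exact ⟨rfl, rfl⟩)
    (fun ω z => by
      rw [Matrix.det_smul]
      exact mul_ne_zero (pow_ne_zero _ h0) (hM t ω z))
    (fun ω z => by
      rw [Matrix.det_smul]
      exact mul_ne_zero (pow_ne_zero _ h0) (hM (t + 1) ω z)) C hC
    (fun ω z => by
      have h3 : (((1 : ℝ) / 2) ^ l • M (t + 1) ω)⁻¹ * (((1 : ℝ) / 2) ^ l • M t ω) = (M (t + 1) ω)⁻¹ * M t ω := by
        have h4 : (((1 : ℝ) / 2) ^ l • M (t + 1) ω)⁻¹ = ((2 : ℝ) ^ l) • (M (t + 1) ω)⁻¹ := by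
          apply Matrix.inv_eq_left_inv
          rw [Matrix.smul_mul, Matrix.mul_smul, Matrix.nonsing_inv_mul _
            (isUnit_iff_ne_zero.2 (hM (t + 1) ω z)), smul_smul, ← mul_pow]
          norm_num
        rw [h4, Matrix.smul_mul, Matrix.mul_smul, smul_smul, ← mul_pow]
        norm_num
      rw [h3]
      exact h ω z)
  refine a2.trans (le_of_eq ?_)
  apply Finset.sum_congr rfl
  intro ω _
  by_cases hz : μ ω = 0
  · rw [hz, zero_mul, zero_mul]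
  · rw [Matrix.det_smul, Matrix.det_smul, abs_mul, abs_mul, Real.logb_mul (by positivity)
      (abs_ne_zero.mpr (hM (t + 1) ω hz)), Real.logb_mul (by positivity) (abs_ne_zero.mpr (hM t ω hz))]
    ring

end Pool.Agent.Helper15.VG
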