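import Pool.Agent.Helper15.VG.Close2

/-!
# Vector W (ns_notes_6d, sect. 4): LEMMA N, one noise vector, all levels
-/

set_option autoImplicit false

namespace Pool.Agent.Helper15.VG

open Finset Matrix Pool.Agent.Helper69.RK Pool.Agent.Helper15.VW Pool.Agent.Helper26.VW
open Pool.Agent.Helper61.GL hiding fl
open Pool.Agent.Helper92.W (fl)

variable {Ω Ω' α β γ δ ξ κ ζ χ : Type} [Fintype Ω] [Fintype Ω']

theorem fl_fract (l D : ℕ) (x : ℝ) : fl D ((2 : ℝ) ^ l * x - fl l x) = fl (l + D) x - 2 ^ D * fl l x := by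
  unfold fl
  have h : (2 : ℝ) ^ D * (2 ^ l * x - (⌊(2 : ℝ) ^ l * x⌋ : ℝ)) =
      2 ^ (l + D) * x - ((2 ^ D * ⌊(2 : ℝ) ^ l * x⌋ : ℤ) : ℝ) := by
    push_cast
    rw [pow_add]
    ring
  rw [h, Int.floor_sub_intCast]

/-- **LEMMA N** (ns_notes_6d (4.1'), (4.3)): `K0` contains the end of the path, the frozen carriers, the forms
and the base; `ce t` are the cells of the carriers at time `t`; the noise vector `v` does not depend on `t` -/
theorem lemN {r : ℕ} (μ : Ω → ℝ) (μ' : Ω' → ℝ) (π : Ω' → Ω) (hμ' : ∀ ω, 0 ≤ μ' ω)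
    (hm : mass μ' = 1) (hπ : push π μ' = μ) (z : Ω → Fin r → ℝ) (Y : Ω → δ) (K0 : Ω' → κ)
    (M : ℕ → Ω → Mt r) (g R0 D l0 L : ℕ) (v : Ω → Fin r → ℝ) (z0 : ℕ → Ω' → Fin r → ℝ) (τ : Ω' → ℝ)
    (ce : ℕ → Ω' → χ) (E : ℕ → Ω' → Prop) (C cc d : ℝ) (hC : 1 ≤ C) (hg : R0 ≤ g) (hD : D ≤ R0)
    (hYM : ∀ t, ∀ ω ω', μ' ω ≠ 0 → μ' ω' ≠ 0 → Y (π ω) = Y (π ω') → M t (π ω) = M t (π ω'))
    (hYv : ∀ ω ω', μ' ω ≠ 0 → μ' ω' ≠ 0 → Y (π ω) = Y (π ω') → v (π ω) = v (π ω'))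
    (hKY : ∀ ω ω', μ' ω ≠ 0 → μ' ω' ≠ 0 → K0 ω = K0 ω' → Y (π ω) = Y (π ω'))
    (hKz : ∀ t < L, ∀ ω ω', μ' ω ≠ 0 → μ' ω' ≠ 0 → K0 ω = K0 ω' → ce t ω = ce t ω' →
      fl (l0 + t * D) (τ ω) = fl (l0 + t * D) (τ ω') → z0 t ω = z0 t ω')
    (hM : ∀ t < L, ∀ ω, μ' ω ≠ 0 → (M t (π ω)).det ≠ 0)
    (hz : ∀ t < L, ∀ ω, μ' ω ≠ 0 → E t ω → ∀ i,
      |((M t (π ω))⁻¹ *ᵥ (z (π ω) - z0 t ω - τ ω • v (π ω))) i| ≤ C)
    (hv : ∀ t < L, ∀ ω, μ' ω ≠ 0 → ∀ i, |((M t (π ω))⁻¹ *ᵥ v (π ω)) i| ≤ C * 2 ^ (l0 + t * D + D))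
    (hce : ∀ t < L, CH μ' (ce t) (fun ω => (fl (l0 + t * D) (τ ω), K0 ω)) ≤ cc)
    (hd : L * D - d ≤ CH μ' (fun ω => fl (l0 + L * D) (τ ω)) (fun ω => (fl l0 (τ ω), K0 ω))) :
    ∑ t ∈ range L, NsV μ z Y (M t) g R0 (fun ω => ((1 : ℝ) / 2) ^ (l0 + t * D) • v ω) ≤
      d + L * (cC r C + 2 + cc) + (D + (cT r C + Real.logb 2 (2 * C + 2))) *
        ∑ t ∈ range L, mass (res μ' (fun ω => ¬ E t ω)) := by
  have key : ∀ t ∈ range L, NsV μ z Y (M t) g R0 (fun ω => ((1 : ℝ) / 2) ^ (l0 + t * D) • v ω) ≤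
      (D - CH μ' (fun ω => fl (l0 + (t + 1) * D) (τ ω)) (fun ω => (fl (l0 + t * D) (τ ω), K0 ω))) +
      (cC r C + 2 + cc) + (D + (cT r C + Real.logb 2 (2 * C + 2))) * mass (res μ' (fun ω => ¬ E t ω)) := by
    intro t ht
    rw [Finset.mem_range] at ht
    set l := l0 + t * D with hl
    have hlD : l0 + (t + 1) * D = l + D := by rw [hl]; ring
    have hp : ((1 : ℝ) / 2) ^ l * 2 ^ l = 1 := by rw [← mul_pow]; norm_num
    have hp0 : (0 : ℝ) < (1 / 2) ^ l := by positivity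
    set K : Ω' → χ × ℤ × κ := fun ω => (ce t ω, fl l (τ ω), K0 ω) with hK
    have hKin : ∀ ω ω', K ω = K ω' → ce t ω = ce t ω' ∧ fl l (τ ω) = fl l (τ ω') ∧ K0 ω = K0 ω' := by
      intro ω ω' e
      simp only [hK, Prod.mk.injEq] at e
      exact e
    have h1 := close_push μ μ' π hμ' hm hπ z Y K (M t) g R0 D (fun ω => ((1 : ℝ) / 2) ^ l • v ω)
      (fun ω => z0 t ω + ((fl l (τ ω) : ℝ) * (1 / 2) ^ l) • v (π ω))
      (fun ω => 2 ^ l * τ ω - fl l (τ ω)) (E t) C hC hg hD (hYM t)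
      (fun ω ω' a a' e => by rw [hYv ω ω' a a' e])
      (fun ω ω' a a' e => hKY ω ω' a a' (hKin ω ω' e).2.2)
      (fun ω ω' a a' e => by
        obtain ⟨e1, e2, e3⟩ := hKin ω ω' e
        rw [hKz t ht ω ω' a a' e3 e1 e2, e2, hYv ω ω' a a' (hKY ω ω' a a' e3)])
      (hM t ht)
      (fun ω a hE i => by
        have h2 := hz t ht ω a hE i
        have h3 : z (π ω) - (z0 t ω + ((fl l (τ ω) : ℝ) * (1 / 2) ^ l) • v (π ω)) -
            (2 ^ l * τ ω - fl l (τ ω)) • (((1 : ℝ) / 2) ^ l • v (π ω)) = z (π ω) - z0 t ω - τ ω • v (π ω) := by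
          funext k
          simp only [Pi.sub_apply, Pi.add_apply, Pi.smul_apply, smul_eq_mul]
          have : (2 ^ l * τ ω - (fl l (τ ω) : ℝ)) * ((1 / 2) ^ l * v (π ω) k) =
            ((1 / 2) ^ l * 2 ^ l) * (τ ω * v (π ω) k) - (fl l (τ ω) : ℝ) * (1 / 2) ^ l * v (π ω) k := by ring
          rw [this, hp]
          ring
        rw [h3]
        exact h2)
      (fun ω a => by
        have h2 := Int.floor_le ((2 : ℝ) ^ l * τ ω)
        have h3 := Int.lt_floor_add_one ((2 : ℝ) ^ l * τ ω)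
        unfold fl
        rw [abs_le]
        constructor <;> linarith)
      (fun ω a i => by
        have h2 := hv t ht ω a i
        rw [Matrix.mulVec_smul, Pi.smul_apply, smul_eq_mul, abs_mul, abs_of_pos hp0]
        calc ((1 : ℝ) / 2) ^ l * |((M t (π ω))⁻¹ *ᵥ v (π ω)) i| ≤ (1 / 2) ^ l * (C * 2 ^ (l + D)) :=
              mul_le_mul_of_nonneg_left h2 hp0.le
          _ = ((1 / 2) ^ l * 2 ^ l) * (C * 2 ^ D) := by rw [pow_add]; ring
          _ = C * 2 ^ D := by rw [hp, one_mul])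
    -- digits of the fractional part
    have h2 : CH μ' (fun ω => fl D (2 ^ l * τ ω - fl l (τ ω))) K = CH μ' (fun ω => fl (l + D) (τ ω)) K := by
      apply ch_congr_left
      intro ω ω' _ _ e
      rw [fl_fract, fl_fract, (hKin ω ω' e).2.1]
      exact sub_left_inj
    have h3 := ch_tri μ' hμ' (fun ω => fl (l + D) (τ ω)) (ce t) (fun ω => (fl l (τ ω), K0 ω))
    have h4 := hce t ht
    rw [h2] at h1
    rw [hlD]
    linarith
  have h1 := Finset.sum_le_sum key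
  rw [Finset.sum_add_distrib, Finset.sum_add_distrib, Finset.sum_sub_distrib, ← Finset.mul_sum,
    Finset.sum_const, Finset.sum_const, Finset.card_range, nsmul_eq_mul, nsmul_eq_mul] at h1
  have h2 := ch_tel μ' (fun t ω => fl (l0 + t * D) (τ ω)) K0 (by
    intro t ω ω' _ _ e
    refine fl_coarse ?_ e
    have : t * D ≤ (t + 1) * D := Nat.mul_le_mul_right D (Nat.le_succ t)
    omega) L
  have h3 : CH μ' (fun ω => fl (l0 + L * D) (τ ω)) (fun ω => (fl (l0 + 0 * D) (τ ω), K0 ω)) =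
      CH μ' (fun ω => fl (l0 + L * D) (τ ω)) (fun ω => (fl l0 (τ ω), K0 ω)) := by
    rw [zero_mul, add_zero]
  rw [h3] at h2
  rw [h2] at h1
  linarith

end Pool.Agent.Helper15.VG
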