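import Pool.Agent.Helper15.VG.Form

/-!
# FW, LEMMA N: one level
-/

set_option autoImplicit false

namespace Pool.Agent.Helper15.VG

open Finset Matrix Pool.Agent.Helper69.RK Pool.Agent.Helper15.VW Pool.Agent.Helper26.VW
open Pool.Agent.Helper61.GL hiding fl
open Pool.Agent.Helper92.W (fl)

variable {Ω Ω' α β γ δ ξ κ ζ χ ρ : Type} [Fintype Ω] [Fintype Ω']

/-- one level of LEMMA N; the label `K0` may depend on the level -/
theorem lemN_one {r : ℕ} (μ : Ω → ℝ) (μ' : Ω' → ℝ) (π : Ω' → Ω) (hμ' : ∀ ω, 0 ≤ μ' ω)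
    (hm : mass μ' = 1) (hπ : push π μ' = μ) (z : Ω → Fin r → ℝ) (Y : Ω → δ) (K0 : Ω' → κ)
    (M : Ω → Mt r) (g R0 D l : ℕ) (v : Ω → Fin r → ℝ) (z0 : Ω' → Fin r → ℝ) (τ : Ω' → ℝ)
    (ce : Ω' → χ) (E : Ω' → Prop) (C cc : ℝ) (hC : 1 ≤ C) (hg : R0 ≤ g) (hD : D ≤ R0)
    (hYM : ∀ ω ω', μ' ω ≠ 0 → μ' ω' ≠ 0 → Y (π ω) = Y (π ω') → M (π ω) = M (π ω'))
    (hYv : ∀ ω ω', μ' ω ≠ 0 → μ' ω' ≠ 0 → Y (π ω) = Y (π ω') → v (π ω) = v (π ω'))
    (hKY : ∀ ω ω', μ' ω ≠ 0 → μ' ω' ≠ 0 → K0 ω = K0 ω' → Y (π ω) = Y (π ω'))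
    (hKz : ∀ ω ω', μ' ω ≠ 0 → μ' ω' ≠ 0 → K0 ω = K0 ω' → ce ω = ce ω' →
      fl l (τ ω) = fl l (τ ω') → z0 ω = z0 ω')
    (hM : ∀ ω, μ' ω ≠ 0 → (M (π ω)).det ≠ 0)
    (hz : ∀ ω, μ' ω ≠ 0 → E ω → ∀ i, |((M (π ω))⁻¹ *ᵥ (z (π ω) - z0 ω - τ ω • v (π ω))) i| ≤ C)
    (hv : ∀ ω, μ' ω ≠ 0 → ∀ i, |((M (π ω))⁻¹ *ᵥ v (π ω)) i| ≤ C * 2 ^ (l + D))
    (hce : CH μ' ce (fun ω => (fl l (τ ω), K0 ω)) ≤ cc) :
    NsV μ z Y M g R0 (fun ω => ((1 : ℝ) / 2) ^ l • v ω) ≤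
      (D - CH μ' (fun ω => fl (l + D) (τ ω)) (fun ω => (fl l (τ ω), K0 ω))) + (cC r C + 2 + cc) +
        (D + (cT r C + Real.logb 2 (2 * C + 2))) * mass (res μ' (fun ω => ¬ E ω)) := by
  have hp : ((1 : ℝ) / 2) ^ l * 2 ^ l = 1 := by rw [← mul_pow]; norm_num
  have hp0 : (0 : ℝ) < (1 / 2) ^ l := by positivity
  set K : Ω' → χ × ℤ × κ := fun ω => (ce ω, fl l (τ ω), K0 ω) with hK
  have hKin : ∀ ω ω', K ω = K ω' → ce ω = ce ω' ∧ fl l (τ ω) = fl l (τ ω') ∧ K0 ω = K0 ω' := by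
    intro ω ω' e
    simp only [hK, Prod.mk.injEq] at e
    exact e
  have h1 := close_push μ μ' π hμ' hm hπ z Y K M g R0 D (fun ω => ((1 : ℝ) / 2) ^ l • v ω)
    (fun ω => z0 ω + ((fl l (τ ω) : ℝ) * (1 / 2) ^ l) • v (π ω))
    (fun ω => 2 ^ l * τ ω - fl l (τ ω)) E C hC hg hD hYM
    (fun ω ω' a a' e => by rw [hYv ω ω' a a' e])
    (fun ω ω' a a' e => hKY ω ω' a a' (hKin ω ω' e).2.2)
    (fun ω ω' a a' e => by
      obtain ⟨e1, e2, e3⟩ := hKin ω ω' e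
      rw [hKz ω ω' a a' e3 e1 e2, e2, hYv ω ω' a a' (hKY ω ω' a a' e3)])
    hM
    (fun ω a hE i => by
      have h2 := hz ω a hE i
      have h3 : z (π ω) - (z0 ω + ((fl l (τ ω) : ℝ) * (1 / 2) ^ l) • v (π ω)) -
          (2 ^ l * τ ω - fl l (τ ω)) • (((1 : ℝ) / 2) ^ l • v (π ω)) = z (π ω) - z0 ω - τ ω • v (π ω) := by
        funext k
        simp only [Pi.sub_apply, Pi.add_apply, Pi.smul_apply, smul_eq_mul]
        have : (2 ^ l * τ ω - (fl l (τ ω) : ℝ)) * ((1 / 2) ^ l * v (π ω) k) =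
          ((1 / 2) ^ l * 2 ^ l) * (τ ω * v (π ω) k) - (fl l (τ ω) : ℝ) * (1 / 2) ^ l * v (π ω) k := by ring
        rw [this, hp]
        ring
      rw [h3]
      exact h2)
    (fun ω a => by
      have h2 := Int.floor_le ((2 : ℝ) ^ l * τ ω)
      have h3 := Int.lt_floor_add_one ((2 : ℝ) ^ l * τ ω)
      unfold fl
      rw [abs_le]
      constructor <;> linarith)
    (fun ω a i => by
      have h2 := hv ω a i
      rw [Matrix.mulVec_smul, Pi.smul_apply, smul_eq_mul, abs_mul, abs_of_pos hp0]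
      calc ((1 : ℝ) / 2) ^ l * |((M (π ω))⁻¹ *ᵥ v (π ω)) i| ≤ (1 / 2) ^ l * (C * 2 ^ (l + D)) :=
            mul_le_mul_of_nonneg_left h2 hp0.le
        _ = ((1 / 2) ^ l * 2 ^ l) * (C * 2 ^ D) := by rw [pow_add]; ring
        _ = C * 2 ^ D := by rw [hp, one_mul])
  -- digits of the fractional part
  have h2 : CH μ' (fun ω => fl D (2 ^ l * τ ω - fl l (τ ω))) K = CH μ' (fun ω => fl (l + D) (τ ω)) K := by
    apply ch_congr_left
    intro ω ω' _ _ e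
    rw [fl_fract, fl_fract, (hKin ω ω' e).2.1]
    exact sub_left_inj
  have h3 := ch_tri μ' hμ' (fun ω => fl (l + D) (τ ω)) ce (fun ω => (fl l (τ ω), K0 ω))
  rw [h2] at h1
  linarith

/-- **SCALING, ONE LEVEL**: the deficit of `A T` at level `l` is at most the deficit of `T` at level `l + X` -/
theorem scale_one (μ : Ω → ℝ) (hμ : ∀ ω, 0 ≤ μ ω) (hm : mass μ = 1) (K : Ω → κ)
    (T A : Ω → ℝ) (X : Ω → ℕ) (l D : ℕ) (C : ℝ) (hC : 0 < C)
    (hKA : ∀ ω ω', μ ω ≠ 0 → μ ω' ≠ 0 → K ω = K ω' → A ω = A ω')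
    (hKX : ∀ ω ω', μ ω ≠ 0 → μ ω' ≠ 0 → K ω = K ω' → X ω = X ω')
    (hA : ∀ ω, μ ω ≠ 0 → 2 ^ X ω ≤ C * |A ω| ∧ |A ω| ≤ C * 2 ^ X ω) :
    CH μ (fun ω => fl (l + X ω + D) (T ω)) (fun ω => (fl (l + X ω) (T ω), K ω)) ≤
      CH μ (fun ω => fl (l + D) (A ω * T ω)) (fun ω => (fl l (A ω * T ω), K ω)) +
        2 * Real.logb 2 (C + 2) := by
  -- from `A T` at level `l + D` to `T` at level `l + X + D`
  have low : ∀ m : ℕ, CH μ (fun ω => fl (m + X ω) (T ω)) (fun ω => (fl m (A ω * T ω), K ω)) ≤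
      Real.logb 2 (C + 2) := by
    intro m
    have h := ch_int μ hμ (fun ω => fl (m + X ω) (T ω)) (fun ω => (fl m (A ω * T ω), K ω)) (C + 1)
      (by positivity) (by
      intro ω ω' a a' e
      simp only [Prod.mk.injEq] at e
      obtain ⟨e1, e2⟩ := e
      have e3 := hKA ω ω' a a' e2
      rw [← hKX ω ω' a a' e2]
      have n1 := fl_eq_near m _ _ e1
      rw [← e3, ← mul_sub, abs_mul] at n1
      apply fl_lip
      rw [pow_add]
      calc 2 ^ m * 2 ^ X ω * |T ω - T ω'| ≤ 2 ^ m * (C * |A ω|) * |T ω - T ω'| := by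
            apply mul_le_mul_of_nonneg_right _ (abs_nonneg _)
            exact mul_le_mul_of_nonneg_left (hA ω a).1 (by positivity)
        _ = C * (2 ^ m * (|A ω| * |T ω - T ω'|)) := by ring
        _ ≤ C * 1 := mul_le_mul_of_nonneg_left n1 hC.le
        _ = C := mul_one C)
    rw [hm, mul_one] at h
    have : C + 1 + 1 = C + 2 := by ring
    rw [this] at h
    exact h
  -- from `T` at level `m + X` to `A T` at level `m`
  have up : ∀ m : ℕ, CH μ (fun ω => fl m (A ω * T ω)) (fun ω => (fl (m + X ω) (T ω), K ω)) ≤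
      Real.logb 2 (C + 2) := by
    intro m
    have h := ch_int μ hμ (fun ω => fl m (A ω * T ω)) (fun ω => (fl (m + X ω) (T ω), K ω)) (C + 1)
      (by positivity) (by
      intro ω ω' a a' e
      simp only [Prod.mk.injEq] at e
      obtain ⟨e1, e2⟩ := e
      rw [← hKX ω ω' a a' e2] at e1
      have n1 := fl_eq_near (m + X ω) _ _ e1
      apply fl_lip
      rw [← hKA ω ω' a a' e2, ← mul_sub, abs_mul]
      calc 2 ^ m * (|A ω| * |T ω - T ω'|) ≤ 2 ^ m * (C * 2 ^ X ω * |T ω - T ω'|) := by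
            apply mul_le_mul_of_nonneg_left _ (by positivity)
            exact mul_le_mul_of_nonneg_right (hA ω a).2 (abs_nonneg _)
        _ = C * (2 ^ (m + X ω) * |T ω - T ω'|) := by rw [pow_add]; ring
        _ ≤ C * 1 := mul_le_mul_of_nonneg_left n1 hC.le
        _ = C := mul_one C)
    rw [hm, mul_one] at h
    have : C + 1 + 1 = C + 2 := by ring
    rw [this] at h
    exact h
  have h1 := low (l + D)
  have h2 := up l
  have e0 : (fun ω => fl (l + D + X ω) (T ω)) = fun ω => fl (l + X ω + D) (T ω) := by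
    funext ω
    congr 1
    omega
  rw [e0] at h1
  -- H(T_{l+X+D} | T_{l+X}, K) ≤ H(τ_{l+D} | T_{l+X}, K) + H(T_{l+X+D} | τ_{l+D}, K)
  have h3 := ch_tri μ hμ (fun ω => fl (l + X ω + D) (T ω)) (fun ω => fl (l + D) (A ω * T ω))
    (fun ω => (fl (l + X ω) (T ω), K ω))
  have h4 := ch_cond μ hμ (fun ω => fl (l + X ω + D) (T ω)) (fun ω => (fl (l + D) (A ω * T ω), K ω))
    (fun ω => (fl (l + D) (A ω * T ω), (fl (l + X ω) (T ω), K ω))) (fun ω ω' _ _ e => by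
      simp only [Prod.mk.injEq] at e ⊢
      exact ⟨e.1, e.2.2⟩)
  -- H(τ_{l+D} | T_{l+X}, K) ≤ H(τ_l | T_{l+X}, K) + H(τ_{l+D} | τ_l, K)
  have h5 := ch_tri μ hμ (fun ω => fl (l + D) (A ω * T ω)) (fun ω => fl l (A ω * T ω))
    (fun ω => (fl (l + X ω) (T ω), K ω))
  have h6 := ch_cond μ hμ (fun ω => fl (l + D) (A ω * T ω)) (fun ω => (fl l (A ω * T ω), K ω))
    (fun ω => (fl l (A ω * T ω), (fl (l + X ω) (T ω), K ω))) (fun ω ω' _ _ e => by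
      simp only [Prod.mk.injEq] at e ⊢
      exact ⟨e.1, e.2.2⟩)
  linarith

/-- **LEMMA N, ONE LEVEL** (the label `K0` contains `G`, the forms and the records, and may depend on the level) -/
theorem lemF_one {r u : ℕ} (μ : Ω → ℝ) (μ' : Ω' → ℝ) (π : Ω' → Ω) (hμ' : ∀ ω, 0 ≤ μ' ω)
    (hm : mass μ' = 1) (hπ : push π μ' = μ) (z : Ω → Fin r → ℝ) (Y : Ω → δ) (K0 : Ω' → κ)
    (M : Ω → Mt r) (g R0 D l n : ℕ) (v : Ω → Fin r → ℝ)
    (T : Fin (u + 1) → Ω' → ℝ) (Cc : Fin (u + 1) → Ω' → Fin r → ℝ) (η : Fin (u + 1) → Ω' → ℝ)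
    (s : Fin (u + 1) → Ω' → Fin r → ℝ) (a : Fin (u + 1) → Ω' → ℝ) (X : Ω' → ℕ) (ze : Ω' → Fin r → ℝ)
    (b o : Fin (u + 1) → Ω' → Fin r → ℝ) (E : Ω' → Prop) (C : ℝ)
    (hC : 1 ≤ C) (hg : R0 ≤ g) (hD : D ≤ R0)
    (hYM : ∀ ω ω', μ' ω ≠ 0 → μ' ω' ≠ 0 → Y (π ω) = Y (π ω') → M (π ω) = M (π ω'))
    (hYv : ∀ ω ω', μ' ω ≠ 0 → μ' ω' ≠ 0 → Y (π ω) = Y (π ω') → v (π ω) = v (π ω'))
    (hGY : ∀ ω ω', μ' ω ≠ 0 → μ' ω' ≠ 0 → K0 ω = K0 ω' → Y (π ω) = Y (π ω'))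
    (hG : ∀ ω ω', μ' ω ≠ 0 → μ' ω' ≠ 0 → K0 ω = K0 ω' →
      (∀ k, η k ω = η k ω' ∧ s k ω = s k ω' ∧ a k ω = a k ω') ∧ X ω = X ω' ∧ ze ω = ze ω')
    (hF : ∀ ω ω', μ' ω ≠ 0 → μ' ω' ≠ 0 → K0 ω = K0 ω' → ∀ k : Fin u,
      fl n (T k.succ ω - a k.succ ω / a 0 ω * T 0 ω) = fl n (T k.succ ω' - a k.succ ω' / a 0 ω' * T 0 ω'))
    (hbo : ∀ ω ω', μ' ω ≠ 0 → μ' ω' ≠ 0 → K0 ω = K0 ω' →
      (∀ k, fl (l + X ω) (T k ω) = fl (l + X ω) (T k ω')) → ∀ k, b k ω = b k ω' ∧ o k ω = o k ω')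
    (ha : ∀ ω, μ' ω ≠ 0 → 2 ^ X ω ≤ C * |(a 0 ω)⁻¹| ∧ |(a 0 ω)⁻¹| ≤ C * 2 ^ X ω)
    (hak : ∀ ω, μ' ω ≠ 0 → ∀ k : Fin u, |a k.succ ω / a 0 ω| ≤ C)
    (hn : ∀ ω, μ' ω ≠ 0 → l + X ω ≤ n)
    (hM : ∀ ω, μ' ω ≠ 0 → (M (π ω)).det ≠ 0)
    (hv : ∀ ω, μ' ω ≠ 0 → ∀ i, |((M (π ω))⁻¹ *ᵥ v (π ω)) i| ≤ C * 2 ^ (l + D))
    (hE : ∀ ω, μ' ω ≠ 0 → E ω → v (π ω) = ∑ k, a k ω • s k ω ∧ ∑ k, a k ω * η k ω = 0 ∧
      (∀ i, |((M (π ω))⁻¹ *ᵥ (z (π ω) - ze ω - ∑ k, (T k ω • s k ω - η k ω • Cc k ω))) i| ≤ C) ∧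
      (∀ (k : Fin u) i, |((M (π ω))⁻¹ *ᵥ s k.succ ω) i| ≤ C * 2 ^ n) ∧
      (∀ (k : Fin u) i, |η k.succ ω| * |((M (π ω))⁻¹ *ᵥ b 0 ω) i| ≤ C * 2 ^ n) ∧
      (∀ (k : Fin u) i, |η k.succ ω| * |((M (π ω))⁻¹ *ᵥ (b k.succ ω - b 0 ω)) i| ≤ C * 2 ^ (l + X ω)) ∧
      (∀ k i, |η k ω| * |((M (π ω))⁻¹ *ᵥ (Cc k ω - T k ω • b k ω - o k ω)) i| ≤ C)) :
    NsV μ z Y M g R0 (fun ω => ((1 : ℝ) / 2) ^ l • v ω) ≤
      (D - CH μ' (fun ω => fl (l + X ω + D) (T 0 ω)) (fun ω => (fl (l + X ω) (T 0 ω), K0 ω))) +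
      (cF2 r u C + 2 * Real.logb 2 (C + 2)) + (D + cF3 r u C) * mass (res μ' (fun ω => ¬ E ω)) := by
  have hC0 : 0 ≤ C := by linarith
  have hCp : 0 < C := by linarith
  have ha0 : ∀ ω, μ' ω ≠ 0 → a 0 ω ≠ 0 := by
    intro ω x h
    have h1 := (ha ω x).1
    rw [h, _root_.inv_zero, abs_zero, mul_zero] at h1
    have : (0 : ℝ) < 2 ^ X ω := by positivity
    linarith
  set fo : Ω' → (Fin u → ℤ) := fun ω => fun k => fl n (T k.succ ω - a k.succ ω / a 0 ω * T 0 ω) with hfo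
  set τ : Ω' → ℝ := fun ω => T 0 ω / a 0 ω with hτ
  have hτ' : ∀ ω, τ ω = (a 0 ω)⁻¹ * T 0 ω := fun ω => by simp only [hτ]; ring
  set ce : Ω' → (Fin (u + 1) → ℤ) := fun ω => fun k => fl (l + X ω) (T k ω) with hce
  set z0 : Ω' → Fin r → ℝ := fun ω => ze ω + ∑ k : Fin u, ((fo ω k : ℝ) / 2 ^ n) • s k.succ ω -
    (∑ k : Fin u, η k.succ ω * ((fo ω k : ℝ) / 2 ^ n)) • b 0 ω -
    ∑ k : Fin u, (η k.succ ω * ((ce ω k.succ : ℝ) / 2 ^ (l + X ω))) • (b k.succ ω - b 0 ω) -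
    ∑ k, η k ω • o k ω with hz0
  have c2 := scale_one μ' hμ' hm K0 (T 0) (fun ω => (a 0 ω)⁻¹) X l D C hCp
    (fun ω ω' x x' h => by
      have h2 := (hG ω ω' x x' h).1
      rw [(h2 0).2.2])
    (fun ω ω' x x' h => (hG ω ω' x x' h).2.1) ha
  have e1 : (fun ω => fl (l + D) ((a 0 ω)⁻¹ * T 0 ω)) = fun ω => fl (l + D) (τ ω) := by
    funext ω
    rw [hτ']
  have e2 : (fun ω => (fl l ((a 0 ω)⁻¹ * T 0 ω), K0 ω)) = fun ω => (fl l (τ ω), K0 ω) := by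
    funext ω
    rw [hτ']
  rw [e1, e2] at c2
  -- the cells of the carriers
  have hcc : CH μ' ce (fun ω => (fl l (τ ω), K0 ω)) ≤ (u + 1 : ℕ) * Real.logb 2 (C * C + C + 2 + 1) := by
    have h3 := st_E3.2 _ _ (u + 1) μ' ce (fun ω => (fl l (τ ω), K0 ω)) (C * C + C + 2) hμ'
      (by positivity) (by
      intro ω ω' x x' h k
      simp only [Prod.mk.injEq] at h
      obtain ⟨h1, h3⟩ := h
      obtain ⟨g1, g2, -⟩ := hG ω ω' x x' h3
      simp only [hce]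
      rw [← g2]
      set J := l + X ω with hJ
      have hJn : J ≤ n := hn ω x
      have n1 := fl_eq_near l _ _ h1
      have hT0 : 2 ^ J * |T 0 ω - T 0 ω'| ≤ C := by
        have h4 : T 0 ω - T 0 ω' = a 0 ω * (τ ω - τ ω') := by
          simp only [hτ]
          rw [← (g1 0).2.2]
          have := ha0 ω x
          field_simp
        have h5 : 2 ^ X ω * |a 0 ω| ≤ C := by
          have h6 := (ha ω x).1
          rw [abs_inv] at h6
          have h7 : 0 < |a 0 ω| := abs_pos.mpr (ha0 ω x)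
          calc 2 ^ X ω * |a 0 ω| ≤ (C * |a 0 ω|⁻¹) * |a 0 ω| := mul_le_mul_of_nonneg_right h6 h7.le
            _ = C := by rw [mul_assoc, inv_mul_cancel₀ h7.ne', mul_one]
        rw [h4, abs_mul, hJ, pow_add]
        calc 2 ^ l * 2 ^ X ω * (|a 0 ω| * |τ ω - τ ω'|) =
              (2 ^ X ω * |a 0 ω|) * (2 ^ l * |τ ω - τ ω'|) := by ring
          _ ≤ C * 1 := mul_le_mul h5 n1 (by positivity) hC0
          _ = C := mul_one C
      refine Fin.cases ?_ (fun i => ?_) k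
      · refine (fl_lip J _ _ C hT0).trans ?_
        nlinarith
      · have h4 := hF ω ω' x x' h3 i
        rw [← (g1 i.succ).2.2, ← (g1 0).2.2] at h4
        have n2 := fl_eq_near n _ _ h4
        set c := a i.succ ω / a 0 ω with hc
        have hci : |c| ≤ C := hak ω x i
        have h5 : 2 ^ J * |T i.succ ω - T i.succ ω'| ≤ 1 + C * C := by
          have h6 : T i.succ ω - T i.succ ω' = (T i.succ ω - c * T 0 ω - (T i.succ ω' - c * T 0 ω')) +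
              c * (T 0 ω - T 0 ω') := by ring
          have h7 := abs_add_le (T i.succ ω - c * T 0 ω - (T i.succ ω' - c * T 0 ω'))
            (c * (T 0 ω - T 0 ω'))
          rw [← h6, abs_mul c] at h7
          have hJp : (0 : ℝ) < 2 ^ J := by positivity
          have h8 := mul_le_mul_of_nonneg_left h7 hJp.le
          rw [mul_add] at h8
          have h9 : 2 ^ J * |T i.succ ω - c * T 0 ω - (T i.succ ω' - c * T 0 ω')| ≤ 1 := by
            refine le_trans ?_ n2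
            exact mul_le_mul_of_nonneg_right (pow_le_pow_right₀ (by norm_num) hJn) (abs_nonneg _)
          have h10 : 2 ^ J * (|c| * |T 0 ω - T 0 ω'|) ≤ C * C := by
            calc 2 ^ J * (|c| * |T 0 ω - T 0 ω'|) = |c| * (2 ^ J * |T 0 ω - T 0 ω'|) := by ring
              _ ≤ C * C := mul_le_mul hci hT0 (by positivity) hC0
          linarith
        refine (fl_lip J _ _ _ h5).trans ?_
        linarith)
    rw [hm, mul_one] at h3
    exact h3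
  have hC1 : 1 ≤ C * (4 * u + 2) := by
    have : (0 : ℝ) ≤ u := Nat.cast_nonneg u
    nlinarith
  have hCle : C ≤ C * (4 * u + 2) := by
    have : (0 : ℝ) ≤ u := Nat.cast_nonneg u
    nlinarith
  have main := lemN_one μ μ' π hμ' hm hπ z Y K0 M g R0 D l v z0 τ ce E (C * (4 * u + 2))
    ((u + 1 : ℕ) * Real.logb 2 (C * C + C + 2 + 1)) hC1 hg hD hYM hYv hGY
    (fun ω ω' x x' h3 h' _ => by
      obtain ⟨g1, g2, g3⟩ := hG ω ω' x x' h3
      have h4 := hbo ω ω' x x' h3 (fun k => by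
        have h5 := congrFun h' k
        simp only [hce] at h5
        rw [g2]
        rw [g2] at h5
        exact h5)
      have h2 : fo ω = fo ω' := by
        funext k
        exact hF ω ω' x x' h3 k
      have f1 : ∀ k, η k ω = η k ω' := fun k => (g1 k).1
      have f2 : ∀ k, s k ω = s k ω' := fun k => (g1 k).2.1
      have f3 : ∀ k, b k ω = b k ω' := fun k => (h4 k).1
      have f4 : ∀ k, o k ω = o k ω' := fun k => (h4 k).2
      simp only [hz0, h2, h', g2, g3, f1, f2, f3, f4])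
    hM
    (fun ω x hEt i => by
      obtain ⟨q1, q2, q3, q4, q5, q6, q7⟩ := hE ω x hEt
      have hfln : ∀ (m : ℕ) (w : ℝ), 2 ^ m * |w - (fl m w : ℝ) / 2 ^ m| ≤ 1 := by
        intro m w
        have hmp : (0 : ℝ) < 2 ^ m := by positivity
        have a1 := Int.floor_le ((2 : ℝ) ^ m * w)
        have a2 := Int.lt_floor_add_one ((2 : ℝ) ^ m * w)
        have h1 : 2 ^ m * |w - (fl m w : ℝ) / 2 ^ m| = |2 ^ m * w - fl m w| := by
          rw [← abs_of_pos hmp, ← abs_mul, abs_of_pos hmp, mul_sub]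
          congr 2
          field_simp
        rw [h1]
        unfold fl
        rw [abs_le]
        constructor <;> linarith
      exact walk_err (M (π ω))⁻¹ (fun k => T k ω) (fun k => Cc k ω) (fun k => η k ω) (fun k => s k ω)
        (fun k => a k ω) (ze ω) (z (π ω)) (v (π ω)) (fun k => b k ω) (fun k => o k ω)
        (fun k => (fo ω k : ℝ) / 2 ^ n) (fun k => (ce ω k.succ : ℝ) / 2 ^ (l + X ω)) (ha0 ω x) q1 q2 n
        (l + X ω) C hC0 (fun k => hfln n _) (fun k => hfln _ _) q3 q4 q5 q6 q7 i)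
    (fun ω x i => (hv ω x i).trans (mul_le_mul_of_nonneg_right hCle (by positivity)))
    hcc
  unfold cF2 cF3
  linarith

end Pool.Agent.Helper15.VG
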