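import Pool.Agent.Helper15.VG.Adm

/-!
# FW, rows [K], [N]: from the frame vector to the sample vectors, summed over the levels
-/

set_option autoImplicit false

namespace Pool.Agent.Helper15.VG

open Finset Matrix Pool.Agent.Helper69.RK Pool.Agent.Helper15.VW Pool.Agent.Helper26.VW
open Pool.Agent.Helper78.FW
open Pool.Agent.Helper61.GL hiding fl
open Pool.Agent.Helper92.W (fl)

variable {Ω Ω' γ δ : Type} [Fintype Ω] [Fintype Ω'] {N : ℕ}

/-- **EXCHANGE, SUMMED OVER THE LEVELS**: `v` is spanned by the sample vectors `w k` (functions of the label `G`)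
and the floor, on the event `Sp` -/
theorem exch_sum {ι : Type} [Fintype ι] (μ : Ω → ℝ) (μ' : Ω' → ℝ) (π : Ω' → Ω) (hμ' : ∀ ω, 0 ≤ μ' ω)
    (hm : mass μ' = 1) (hπ : push π μ' = μ) (z : Ω → Fin N → ℝ) (Y : Ω → δ) (G : Ω' → γ)
    (hGY : ∀ ω ω', μ' ω ≠ 0 → μ' ω' ≠ 0 → G ω = G ω' → Y (π ω) = Y (π ω'))
    (Z : ℕ → Multiset (Fin N → ℝ)) (φ B C : ℝ) (hφ : 0 < φ) (g R0 D l0 L : ℕ) (hg : R0 ≤ g) (hD : D ≤ R0)
    (hB : B ≤ φ * 2 ^ R0) (hC : 1 ≤ C) (v : Fin N → ℝ) (w : ι → Ω' → Fin N → ℝ) (Sp : Ω' → Prop)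
    (hGw : ∀ ω ω', μ' ω ≠ 0 → μ' ω' ≠ 0 → G ω = G ω' → ∀ k, w k ω = w k ω')
    (hZ : ∀ t < L, fam (flr φ) ≤ Z t) (hZB : ∀ t < L, ∀ x ∈ Z t, ∀ i, |x i| ≤ B)
    (hZv : ∀ t < L, InB (Z t) (((1 : ℝ) / 2) ^ (l0 + t * D + D) • v))
    (hwB : ∀ ω, μ' ω ≠ 0 → ∀ k i, |w k ω i| ≤ B)
    (hSp : ∀ ω, μ' ω ≠ 0 → Sp ω → ∃ (c : ι → ℝ) (x : Fin N → ℝ), (∀ k, |c k| ≤ C) ∧ (∀ i, |x i| ≤ C * φ) ∧
      v = ∑ k, c k • w k ω + x) :
    ∑ t ∈ range L, IZ μ z Y g R0 (Z t) (((1 : ℝ) / 2) ^ (l0 + t * D) • v) ≤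
      ∑ k, ∑ t ∈ range L, NsV μ' (fun ω => z (π ω)) G (fun _ => frm (Z t)) g R0
        (fun ω => ((1 : ℝ) / 2) ^ (l0 + t * D) • w k ω) +
      L * (cP N + cN N ((Fintype.card ι + N) * (N * C + 1))) +
      (D + cT N ((Fintype.card ι + N) * (N * C + 1))) * (L * mass (res μ' (fun ω => ¬ Sp ω))) := by
  classical
  have hN : (0 : ℝ) ≤ N := Nat.cast_nonneg N
  have hI : (0 : ℝ) ≤ (Fintype.card ι : ℝ) := Nat.cast_nonneg _
  rcases Nat.eq_zero_or_pos N with h0 | hNp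
  · subst h0
    -- no coordinates: all increments vanish, use positivity
    have hz : ∀ t, IZ μ z Y g R0 (Z t) (((1 : ℝ) / 2) ^ (l0 + t * D) • v) = 0 := by
      intro t
      unfold IZ Ns
      have h1 : ∀ (α : Type) [Fintype α] (ν : α → ℝ) (f f' : α → Fin 0 → ℤ) (h : α → δ),
          CH ν f h - CH ν f' h = 0 := by
        intro α _ ν f f' h
        have : f = f' := by
          funext a i
          exact i.elim0
        rw [this, sub_self]
      exact h1 _ _ _ _ _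
    rw [Finset.sum_congr rfl fun t _ => hz t, Finset.sum_const_zero]
    have p1 : 0 ≤ ∑ k, ∑ t ∈ range L, NsV μ' (fun ω => z (π ω)) G (fun _ => frm (Z t)) g R0
        (fun ω => ((1 : ℝ) / 2) ^ (l0 + t * D) • w k ω) := by
      apply Finset.sum_nonneg
      intro k _
      apply Finset.sum_nonneg
      intro t _
      unfold NsV
      have h1 : ∀ (α β : Type) [Fintype α] (ν : α → ℝ) (f f' : α → Fin 0 → ℤ) (h : α → β),
          CH ν f h - CH ν f' h = 0 := by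
        intro α β _ ν f f' h
        have : f = f' := by
          funext a i
          exact i.elim0
        rw [this, sub_self]
      exact (h1 _ _ _ _ _ _).ge
    have c0 : 0 ≤ (Fintype.card ι + ((0 : ℕ) : ℝ)) * (((0 : ℕ) : ℝ) * C + 1) := by positivity
    have p2 := cP_nonneg 0
    have p3 := cN_nonneg 0 c0
    have p4 : 0 ≤ cT 0 ((Fintype.card ι + ((0 : ℕ) : ℝ)) * (((0 : ℕ) : ℝ) * C + 1)) := by
      unfold cT
      have := cF_nonneg 0 (C := 1) zero_le_one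
      simp only [Nat.cast_zero, zero_mul, zero_add]
      exact this
    have p5 : 0 ≤ mass (res μ' (fun ω => ¬ Sp ω)) := mass_nonneg _ (fun ω => by
      unfold res
      split_ifs
      · exact hμ' ω
      · exact le_rfl)
    positivity
  have hN1 : (1 : ℝ) ≤ N := by exact_mod_cast hNp
  have hk : C ≤ N * C + 1 := by nlinarith
  have hk1 : 1 ≤ (Fintype.card ι + N) * (N * C + 1) := by nlinarith
  have hp1 : ∀ l : ℕ, ((1 : ℝ) / 2) ^ l ≤ 1 := fun l => pow_le_one₀ (by norm_num) (by norm_num)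
  have key : ∀ t ∈ range L, IZ μ z Y g R0 (Z t) (((1 : ℝ) / 2) ^ (l0 + t * D) • v) ≤
      ∑ k, NsV μ' (fun ω => z (π ω)) G (fun _ => frm (Z t)) g R0
        (fun ω => ((1 : ℝ) / 2) ^ (l0 + t * D) • w k ω) +
      (cP N + cN N ((Fintype.card ι + N) * (N * C + 1))) +
      (D + cT N ((Fintype.card ι + N) * (N * C + 1))) * mass (res μ' (fun ω => ¬ Sp ω)) := by
    intro t ht
    rw [Finset.mem_range] at ht
    set l := l0 + t * D with hl
    have hp0 : (0 : ℝ) < (1 / 2) ^ l := by positivity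
    have h1 := IV_down μ μ' π hμ' hπ z Y G g R0 (fun _ => Z t) (fun _ => ((1 : ℝ) / 2) ^ l • v)
      (fun ω ω' a a' e => hGY ω ω' a a' e) (fun _ _ _ _ _ => rfl) (fun _ _ _ _ _ => rfl)
    have h2 := IV_exch μ' hμ' (fun ω => z (π ω)) G (fun _ => Z t) (fun k ω => ((1 : ℝ) / 2) ^ l • w k ω)
      (fun _ => ((1 : ℝ) / 2) ^ l • v) (fun _ => φ) B ((Fintype.card ι + N) * (N * C + 1)) g R0 D Sp hg hD hk1
      (fun _ _ _ _ _ => rfl) (fun ω ω' a a' e k => by rw [hGw ω ω' a a' e k]) (fun _ _ _ _ _ => rfl)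
      (fun _ _ => hφ) (fun _ _ => hB) (fun _ _ => hZ t ht) (fun _ _ => hZB t ht)
      (fun ω a k i => by
        rw [Pi.smul_apply, smul_eq_mul, abs_mul, abs_of_pos hp0]
        calc ((1 : ℝ) / 2) ^ l * |w k ω i| ≤ 1 * B :=
              mul_le_mul (hp1 l) (hwB ω a k i) (abs_nonneg _) zero_le_one
          _ = B := one_mul B)
      (fun ω a hω i => by
        obtain ⟨c, x, hc, hx, hv⟩ := hSp ω a hω
        have e1 : ((1 : ℝ) / 2) ^ l • v = ∑ k, c k • (((1 : ℝ) / 2) ^ l • w k ω) + ((1 : ℝ) / 2) ^ l • x := by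
          rw [hv, smul_add, Finset.smul_sum]
          congr 1
          apply Finset.sum_congr rfl
          intro k _
          rw [smul_comm]
        rw [e1]
        exact frm_lin hφ (Z t) (fun k => ((1 : ℝ) / 2) ^ l • w k ω) (hZ t ht) (N * C + 1) (by positivity) c
          (fun k => (hc k).trans hk) _ (fun i => by
            have h3 := frm_floor hφ (hZ t ht) (by linarith) hx i
            rw [Matrix.mulVec_smul, Pi.smul_apply, smul_eq_mul, abs_mul, abs_of_pos hp0]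
            calc ((1 : ℝ) / 2) ^ l * |((frm (Z t))⁻¹ *ᵥ x) i| ≤ 1 * (N * C) :=
                  mul_le_mul (hp1 l) h3 (abs_nonneg _) zero_le_one
              _ ≤ N * C + 1 := by linarith) i)
      (fun ω a i => by
        have h3 := frm_inB hφ (hZ t ht) (hZv t ht) i
        have e1 : ((1 : ℝ) / 2) ^ (l + D) • v = ((1 : ℝ) / 2) ^ D • (((1 : ℝ) / 2) ^ l • v) := by
          rw [smul_smul, ← pow_add, add_comm D l]
        have hpD : (0 : ℝ) < (1 / 2) ^ D := by positivity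
        have hpp : ((1 : ℝ) / 2) ^ D * 2 ^ D = 1 := by rw [← mul_pow]; norm_num
        rw [e1, Matrix.mulVec_smul, Pi.smul_apply, smul_eq_mul, abs_mul, abs_of_pos hpD] at h3
        have h4 := mul_le_mul_of_nonneg_right h3 (show (0 : ℝ) ≤ 2 ^ D by positivity)
        have h5 : ((1 : ℝ) / 2) ^ D * |((frm (Z t))⁻¹ *ᵥ (((1 : ℝ) / 2) ^ l • v)) i| * 2 ^ D =
            |((frm (Z t))⁻¹ *ᵥ (((1 : ℝ) / 2) ^ l • v)) i| := by
          calc _ = (((1 : ℝ) / 2) ^ D * 2 ^ D) * |((frm (Z t))⁻¹ *ᵥ (((1 : ℝ) / 2) ^ l • v)) i| := by ring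
            _ = _ := by rw [hpp, one_mul]
        rw [h5] at h4
        refine h4.trans (mul_le_mul_of_nonneg_right ?_ (by positivity))
        nlinarith)
    rw [hm, mul_one] at h2
    have h3 : IZ μ z Y g R0 (Z t) (((1 : ℝ) / 2) ^ l • v) =
        IV μ z Y g R0 (fun _ => Z t) (fun _ => ((1 : ℝ) / 2) ^ l • v) :=
      (NsV_const μ z Y (frm (Z t)) g R0 _).symm
    rw [h3]
    exact h1.trans h2
  have h1 := Finset.sum_le_sum key
  rw [Finset.sum_add_distrib, Finset.sum_add_distrib, Finset.sum_const, Finset.sum_const, Finset.card_range,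
    nsmul_eq_mul, nsmul_eq_mul, Finset.sum_comm] at h1
  linarith

end Pool.Agent.Helper15.VG
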