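import Pool.Agent.Helper15.VG.Src

/-!
# Vector W in fibres (ns_notes_18d, sect. 5): all sources together
-/

set_option autoImplicit false

namespace Pool.Agent.Helper15.VG

open Finset Pool.Agent.Helper69.RK Pool.Agent.Helper61.GL Pool.Agent.Helper15.VW
open Pool.Agent.Helper92.W (fl)

variable {Ω γ κ ζ δ ε : Type} [Fintype Ω]

/-- one source: `τ, τ'` the two (scaled) times, `θ, θ'` the two (scaled) time differences of the other side,
`y` the sum of the `C`-parts in the coordinates of the frame, `Q` the pair of paths, `ZA` the middle state -/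
structure Sor {b : ℕ} (μ : Ω → ℝ) (G : Ω → γ) (τ τ' θ θ' : Ω → ℝ) (y : Ω → Fin b → ℝ) (Q : Ω → κ)
    (ZA : Ω → ζ) (W : Ω → δ) (N0 R L m D s : ℕ) (C d1 d2 : ℝ) (E : ℕ → Ω → Prop) (yt : ℕ → Ω → Fin b → ℝ) :
    Prop where
  hτ : ∀ ω ω', μ ω ≠ 0 → μ ω' ≠ 0 → Q ω = Q ω' → G ω = G ω' → τ ω = τ ω'
  hτ' : ∀ ω ω', μ ω ≠ 0 → μ ω' ≠ 0 → Q ω = Q ω' → G ω = G ω' → τ' ω = τ' ω'
  hy : ∀ ω ω', μ ω ≠ 0 → μ ω' ≠ 0 → Q ω = Q ω' → G ω = G ω' → y ω = y ω'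
  hθ : ∀ ω ω', μ ω ≠ 0 → μ ω' ≠ 0 → G ω = G ω' → θ ω = θ ω'
  hθ' : ∀ ω ω', μ ω ≠ 0 → μ ω' ≠ 0 → G ω = G ω' → θ' ω = θ' ω'
  t1 : ∀ ω, μ ω ≠ 0 → |θ ω| ≤ 1
  ts : ∀ ω, μ ω ≠ 0 → ((1 : ℝ) / 2) ^ s ≤ |θ ω|
  ts' : ∀ ω, μ ω ≠ 0 → ((1 : ℝ) / 2) ^ s ≤ |θ' ω|
  /-- the approximate value of `y` is a function of the middle state, the prefixes, the form and the base -/
  hyt : ∀ t < L, ∀ ω ω', μ ω ≠ 0 → μ ω' ≠ 0 → fl (N0 + t * R) (τ ω) = fl (N0 + t * R) (τ ω') →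
    fl (N0 + t * R) (τ' ω) = fl (N0 + t * R) (τ' ω') → ZA ω = ZA ω' →
    fl m (θ ω * τ ω + θ' ω * τ' ω) = fl m (θ ω' * τ ω' + θ' ω' * τ' ω') → G ω = G ω' → yt t ω = yt t ω'
  /-- tubes with common slopes, on the event `E t` -/
  hE : ∀ t < L, ∀ ω, μ ω ≠ 0 → E t ω → ∀ k, |y ω k - yt t ω k| ≤ C * (1 / 2) ^ (N0 + t * R + D)
  /-- the pair is nearly independent of the rest of the path, given the form -/
  hQ : CH μ Q (fun ω => (fl m (θ ω * τ ω + θ' ω * τ' ω), G ω)) -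
    CH μ Q (fun ω => (W ω, (fl m (θ ω * τ ω + θ' ω * τ' ω), G ω))) ≤ d1
  /-- the time is real given the middle state and the form -/
  hZ : L * R - d2 ≤ CH μ (fun ω => fl (N0 + L * R) (τ ω))
    (fun ω => (fl N0 (τ ω), (ZA ω, (fl m (θ ω * τ ω + θ' ω * τ' ω), G ω))))

/-- everything except the source `i` -/
def Rst {b : ℕ} (J : Finset (Fin b)) (Ee : Ω → ε) (Q : Fin b → Ω → κ) (i : Fin b) (ω : Ω) :
    ε × ({k // k ∈ J ∧ k ≠ i} → κ) := (Ee ω, fun k => Q k ω)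

omit [Fintype Ω] in
/-- replacing the vectors `y` by their digits -/
theorem near_aux {b : ℕ} (J : Finset (Fin b)) (y : Fin b → ℝ) (u e x : ℝ) (N0 R L D t : ℕ) (C1 : ℝ)
    (ht : t < L) (hD : R ≤ D) (hC1 : 0 ≤ C1)
    (h : |u - e - ∑ i ∈ J, y i - x| ≤ C1 * (1 / 2) ^ (N0 + L * R)) :
    |u - (e + ∑ i ∈ J, (fl (N0 + t * R + D) (y i) : ℝ) * (1 / 2) ^ (N0 + t * R + D)) - x| ≤
      (b + C1) * (1 / 2) ^ (N0 + (t + 1) * R) := by
  have hlev : N0 + (t + 1) * R ≤ N0 + L * R := by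
    have : (t + 1) * R ≤ L * R := Nat.mul_le_mul_right R ht
    omega
  have hlev' : N0 + (t + 1) * R ≤ N0 + t * R + D := by
    have : (t + 1) * R = t * R + R := by ring
    omega
  set p : ℝ := (1 / 2) ^ (N0 + (t + 1) * R) with hp
  have hp0 : 0 < p := by positivity
  have h1 : ∀ i, |y i - (fl (N0 + t * R + D) (y i) : ℝ) * (1 / 2) ^ (N0 + t * R + D)| ≤ p := by
    intro i
    set l := N0 + t * R + D with hl
    have h2 := Int.floor_le ((2 : ℝ) ^ l * y i)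
    have h3 := Int.lt_floor_add_one ((2 : ℝ) ^ l * y i)
    have h4 : (2 : ℝ) ^ l * (1 / 2) ^ l = 1 := by rw [← mul_pow]; norm_num
    have h5 : (0 : ℝ) < (1 / 2) ^ l := by positivity
    have h6 : y i - (fl l (y i) : ℝ) * (1 / 2) ^ l = ((2 : ℝ) ^ l * y i - fl l (y i)) * (1 / 2) ^ l := by
      rw [sub_mul, mul_right_comm, h4, one_mul]
    rw [h6, abs_mul, abs_of_pos h5]
    have h7 : |(2 : ℝ) ^ l * y i - fl l (y i)| ≤ 1 := by
      unfold fl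
      rw [abs_le]
      constructor <;> linarith
    calc |(2 : ℝ) ^ l * y i - fl l (y i)| * (1 / 2) ^ l ≤ 1 * (1 / 2) ^ l :=
          mul_le_mul_of_nonneg_right h7 h5.le
      _ = (1 / 2) ^ l := one_mul _
      _ ≤ p := pow_le_pow_of_le_one (by norm_num) (by norm_num) hlev'
  have h2 : |∑ i ∈ J, y i - ∑ i ∈ J, (fl (N0 + t * R + D) (y i) : ℝ) * (1 / 2) ^ (N0 + t * R + D)| ≤ b * p := by
    rw [← Finset.sum_sub_distrib]
    calc |∑ i ∈ J, (y i - (fl (N0 + t * R + D) (y i) : ℝ) * (1 / 2) ^ (N0 + t * R + D))|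
        ≤ ∑ i ∈ J, |y i - (fl (N0 + t * R + D) (y i) : ℝ) * (1 / 2) ^ (N0 + t * R + D)| :=
          abs_sum_le_sum_abs _ _
      _ ≤ ∑ _i ∈ J, p := Finset.sum_le_sum fun i _ => h1 i
      _ = J.card * p := by rw [Finset.sum_const, nsmul_eq_mul]
      _ ≤ b * p := by
          apply mul_le_mul_of_nonneg_right _ hp0.le
          exact_mod_cast (card_le_univ J).trans (le_of_eq (Fintype.card_fin b))
  have h3 : C1 * (1 / 2) ^ (N0 + L * R) ≤ C1 * p :=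
    mul_le_mul_of_nonneg_left (pow_le_pow_of_le_one (by norm_num) (by norm_num) hlev) hC1
  have h4 : u - (e + ∑ i ∈ J, (fl (N0 + t * R + D) (y i) : ℝ) * (1 / 2) ^ (N0 + t * R + D)) - x =
      (u - e - ∑ i ∈ J, y i - x) +
      (∑ i ∈ J, y i - ∑ i ∈ J, (fl (N0 + t * R + D) (y i) : ℝ) * (1 / 2) ^ (N0 + t * R + D)) := by ring
  rw [h4]
  have h5 := abs_add_le (u - e - ∑ i ∈ J, y i - x)
    (∑ i ∈ J, y i - ∑ i ∈ J, (fl (N0 + t * R + D) (y i) : ℝ) * (1 / 2) ^ (N0 + t * R + D))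
  linarith

/-- **THE NOISE SUM** (ns_notes_18d, sect. 5) -/
theorem noise_sum {b : ℕ} (μ : Ω → ℝ) (hμ : ∀ ω, 0 ≤ μ ω) (hm : mass μ = 1) (G : Ω → γ)
    (J : Finset (Fin b)) (u : Ω → Fin b → ℝ) (Ee : Ω → ε) (e : Ω → Fin b → ℝ)
    (τ τ' θ θ' : Fin b → Ω → ℝ) (y : Fin b → Ω → Fin b → ℝ) (Q : Fin b → Ω → κ) (ZA : Fin b → Ω → ζ)
    (N0 R L m D s : ℕ) (C C1 : ℝ) (d1 d2 : Fin b → ℝ) (E : Fin b → ℕ → Ω → Prop)
    (yt : Fin b → ℕ → Ω → Fin b → ℝ) (hC : 0 ≤ C) (hC1 : 0 ≤ C1) (hlm : N0 + L * R ≤ m) (hD : R ≤ D)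
    (hS : ∀ i ∈ J, Sor μ G (τ i) (τ' i) (θ i) (θ' i) (y i) (Q i) (ZA i) (Rst J Ee Q i) N0 R L m D s C
      (d1 i) (d2 i) (E i) (yt i))
    (he : ∀ ω ω', μ ω ≠ 0 → μ ω' ≠ 0 → Ee ω = Ee ω' → G ω = G ω' →
      (∀ i ∈ J, fl m (θ i ω * τ i ω + θ' i ω * τ' i ω) = fl m (θ i ω' * τ i ω' + θ' i ω' * τ' i ω')) →
      e ω = e ω')
    (hu : ∀ ω, μ ω ≠ 0 → ∀ k, |u ω k - e ω k - ∑ i ∈ J, y i ω k -
      (if k ∈ J then θ k ω * τ k ω else 0)| ≤ C1 * (1 / 2) ^ (N0 + L * R)) :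
    ∑ i ∈ J, (L * R - d1 i - d2 i - L * (b * Real.logb 2 (2 * C + 2) + s + 4) -
        (R + 1) * ∑ t ∈ range L, mass (res μ (fun ω => ¬ E i t ω))) ≤
      CH μ (fun ω => fun i : {i // i ∈ J} => fl (N0 + L * R) (u ω i))
        (fun ω => ((fun i => fl N0 (u ω i)), G ω)) +
      L * (b * Real.logb 2 (2 * (b + C1) + 3) + b * Real.logb 2 (2 ^ s * (2 * (b + C1) + 1) + 2)) := by
  classical
  set X : Fin b → Ω → ℤ := fun i ω => fl m (θ i ω * τ i ω + θ' i ω * τ' i ω) with hX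
  set K : ℕ → Ω → ε × ({i // i ∈ J} → (ℤ × ℤ) × (Fin b → ℤ)) × ({i // i ∈ J} → ℤ) × γ :=
    fun t ω => (Ee ω, (fun i => Aat (τ i) (τ' i) (y i) N0 R D t ω), (fun i => X i ω), G ω) with hK
  have hKin : ∀ t ω ω', K t ω = K t ω' → Ee ω = Ee ω' ∧
      (∀ i ∈ J, Aat (τ i) (τ' i) (y i) N0 R D t ω = Aat (τ i) (τ' i) (y i) N0 R D t ω') ∧
      (∀ i ∈ J, X i ω = X i ω') ∧ G ω = G ω' := by
    intro t ω ω' h
    simp only [hK, Prod.mk.injEq] at h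
    exact ⟨h.1, fun i hi => congrFun h.2.1 ⟨i, hi⟩, fun i hi => congrFun h.2.2.1 ⟨i, hi⟩, h.2.2.2⟩
  have hlev : ∀ t < L, N0 + (t + 1) * R ≤ N0 + L * R := by
    intro t ht
    have : (t + 1) * R ≤ L * R := Nat.mul_le_mul_right R ht
    omega
  -- the digits of `u`
  have d := dig_sum μ hμ hm G u J τ θ N0 R L s K
    (fun t ω k => e ω k + ∑ i ∈ J, (fl (N0 + t * R + D) (y i ω k) : ℝ) * (1 / 2) ^ (N0 + t * R + D))
    (b + C1) (by positivity) (fun t ω ω' _ _ h => (hKin t ω ω' h).2.2.2)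
    (by
      intro t i hi ω ω' _ _ h
      have h2 := (hKin t ω ω' h).2.1 i hi
      unfold Aat at h2
      simp only [Prod.mk.injEq] at h2
      exact h2.1.1)
    (fun i hi ω ω' a a' h => (hS i hi).hθ ω ω' a a' h)
    (by
      intro t k ω ω' a a' h
      obtain ⟨h1, h2, h3, h4⟩ := hKin t ω ω' h
      have h5 := he ω ω' a a' h1 h4 h3
      show e ω k + _ = e ω' k + _
      rw [h5]
      congr 1
      apply Finset.sum_congr rfl
      intro i hi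
      have h6 := h2 i hi
      unfold Aat at h6
      simp only [Prod.mk.injEq] at h6
      rw [congrFun h6.2 k])
    (fun i hi ω a => ⟨(hS i hi).ts ω a, (hS i hi).t1 ω a⟩)
    (by
      intro t ht k hk ω a
      have h1 := hu ω a k
      rw [if_pos hk] at h1
      exact near_aux J (fun i => y i ω k) (u ω k) (e ω k) (θ k ω * τ k ω) N0 R L D t C1 ht hD hC1 h1)
    (by
      intro t ht k hk ω a
      have h1 := hu ω a k
      rw [if_neg hk] at h1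
      have h2 := near_aux J (fun i => y i ω k) (u ω k) (e ω k) 0 N0 R L D t C1 ht hD hC1 h1
      rw [sub_zero] at h2
      refine h2.trans ?_
      apply mul_le_mul_of_nonneg_left _ (by positivity)
      exact pow_le_pow_of_le_one (by norm_num) (by norm_num) (Nat.le_add_right _ _))
  -- the windows of the sources
  have s1 : ∀ t ∈ range L, ∑ i ∈ J, CH μ (fun ω => fl (N0 + (t + 1) * R) (τ i ω))
      (fun ω => (Aat (τ i) (τ' i) (y i) N0 R D t ω, (Rst J Ee Q i ω, (X i ω, G ω)))) ≤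
      CH μ (fun ω => fun i : {i // i ∈ J} => fl (N0 + (t + 1) * R) (τ i ω)) (K t) := by
    intro t _
    apply ch_super μ hμ (fun i ω => fl (N0 + (t + 1) * R) (τ i ω)) (K t)
      (fun i ω => (Aat (τ i) (τ' i) (y i) N0 R D t ω, (Rst J Ee Q i ω, (X i ω, G ω)))) J
    intro i hi ω ω' a a' h
    unfold Rst at h
    simp only [Prod.mk.injEq] at h
    obtain ⟨h1, ⟨h2, h3⟩, h4, h5⟩ := h
    have h6 : ∀ k ∈ J, k ≠ i → Q k ω = Q k ω' := fun k hk hki => congrFun h3 ⟨k, hk, hki⟩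
    refine ⟨?_, ?_⟩
    · simp only [hK, Prod.mk.injEq]
      refine ⟨h2, ?_, ?_, h5⟩
      · funext k
        by_cases hk : (k : Fin b) = i
        · rw [hk]
          exact h1
        · have h7 := h6 k k.2 hk
          have s := hS k k.2
          unfold Aat
          rw [s.hτ ω ω' a a' h7 h5, s.hτ' ω ω' a a' h7 h5, s.hy ω ω' a a' h7 h5]
      · funext k
        by_cases hk : (k : Fin b) = i
        · rw [hk]
          exact h4
        · have h7 := h6 k k.2 hk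
          have s := hS k k.2
          simp only [hX]
          rw [s.hτ ω ω' a a' h7 h5, s.hτ' ω ω' a a' h7 h5, s.hθ ω ω' a a' h5, s.hθ' ω ω' a a' h5]
    · intro k hk hki
      show fl (N0 + (t + 1) * R) (τ k ω) = fl (N0 + (t + 1) * R) (τ k ω')
      rw [(hS k hk).hτ ω ω' a a' (h6 k hk hki) h5]
  have s2 := Finset.sum_le_sum s1
  rw [Finset.sum_comm] at s2
  have s3 : ∀ i ∈ J, L * R - d1 i - d2 i - L * (b * Real.logb 2 (2 * C + 2) + s + 4) -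
        (R + 1) * ∑ t ∈ range L, mass (res μ (fun ω => ¬ E i t ω)) ≤
      ∑ t ∈ range L, CH μ (fun ω => fl (N0 + (t + 1) * R) (τ i ω))
      (fun ω => (Aat (τ i) (τ' i) (y i) N0 R D t ω, (Rst J Ee Q i ω, (X i ω, G ω)))) := by
    intro i hi
    have h := hS i hi
    exact src μ hμ hm G (τ i) (τ' i) (θ i) (θ' i) (y i) (Q i) (ZA i) (Rst J Ee Q i) N0 R L m D s C (d1 i)
      (d2 i) hC h.hτ h.hτ' h.hy h.hθ h.hθ' h.t1 h.ts' hlm (E i) (yt i) h.hyt h.hE h.hQ h.hZ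
  exact (Finset.sum_le_sum s3).trans (s2.trans d)

end Pool.Agent.Helper15.VG
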