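import Pool.Agent.Helper15.VW.Kv
import Pool.Agent.Helper8.RK.E4

/-!
# Vector W in fibres (ns_notes_18d sect. 5): superadditivity, filtration lemma, information of a tube
-/

set_option autoImplicit false

namespace Pool.Agent.Helper15.VG

open Finset Pool.Agent.Helper69.RK Pool.Agent.Helper61.GL Pool.Agent.Helper15.VW

variable {Ω α β γ δ ξ κ π υ : Type} [Fintype Ω]

/-- superadditivity: each `Z i` determines the condition and the other variables -/
theorem ch_super {ι : Type} [DecidableEq ι] {ζ : ι → Type} (μ : Ω → ℝ) (hμ : ∀ ω, 0 ≤ μ ω) (f : ι → Ω → α)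
    (K : Ω → κ) (Z : ∀ i, Ω → ζ i) (J : Finset ι)
    (hZ : ∀ i ∈ J, ∀ ω ω', μ ω ≠ 0 → μ ω' ≠ 0 → Z i ω = Z i ω' → K ω = K ω' ∧
      ∀ k ∈ J, k ≠ i → f k ω = f k ω') :
    ∑ i ∈ J, CH μ (f i) (Z i) ≤ CH μ (fun ω => fun i : {i // i ∈ J} => f i ω) K := by
  have key : ∀ s : Finset ι, s ⊆ J →
      ∑ i ∈ s, CH μ (f i) (Z i) ≤ CH μ (fun ω => fun i : {i // i ∈ s} => f i ω) K := by
    intro s
    induction s using Finset.induction_on with
    | empty =>
      intro _
      rw [Finset.sum_empty]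
      exact ch_nonneg μ hμ _ _
    | @insert a s ha ih =>
      intro hs
      have hs' : s ⊆ J := fun i hi => hs (Finset.mem_insert_of_mem hi)
      have haJ : a ∈ J := hs (Finset.mem_insert_self a s)
      rw [Finset.sum_insert ha]
      have h1 : CH μ (fun ω => fun i : {i // i ∈ insert a s} => f i ω) K =
          CH μ (fun ω => ((fun i : {i // i ∈ s} => f i ω), f a ω)) K := by
        apply ch_congr_left
        intro ω ω' _ _ _
        constructor
        · intro h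
          have h2 := fun i (hi : i ∈ insert a s) => congrFun h ⟨i, hi⟩
          rw [Prod.mk.injEq]
          refine ⟨?_, h2 a (Finset.mem_insert_self a s)⟩
          funext i
          exact h2 i (Finset.mem_insert_of_mem i.2)
        · intro h
          rw [Prod.mk.injEq] at h
          funext i
          rcases Finset.mem_insert.mp i.2 with hi | hi
          · have : f i ω = f i ω' ↔ f a ω = f a ω' := by rw [hi]
            exact this.mpr h.2
          · exact congrFun h.1 ⟨i, hi⟩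
      rw [h1, ch_chain]
      have h3 : CH μ (f a) (Z a) ≤ CH μ (f a) (fun ω => ((fun i : {i // i ∈ s} => f i ω), K ω)) := by
        apply ch_cond μ hμ
        intro ω ω' h0 h0' e
        obtain ⟨e1, e2⟩ := hZ a haJ ω ω' h0 h0' e
        rw [Prod.mk.injEq]
        refine ⟨?_, e1⟩
        funext i
        exact e2 i (hs' i.2) (fun h => ha (h ▸ i.2))
      linarith [ih hs']
  exact key J (subset_refl J)

/-- **filtration lemma**: `A t` is increasing, `win t` is a function of `A (t+1)`; the sum of the mutual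
informations of the windows with `W` is at most the mutual information of `Q` with `W` -/
theorem filt (μ : Ω → ℝ) (hμ : ∀ ω, 0 ≤ μ ω) (A : ℕ → Ω → α) (win : ℕ → Ω → β) (W : Ω → δ) (X : Ω → ξ)
    (Q : Ω → κ) (L : ℕ)
    (hA : ∀ t ω ω', μ ω ≠ 0 → μ ω' ≠ 0 → A (t + 1) ω = A (t + 1) ω' → A t ω = A t ω')
    (hw : ∀ t ω ω', μ ω ≠ 0 → μ ω' ≠ 0 → A (t + 1) ω = A (t + 1) ω' → X ω = X ω' → win t ω = win t ω')
    (hQ : ∀ ω ω', μ ω ≠ 0 → μ ω' ≠ 0 → Q ω = Q ω' → X ω = X ω' → A L ω = A L ω') :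
    ∑ t ∈ range L, (CH μ (win t) (fun ω => (A t ω, X ω)) - CH μ (win t) (fun ω => (A t ω, (W ω, X ω)))) ≤
      CH μ Q X - CH μ Q (fun ω => (W ω, X ω)) := by
  have h0L : ∀ t ω ω', μ ω ≠ 0 → μ ω' ≠ 0 → A t ω = A t ω' → A 0 ω = A 0 ω' := by
    intro t
    induction t with
    | zero => exact fun ω ω' _ _ h => h
    | succ t ih => exact fun ω ω' h1 h2 h => ih ω ω' h1 h2 (hA t ω ω' h1 h2 h)
  -- one level
  have h1 : ∀ t, CH μ (win t) (fun ω => (A t ω, X ω)) - CH μ (win t) (fun ω => (A t ω, (W ω, X ω))) ≤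
      CH μ (A (t + 1)) (fun ω => (A t ω, X ω)) - CH μ (A (t + 1)) (fun ω => (A t ω, (W ω, X ω))) := by
    intro t
    have h2 := mi_mono μ hμ (win t) (fun ω => (A (t + 1) ω, X ω)) W (fun ω => (A t ω, X ω)) (by
      intro ω ω' a b e
      rw [Prod.mk.injEq] at e
      exact hw t ω ω' a b e.1 e.2)
    have e1 : CH μ (fun ω => (A (t + 1) ω, X ω)) (fun ω => (A t ω, X ω)) =
        CH μ (A (t + 1)) (fun ω => (A t ω, X ω)) := by
      apply ch_congr_left
      intro ω ω' _ _ e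
      rw [Prod.mk.injEq] at e
      simp [e.2]
    have e2 : CH μ (fun ω => (A (t + 1) ω, X ω)) (fun ω => (W ω, (A t ω, X ω))) =
        CH μ (A (t + 1)) (fun ω => (A t ω, (W ω, X ω))) := by
      rw [ch_congr_right μ _ (fun ω => (W ω, (A t ω, X ω))) (fun ω => (A t ω, (W ω, X ω)))]
      · apply ch_congr_left
        intro ω ω' _ _ e
        rw [Prod.mk.injEq, Prod.mk.injEq] at e
        simp [e.2.2]
      · intro ω ω' _ _
        simp only [Prod.mk.injEq]
        tauto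
    have e3 : CH μ (win t) (fun ω => (W ω, (A t ω, X ω))) = CH μ (win t) (fun ω => (A t ω, (W ω, X ω))) := by
      apply ch_congr_right
      intro ω ω' _ _
      simp only [Prod.mk.injEq]
      tauto
    rw [e1, e2, e3] at h2
    exact h2
  have h2 : ∑ t ∈ range L, (CH μ (win t) (fun ω => (A t ω, X ω)) -
      CH μ (win t) (fun ω => (A t ω, (W ω, X ω)))) ≤
      ∑ t ∈ range L, (CH μ (A (t + 1)) (fun ω => (A t ω, X ω)) -
        CH μ (A (t + 1)) (fun ω => (A t ω, (W ω, X ω)))) := Finset.sum_le_sum fun t _ => h1 t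
  have h3 : ∑ t ∈ range L, (CH μ (A (t + 1)) (fun ω => (A t ω, X ω)) -
        CH μ (A (t + 1)) (fun ω => (A t ω, (W ω, X ω)))) =
      CH μ (A L) (fun ω => (A 0 ω, X ω)) - CH μ (A L) (fun ω => (A 0 ω, (W ω, X ω))) := by
    rw [Finset.sum_sub_distrib, ch_tel μ A X hA L, ch_tel μ A (fun ω => (W ω, X ω)) hA L]
  rw [h3] at h2
  refine h2.trans ?_
  -- the prefix costs nothing
  have c1 := ch_chain μ (A 0) (A L) X
  have c2 := ch_chain μ (A 0) (A L) (fun ω => (W ω, X ω))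
  have c3 : CH μ (fun ω => (A 0 ω, A L ω)) X = CH μ (A L) X := by
    apply ch_congr_left
    intro ω ω' a b _
    rw [Prod.mk.injEq]
    exact ⟨fun e => e.2, fun e => ⟨h0L L ω ω' a b e, e⟩⟩
  have c4 : CH μ (fun ω => (A 0 ω, A L ω)) (fun ω => (W ω, X ω)) = CH μ (A L) (fun ω => (W ω, X ω)) := by
    apply ch_congr_left
    intro ω ω' a b _
    rw [Prod.mk.injEq]
    exact ⟨fun e => e.2, fun e => ⟨h0L L ω ω' a b e, e⟩⟩
  have c5 : CH μ (A 0) (fun ω => (W ω, X ω)) ≤ CH μ (A 0) X := ch_cond μ hμ _ _ _ (by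
    intro ω ω' _ _ e
    rw [Prod.mk.injEq] at e
    exact e.2)
  have c6 := mi_mono μ hμ (A L) (fun ω => (Q ω, X ω)) W X (by
    intro ω ω' a b e
    rw [Prod.mk.injEq] at e
    exact hQ ω ω' a b e.1 e.2)
  have c7 : CH μ (fun ω => (Q ω, X ω)) X = CH μ Q X := by
    apply ch_congr_left
    intro ω ω' _ _ e
    simp [e]
  have c8 : CH μ (fun ω => (Q ω, X ω)) (fun ω => (W ω, X ω)) = CH μ Q (fun ω => (W ω, X ω)) := by
    apply ch_congr_left
    intro ω ω' _ _ e
    rw [Prod.mk.injEq] at e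
    simp [e.2]
  rw [c7, c8] at c6
  rw [c3] at c1
  rw [c4] at c2
  linarith

/-- **information of a tube**: on the event `E` the variable `Y` has few values given `P`; then `Y` gives
little information on `win` -/
theorem tube_info (μ : Ω → ℝ) (hμ : ∀ ω, 0 ≤ μ ω) (win : Ω → β) (Y : Ω → υ) (P : Ω → π) (E : Ω → Prop)
    (a b : ℝ) (ha : CH (res μ E) Y P ≤ a) (hb : CH (res μ (fun ω => ¬ E ω)) win P ≤ b) :
    CH μ win P ≤ CH μ win (fun ω => (Y ω, P ω)) + a + b + mass μ := by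
  have h1 := ((st_E4 st_E1 st_E3).2.1 Ω β π μ win P E hμ).2
  have h2 := ((st_E4 st_E1 st_E3).2.1 Ω β (υ × π) μ win (fun ω => (Y ω, P ω)) E hμ).1
  have hr : ∀ ω, 0 ≤ res μ E ω := ((st_E4 st_E1 st_E3).2.2 Ω μ E hμ).2.2
  have hr' : ∀ ω, 0 ≤ res μ (fun ω => ¬ E ω) ω := ((st_E4 st_E1 st_E3).2.2 Ω μ (fun ω => ¬ E ω) hμ).2.2
  have h3 : 0 ≤ CH (res μ (fun ω => ¬ E ω)) win (fun ω => (Y ω, P ω)) := ch_nonneg _ hr' _ _
  have h4 := ch_tri (res μ E) hr win Y P
  linarith

end Pool.Agent.Helper15.VG
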